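import Mathlib

set_option autoImplicit false

/-! # Values of `β x ^ 4 - β ^ 3 y ^ 4` which are squarefree congruent numbers (helper246) -/

namespace Pool.Agent.Run7.H246.CN

/-- `n` is the area of a right triangle with rational sides -/
def Cong (n : ℕ) : Prop :=
  ∃ a b c : ℚ, 0 < a ∧ 0 < b ∧ 0 < c ∧ a ^ 2 + b ^ 2 = c ^ 2 ∧ (n : ℚ) = a * b / 2

lemma lt_of_eq {β x y n : ℕ} (hβ : 0 < β) (hn : 0 < n)
    (h : β * x ^ 4 = n + β ^ 3 * y ^ 4) : β * y ^ 2 < x ^ 2 := by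
  have _ := hβ
  by_contra hcon
  push Not at hcon
  have h1 : (x ^ 2) ^ 2 ≤ (β * y ^ 2) ^ 2 := Nat.pow_le_pow_left hcon 2
  have h2 : β * (x ^ 2) ^ 2 ≤ β * (β * y ^ 2) ^ 2 := Nat.mul_le_mul_left β h1
  have h3 : β * (x ^ 2) ^ 2 = β * x ^ 4 := by ring
  have h4 : β * (β * y ^ 2) ^ 2 = β ^ 3 * y ^ 4 := by ring
  omega

lemma cong_of {β x y n : ℕ} (hβ : 0 < β) (hx : 0 < x) (hy : 0 < y) (hn : 0 < n)
    (h : β * x ^ 4 = n + β ^ 3 * y ^ 4) : Cong n := by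
  have hlt := lt_of_eq hβ hn h
  have hq : (β : ℚ) * y ^ 2 < x ^ 2 := by exact_mod_cast hlt
  have hβq : (0 : ℚ) < β := by exact_mod_cast hβ
  have hxq : (0 : ℚ) < x := by exact_mod_cast hx
  have hyq : (0 : ℚ) < y := by exact_mod_cast hy
  have h4 : (0 : ℚ) < (x : ℚ) ^ 4 - β ^ 2 * y ^ 4 := by
    have e : (x : ℚ) ^ 4 - β ^ 2 * y ^ 4 = (x ^ 2 - β * y ^ 2) * (x ^ 2 + β * y ^ 2) := by ring
    rw [e]
    apply mul_pos (by linarith) (by positivity)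
  refine ⟨((x : ℚ) ^ 4 - β ^ 2 * y ^ 4) / (x * y), 2 * β * x * y,
    ((x : ℚ) ^ 4 + β ^ 2 * y ^ 4) / (x * y), by positivity, by positivity, by positivity, ?_, ?_⟩
  · field_simp
    ring
  · have e : (n : ℚ) = β * x ^ 4 - β ^ 3 * y ^ 4 := by
      have : ((β * x ^ 4 : ℕ) : ℚ) = ((n + β ^ 3 * y ^ 4 : ℕ) : ℚ) := by rw [h]
      push_cast at this
      linarith
    rw [e]
    field_simp

lemma sqfree_of {β x y n W : ℕ} (hβ : Squarefree β) (hβW : β ∣ W) (h2 : 2 ∣ W)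
    (hx : x ≡ 1 [MOD W]) (hy : W ∣ y) (hn : 0 < n)
    (h : β * x ^ 4 = n + β ^ 3 * y ^ 4)
    (H : ∀ p : ℕ, p.Prime → ¬ p ∣ W → ¬ (p ∣ x ∧ p ∣ y) ∧
      ¬ p ^ 2 ∣ x ^ 2 + β * y ^ 2 ∧ ¬ p ^ 2 ∣ x ^ 2 - β * y ^ 2) : Squarefree n := by
  have hβ0 : 0 < β := Nat.pos_of_ne_zero hβ.ne_zero
  have hlt := lt_of_eq hβ0 hn h
  obtain ⟨A, hA⟩ : ∃ A, x ^ 2 = β * y ^ 2 + A := ⟨x ^ 2 - β * y ^ 2, by omega⟩
  have hA' : x ^ 2 - β * y ^ 2 = A := by omega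
  have hnAB : n = β * (A * (x ^ 2 + β * y ^ 2)) := by
    have e1 : β * x ^ 4 = β * (A * (x ^ 2 + β * y ^ 2)) + β ^ 3 * y ^ 4 := by
      have : x ^ 4 = x ^ 2 * x ^ 2 := by ring
      rw [this]
      nth_rewrite 2 [hA]
      have e2 : x ^ 2 * (β * y ^ 2 + A) = A * (x ^ 2 + β * y ^ 2) + β * y ^ 2 * (x ^ 2 - A) := by
        have e3 : x ^ 2 - A = β * y ^ 2 := by omega
        rw [e3]
        rw [hA]
        ring
      rw [e2]
      have e3 : x ^ 2 - A = β * y ^ 2 := by omega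
      rw [e3]
      ring
    omega
  rw [Nat.squarefree_iff_prime_squarefree]
  intro p hp hd
  rw [← pow_two] at hd
  by_cases hpW : p ∣ W
  · have hpx : ¬ p ∣ x := by
      intro hpx
      have e : x ≡ 1 [MOD p] := hx.of_dvd hpW
      have e2 : (1 : ℕ) ≡ 0 [MOD p] := e.symm.trans ((Nat.modEq_zero_iff_dvd).mpr hpx)
      exact hp.one_lt.ne' (Nat.dvd_one.mp ((Nat.modEq_zero_iff_dvd).mp e2))
    have hpy : p ∣ β * y ^ 2 := Dvd.dvd.mul_left (Dvd.dvd.pow (hpW.trans hy) (by norm_num)) _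
    have n2 : ¬ p ∣ A := by
      intro h6
      exact hpx (hp.dvd_of_dvd_pow (n := 2) (hA ▸ Nat.dvd_add hpy h6))
    have n3 : ¬ p ∣ x ^ 2 + β * y ^ 2 := by
      intro h6
      exact hpx (hp.dvd_of_dvd_pow (n := 2) ((Nat.dvd_add_left hpy).mp h6))
    have c2 : Nat.Coprime (p ^ 2) A :=
      Nat.Coprime.pow_left 2 ((hp.coprime_iff_not_dvd).mpr n2)
    have c3 : Nat.Coprime (p ^ 2) (x ^ 2 + β * y ^ 2) :=
      Nat.Coprime.pow_left 2 ((hp.coprime_iff_not_dvd).mpr n3)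
    rw [hnAB] at hd
    have d1 := (Nat.Coprime.mul_right c2 c3).dvd_of_dvd_mul_right hd
    exact hp.one_lt.ne' (Nat.isUnit_iff.mp (hβ p (by rwa [← pow_two])))
  · obtain ⟨h1, h3, h4⟩ := H p hp hpW
    rw [hA'] at h4
    have hpβ : ¬ p ∣ β := fun h5 => hpW (h5.trans hβW)
    have hp2 : ¬ p ∣ 2 := fun h5 => hpW (h5.trans h2)
    rw [hnAB] at hd
    have cβ : Nat.Coprime (p ^ 2) β :=
      Nat.Coprime.pow_left 2 ((hp.coprime_iff_not_dvd).mpr hpβ)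
    have hd' := cβ.dvd_of_dvd_mul_left hd
    by_cases hpA : p ∣ A
    · by_cases hpB : p ∣ x ^ 2 + β * y ^ 2
      · apply h1
        have e1 : p ∣ 2 * x ^ 2 := by
          have := Nat.dvd_add hpB hpA
          have e : x ^ 2 + β * y ^ 2 + A = 2 * x ^ 2 := by omega
          rwa [e] at this
        have e2 : p ∣ x := by
          rcases (hp.dvd_mul).mp e1 with h5 | h5
          · exact absurd h5 hp2
          · exact hp.dvd_of_dvd_pow h5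
        refine ⟨e2, ?_⟩
        have e3 : p ∣ β * y ^ 2 :=
          (Nat.dvd_add_right (Dvd.dvd.pow e2 (by norm_num))).mp hpB
        rcases (hp.dvd_mul).mp e3 with h5 | h5
        · exact absurd h5 hpβ
        · exact hp.dvd_of_dvd_pow h5
      · apply h4
        exact (Nat.Coprime.pow_left 2 ((hp.coprime_iff_not_dvd).mpr hpB)).dvd_of_dvd_mul_right hd'
    · apply h3
      exact (Nat.Coprime.pow_left 2 ((hp.coprime_iff_not_dvd).mpr hpA)).dvd_of_dvd_mul_left hd'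

lemma modEq_of {β x y n W : ℕ} (hx : x ≡ 1 [MOD W]) (hy : W ∣ y)
    (h : β * x ^ 4 = n + β ^ 3 * y ^ 4) : n ≡ β [MOD W] := by
  have h1 : β * x ^ 4 ≡ β * 1 ^ 4 [MOD W] := (hx.pow 4).mul_left β
  have h2 : n + β ^ 3 * y ^ 4 ≡ n + 0 [MOD W] := by
    apply Nat.ModEq.add_left
    exact (Nat.modEq_zero_iff_dvd).mpr (Dvd.dvd.mul_left (Dvd.dvd.pow hy (by norm_num)) _)
  rw [h] at h1
  simpa using h2.symm.trans h1

end Pool.Agent.Run7.H246.CN
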