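import Mathlib

set_option autoImplicit false

/-! # Counting the bad pairs (helper246) -/

namespace Pool.Agent.Run7.H246.CN

open Finset

/-- a residue class in `range N` -/
lemma card_class (N m a : ℕ) (hm : 0 < m) (S : Finset ℕ) (hS : ∀ i ∈ S, i < N ∧ i ≡ a [MOD m]) :
    S.card ≤ N / m + 1 := by
  have h1 : S ⊆ (range N).filter (fun i => i ≡ a [MOD m]) := by
    intro i hi
    rw [mem_filter, mem_range]
    exact hS i hi
  have h2 := card_le_card h1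
  rw [← Nat.count_eq_card_filter_range, Nat.count_modEq_card _ hm] at h2
  split_ifs at h2 <;> omega

lemma class_of_dvd {p i i' W : ℕ} {k : ℕ} (hp : p.Prime) (hpW : ¬ p ∣ W)
    (h : ((p : ℤ) ^ k) ∣ (1 + (W : ℤ) * i) - (1 + W * i')) : i ≡ i' [MOD p ^ k] := by
  have e : (1 + (W : ℤ) * i) - (1 + W * i') = W * ((i : ℤ) - i') := by ring
  rw [e] at h
  have hc : IsCoprime ((p : ℤ) ^ k) (W : ℤ) := by
    apply IsCoprime.pow_left
    rw [Int.isCoprime_iff_gcd_eq_one]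
    have : Nat.Coprime p W := (hp.coprime_iff_not_dvd).mpr hpW
    simpa [Int.gcd] using this
  have h2 := hc.dvd_of_dvd_mul_left h
  have h3 : ((p ^ k : ℕ) : ℤ) ∣ (i : ℤ) - i' := by exact_mod_cast h2
  exact ((Nat.modEq_iff_dvd).mpr h3).symm

/-- at most two classes of solutions of `x ^ 2 ≡ -c` modulo `p ^ 2` -/
lemma card_sq (N p W : ℕ) (c : ℤ) (hp : p.Prime) (hpW : ¬ p ∣ W) (h2 : ¬ p ∣ 2)
    (hc : ¬ (p : ℤ) ∣ c) (S : Finset ℕ)
    (hS : ∀ i ∈ S, i < N ∧ (p : ℤ) ^ 2 ∣ (1 + (W : ℤ) * i) ^ 2 + c) :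
    S.card ≤ 2 * (N / p ^ 2 + 1) := by
  classical
  have hpZ : Prime (p : ℤ) := Nat.prime_iff_prime_int.mp hp
  have h2Z : ¬ (p : ℤ) ∣ 2 := by
    intro h
    apply h2
    exact_mod_cast h
  rcases S.eq_empty_or_nonempty with he | ⟨i0, hi0⟩
  · rw [he]
    simp
  have key : ∀ i ∈ S, ∀ i' ∈ S, ¬ i ≡ i' [MOD p ^ 2] →
      (p : ℤ) ^ 2 ∣ (1 + (W : ℤ) * i) + (1 + (W : ℤ) * i') := by
    intro i hi i' hi' hne
    obtain ⟨_, d1⟩ := hS i hi
    obtain ⟨_, d2⟩ := hS i' hi'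
    have d3 : (p : ℤ) ^ 2 ∣ ((1 + (W : ℤ) * i) - (1 + (W : ℤ) * i')) *
        ((1 + (W : ℤ) * i) + (1 + (W : ℤ) * i')) := by
      have := dvd_sub d1 d2
      have e : (1 + (W : ℤ) * i) ^ 2 + c - ((1 + (W : ℤ) * i') ^ 2 + c) =
        ((1 + (W : ℤ) * i) - (1 + (W : ℤ) * i')) * ((1 + (W : ℤ) * i) + (1 + (W : ℤ) * i')) := by
        ring
      rwa [e] at this
    by_cases hq : (p : ℤ) ∣ (1 + (W : ℤ) * i) + (1 + (W : ℤ) * i')
    · -- then `p` does not divide the difference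
      have hq2 : ¬ (p : ℤ) ∣ (1 + (W : ℤ) * i) - (1 + (W : ℤ) * i') := by
        intro hq3
        have h4 : (p : ℤ) ∣ 2 * (1 + (W : ℤ) * i) := by
          have := dvd_add hq hq3
          have e : (1 + (W : ℤ) * i) + (1 + (W : ℤ) * i') +
            ((1 + (W : ℤ) * i) - (1 + (W : ℤ) * i')) = 2 * (1 + (W : ℤ) * i) := by ring
          rwa [e] at this
        have h5 : (p : ℤ) ∣ 1 + (W : ℤ) * i := by
          rcases hpZ.dvd_or_dvd h4 with h | h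
          · exact absurd h h2Z
          · exact h
        apply hc
        have h6 : (p : ℤ) ∣ (1 + (W : ℤ) * i) ^ 2 + c := (dvd_pow_self _ (by norm_num)).trans d1
        exact (Int.dvd_add_right (Dvd.dvd.pow h5 (by norm_num))).mp h6
      have hcop : IsCoprime ((p : ℤ) ^ 2) ((1 + (W : ℤ) * i) - (1 + (W : ℤ) * i')) := by
        apply IsCoprime.pow_left
        exact (hpZ.coprime_iff_not_dvd).mpr hq2
      exact hcop.dvd_of_dvd_mul_left d3
    · exfalso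
      apply hne
      have hcop : IsCoprime ((p : ℤ) ^ 2) ((1 + (W : ℤ) * i) + (1 + (W : ℤ) * i')) := by
        apply IsCoprime.pow_left
        exact (hpZ.coprime_iff_not_dvd).mpr hq
      exact class_of_dvd hp hpW (hcop.dvd_of_dvd_mul_right d3)
  have hp2 : 0 < p ^ 2 := pow_pos hp.pos 2
  have hsplit := card_filter_add_card_filter_not (s := S) (fun i => i ≡ i0 [MOD p ^ 2])
  have c1 : (S.filter (fun i => i ≡ i0 [MOD p ^ 2])).card ≤ N / p ^ 2 + 1 := by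
    apply card_class N (p ^ 2) i0 hp2
    intro i hi
    rw [mem_filter] at hi
    exact ⟨(hS i hi.1).1, hi.2⟩
  have c2 : (S.filter (fun i => ¬ i ≡ i0 [MOD p ^ 2])).card ≤ N / p ^ 2 + 1 := by
    rcases (S.filter (fun i => ¬ i ≡ i0 [MOD p ^ 2])).eq_empty_or_nonempty with he | ⟨i1, hi1⟩
    · rw [he]
      simp
    · rw [mem_filter] at hi1
      apply card_class N (p ^ 2) i1 hp2
      intro i hi
      rw [mem_filter] at hi
      refine ⟨(hS i hi.1).1, ?_⟩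
      have e1 := key i hi.1 i0 hi0 hi.2
      have e2 := key i1 hi1.1 i0 hi0 hi1.2
      have e3 := dvd_sub e1 e2
      apply class_of_dvd hp hpW
      have e : (1 + (W : ℤ) * i) + (1 + (W : ℤ) * i0) - ((1 + (W : ℤ) * i1) +
        (1 + (W : ℤ) * i0)) = (1 + (W : ℤ) * i) - (1 + (W : ℤ) * i1) := by ring
      rwa [e] at e3
  omega

/-- both signs -/
lemma card_sq_two (N p W c : ℕ) (hp : p.Prime) (hpW : ¬ p ∣ W) (h2 : ¬ p ∣ 2)
    (hc : ¬ p ∣ c) (S : Finset ℕ)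
    (hS : ∀ i ∈ S, i < N ∧ c ≤ (1 + W * i) ^ 2 ∧
      (p ^ 2 ∣ (1 + W * i) ^ 2 + c ∨ p ^ 2 ∣ (1 + W * i) ^ 2 - c)) :
    S.card ≤ 4 * (N / p ^ 2 + 1) := by
  classical
  have hcZ : ¬ (p : ℤ) ∣ (c : ℤ) := by
    intro h
    apply hc
    exact_mod_cast h
  have hcZ' : ¬ (p : ℤ) ∣ (-(c : ℤ)) := by
    intro h
    exact hcZ ((dvd_neg).mp h)
  have hsplit := card_filter_add_card_filter_not (s := S)
    (fun i => p ^ 2 ∣ (1 + W * i) ^ 2 + c)
  have c1 : (S.filter (fun i => p ^ 2 ∣ (1 + W * i) ^ 2 + c)).card ≤ 2 * (N / p ^ 2 + 1) := by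
    apply card_sq N p W (c : ℤ) hp hpW h2 hcZ
    intro i hi
    rw [mem_filter] at hi
    refine ⟨(hS i hi.1).1, ?_⟩
    exact_mod_cast hi.2
  have c2 : (S.filter (fun i => ¬ p ^ 2 ∣ (1 + W * i) ^ 2 + c)).card ≤ 2 * (N / p ^ 2 + 1) := by
    apply card_sq N p W (-(c : ℤ)) hp hpW h2 hcZ'
    intro i hi
    rw [mem_filter] at hi
    obtain ⟨h1, h2, h3⟩ := hS i hi.1
    refine ⟨h1, ?_⟩
    rcases h3 with h3 | h3
    · exact absurd h3 hi.2
    · have h4 : ((p ^ 2 : ℕ) : ℤ) ∣ (((1 + W * i) ^ 2 - c : ℕ) : ℤ) := by exact_mod_cast h3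
      rw [Nat.cast_sub h2] at h4
      push_cast at h4
      have e : (1 + (W : ℤ) * i) ^ 2 + -(c : ℤ) = (1 + (W : ℤ) * i) ^ 2 - c := by ring
      rw [e]
      exact h4
  omega

lemma card_lin (N p W : ℕ) (hp : p.Prime) (hpW : ¬ p ∣ W) (S : Finset ℕ)
    (hS : ∀ i ∈ S, i < N ∧ p ∣ 1 + W * i) : S.card ≤ N / p + 1 := by
  rcases S.eq_empty_or_nonempty with he | ⟨i0, hi0⟩
  · rw [he]
    simp
  apply card_class N p i0 hp.pos
  intro i hi
  refine ⟨(hS i hi).1, ?_⟩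
  have h1 : (p : ℤ) ∣ 1 + (W : ℤ) * i := by exact_mod_cast (hS i hi).2
  have h2 : (p : ℤ) ∣ 1 + (W : ℤ) * i0 := by exact_mod_cast (hS i0 hi0).2
  have h3 := dvd_sub h1 h2
  have h4 := class_of_dvd (k := 1) hp hpW (by simpa using h3)
  simpa using h4

lemma card_mult (J p : ℕ) (S : Finset ℕ)
    (hS : ∀ j ∈ S, j < J ∧ 0 < j ∧ p ∣ j) : S.card ≤ J / p := by
  have h1 : S ⊆ (Finset.Ioc 0 J).filter (fun j => p ∣ j) := by
    intro j hj
    obtain ⟨a, b, c⟩ := hS j hj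
    rw [mem_filter, mem_Ioc]
    exact ⟨⟨b, by omega⟩, c⟩
  have h2 := card_le_card h1
  rwa [Nat.Ioc_filter_dvd_card_eq_div] at h2

end Pool.Agent.Run7.H246.CN
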