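import Mathlib
import Pool.Agent.Run7.h246.CN.Count

set_option autoImplicit false

/-! # The bad pairs are few (helper246) -/

namespace Pool.Agent.Run7.H246.CN

open Finset

/-- the pair `(1 + W i, W j)` does not give a squarefree number (or `j = 0`) -/
def BadPair (β W i j : ℕ) : Prop :=
  j = 0 ∨ (∃ p : ℕ, p.Prime ∧ ¬ p ∣ W ∧ p ∣ 1 + W * i ∧ p ∣ W * j) ∨
    ∃ p : ℕ, p.Prime ∧ ¬ p ∣ W ∧ ¬ p ∣ W * j ∧
      (p ^ 2 ∣ (1 + W * i) ^ 2 + β * (W * j) ^ 2 ∨ p ^ 2 ∣ (1 + W * i) ^ 2 - β * (W * j) ^ 2)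

lemma sum_inv_sq (w Z : ℕ) (hw : 0 < w) (S : Finset ℕ) (hS : ∀ p ∈ S, w < p ∧ p ≤ Z) :
    ∑ p ∈ S, ((p : ℝ) ^ 2)⁻¹ ≤ (w : ℝ)⁻¹ := by
  rcases Nat.lt_or_ge Z w with h | h
  · have he : S = ∅ := by
      rw [Finset.eq_empty_iff_forall_notMem]
      intro p hp
      have := hS p hp
      omega
    rw [he]
    simp
  · have h1 : S ⊆ Ioc w Z := by
      intro p hp
      rw [mem_Ioc]
      exact hS p hp
    calc ∑ p ∈ S, ((p : ℝ) ^ 2)⁻¹ ≤ ∑ p ∈ Ioc w Z, ((p : ℝ) ^ 2)⁻¹ :=
          sum_le_sum_of_subset_of_nonneg h1 (fun _ _ _ => by positivity)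
      _ ≤ (w : ℝ)⁻¹ - (Z : ℝ)⁻¹ := sum_Ioc_inv_sq_le_sub (by omega) h
      _ ≤ (w : ℝ)⁻¹ := by
        have : (0 : ℝ) ≤ (Z : ℝ)⁻¹ := by positivity
        linarith

/-- the bad pairs in the box -/
theorem bad_card (β W w I J Z : ℕ) (hw : 0 < w) (h2W : 2 ∣ W) (hβW : β ∣ W)
    (hpw : ∀ p : ℕ, p.Prime → p ≤ w → p ∣ W) (B : Finset (ℕ × ℕ))
    (hB : ∀ q ∈ B, q.1 < I ∧ q.2 < J ∧ BadPair β W q.1 q.2 ∧
      β * (W * q.2) ^ 2 < (1 + W * q.1) ^ 2 ∧ 2 * (1 + W * q.1) ^ 2 < (Z + 1) ^ 2) :
    (B.card : ℝ) ≤ I + 5 * (I * J) / w + J ^ 2 + 4 * J * (Nat.primeCounting Z : ℝ) := by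
  classical
  have hwR : (0 : ℝ) < w := by exact_mod_cast hw
  -- the three parts
  set A0 : Finset (ℕ × ℕ) := B.filter (fun q => q.2 = 0) with hA0
  set P1 : Finset ℕ := (Ioc w J).filter (fun p => p.Prime ∧ ¬ p ∣ W) with hP1
  set F1 : ℕ → Finset (ℕ × ℕ) := fun p =>
    ((range I).filter (fun i => p ∣ 1 + W * i)) ×ˢ ((range J).filter (fun j => 0 < j ∧ p ∣ j))
    with hF1
  set P2 : Finset ℕ := (Ioc w Z).filter (fun p => p.Prime ∧ ¬ p ∣ W) with hP2
  set F2 : ℕ → ℕ → Finset (ℕ × ℕ) := fun j p =>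
    if p ∣ W * j then ∅ else
    ((range I).filter (fun i => β * (W * j) ^ 2 ≤ (1 + W * i) ^ 2 ∧
      (p ^ 2 ∣ (1 + W * i) ^ 2 + β * (W * j) ^ 2 ∨
        p ^ 2 ∣ (1 + W * i) ^ 2 - β * (W * j) ^ 2))) ×ˢ {j} with hF2
  have hsub : B ⊆ A0 ∪ (P1.biUnion F1 ∪ (range J).biUnion (fun j => P2.biUnion (F2 j))) := by
    intro q hq
    obtain ⟨h1, h2, h3, h4, h5⟩ := hB q hq
    rw [mem_union, mem_union]
    rcases h3 with h3 | h3 | h3
    · left
      rw [hA0, mem_filter]
      exact ⟨hq, h3⟩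
    · by_cases h0 : q.2 = 0
      · left
        rw [hA0, mem_filter]
        exact ⟨hq, h0⟩
      right
      left
      obtain ⟨p, hp, hpW, hpx, hpy⟩ := h3
      have hpj : p ∣ q.2 := by
        rcases (hp.dvd_mul).mp hpy with h | h
        · exact absurd h hpW
        · exact h
      have hpj2 : p ≤ q.2 := Nat.le_of_dvd (Nat.pos_of_ne_zero h0) hpj
      rw [mem_biUnion]
      refine ⟨p, ?_, ?_⟩
      · rw [hP1, mem_filter, mem_Ioc]
        refine ⟨⟨?_, by omega⟩, hp, hpW⟩
        by_contra hcon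
        push Not at hcon
        exact hpW (hpw p hp hcon)
      · rw [hF1]
        simp only [mem_product, mem_filter, mem_range]
        exact ⟨⟨h1, hpx⟩, h2, Nat.pos_of_ne_zero h0, hpj⟩
    · right
      right
      obtain ⟨p, hp, hpW, hpy, hd⟩ := h3
      rw [mem_biUnion]
      refine ⟨q.2, mem_range.mpr h2, ?_⟩
      rw [mem_biUnion]
      refine ⟨p, ?_, ?_⟩
      · rw [hP2, mem_filter, mem_Ioc]
        refine ⟨⟨?_, ?_⟩, hp, hpW⟩
        · by_contra hcon
          push Not at hcon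
          exact hpW (hpw p hp hcon)
        · have h6 : p ^ 2 ≤ 2 * (1 + W * q.1) ^ 2 := by
            rcases hd with hd | hd
            · have := Nat.le_of_dvd (by positivity) hd
              omega
            · have := Nat.le_of_dvd (by omega) hd
              omega
          have h7 : p ^ 2 < (Z + 1) ^ 2 := by omega
          have h8 : p < Z + 1 := (Nat.pow_lt_pow_iff_left (by norm_num)).mp h7
          omega
      · simp only [hF2]
        rw [if_neg hpy]
        simp only [mem_product, mem_filter, mem_range, mem_singleton]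
        exact ⟨⟨h1, h4.le, hd⟩, trivial⟩
  have hcard := card_le_card hsub
  have hu1 := card_union_le A0 (P1.biUnion F1 ∪ (range J).biUnion (fun j => P2.biUnion (F2 j)))
  have hu2 := card_union_le (P1.biUnion F1) ((range J).biUnion (fun j => P2.biUnion (F2 j)))
  -- first part
  have c0 : (A0.card : ℝ) ≤ I := by
    have : A0 ⊆ (range I) ×ˢ {0} := by
      intro q hq
      rw [hA0, mem_filter] at hq
      rw [mem_product, mem_range, mem_singleton]
      exact ⟨(hB q hq.1).1, hq.2⟩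
    have h := card_le_card this
    rw [card_product, card_range, card_singleton, mul_one] at h
    exact_mod_cast h
  -- second part
  have c1 : ((P1.biUnion F1).card : ℝ) ≤ (I * J) / w + J ^ 2 := by
    have h1 : ((P1.biUnion F1).card : ℝ) ≤ ∑ p ∈ P1, ((F1 p).card : ℝ) := by
      exact_mod_cast card_biUnion_le
    have h2 : ∀ p ∈ P1, ((F1 p).card : ℝ) ≤ (I * J) * ((p : ℝ) ^ 2)⁻¹ + J := by
      intro p hp
      rw [hP1, mem_filter, mem_Ioc] at hp
      obtain ⟨⟨hpw1, hpJ⟩, hpp, hpW⟩ := hp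
      have hpR : (1 : ℝ) ≤ p := by exact_mod_cast hpp.one_lt.le
      have e1 : (((range I).filter (fun i => p ∣ 1 + W * i)).card : ℝ) ≤ I / p + 1 := by
        have h3 := card_lin I p W hpp hpW ((range I).filter (fun i => p ∣ 1 + W * i)) (by
          intro i hi
          rw [mem_filter, mem_range] at hi
          exact hi)
        calc (((range I).filter (fun i => p ∣ 1 + W * i)).card : ℝ) ≤ ((I / p + 1 : ℕ) : ℝ) := by
              exact_mod_cast h3
          _ = ((I / p : ℕ) : ℝ) + 1 := by push_cast; ring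
          _ ≤ I / p + 1 := by
            have := @Nat.cast_div_le ℝ _ _ _ I p
            linarith
      have e2 : (((range J).filter (fun j => 0 < j ∧ p ∣ j)).card : ℝ) ≤ J / p := by
        have h3 := card_mult J p ((range J).filter (fun j => 0 < j ∧ p ∣ j)) (by
          intro i hi
          rw [mem_filter, mem_range] at hi
          exact hi)
        calc (((range J).filter (fun j => 0 < j ∧ p ∣ j)).card : ℝ) ≤ ((J / p : ℕ) : ℝ) := by
              exact_mod_cast h3
          _ ≤ J / p := Nat.cast_div_le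
      simp only [hF1]
      rw [card_product]
      push_cast
      calc (((range I).filter (fun i => p ∣ 1 + W * i)).card : ℝ) *
            (((range J).filter (fun j => 0 < j ∧ p ∣ j)).card : ℝ)
          ≤ (I / p + 1) * (J / p) := by
            apply mul_le_mul e1 e2 (by positivity) (by positivity)
        _ = (I * J) * ((p : ℝ) ^ 2)⁻¹ + J / p := by
            field_simp
        _ ≤ (I * J) * ((p : ℝ) ^ 2)⁻¹ + J := by
            have : (J : ℝ) / p ≤ J := div_le_self (by positivity) hpR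
            linarith
    have h3 : (P1.card : ℝ) ≤ J := by
      have : P1.card ≤ (Ioc w J).card := card_le_card (filter_subset _ _)
      rw [Nat.card_Ioc] at this
      have h4 : P1.card ≤ J := by omega
      exact_mod_cast h4
    calc ((P1.biUnion F1).card : ℝ) ≤ ∑ p ∈ P1, ((F1 p).card : ℝ) := h1
      _ ≤ ∑ p ∈ P1, ((I * J) * ((p : ℝ) ^ 2)⁻¹ + J) := sum_le_sum h2
      _ = (I * J) * ∑ p ∈ P1, ((p : ℝ) ^ 2)⁻¹ + P1.card * J := by
        rw [sum_add_distrib, ← mul_sum, sum_const, nsmul_eq_mul]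
      _ ≤ (I * J) * (w : ℝ)⁻¹ + J * J := by
        have h4 := sum_inv_sq w J hw P1 (by
          intro p hp
          rw [hP1, mem_filter, mem_Ioc] at hp
          exact hp.1)
        have hJ : (0 : ℝ) ≤ J := by positivity
        have hIJ : (0 : ℝ) ≤ (I : ℝ) * J := by positivity
        have h5 := mul_le_mul_of_nonneg_left h4 hIJ
        have h6 := mul_le_mul_of_nonneg_right h3 hJ
        linarith
      _ = (I * J) / w + J ^ 2 := by
        rw [div_eq_mul_inv]
        ring
  -- third part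
  have c2 : (((range J).biUnion (fun j => P2.biUnion (F2 j))).card : ℝ) ≤
      4 * (I * J) / w + 4 * J * (Nat.primeCounting Z : ℝ) := by
    have h1 : (((range J).biUnion (fun j => P2.biUnion (F2 j))).card : ℝ) ≤
        ∑ j ∈ range J, ((P2.biUnion (F2 j)).card : ℝ) := by
      exact_mod_cast card_biUnion_le
    have hPc : (P2.card : ℝ) ≤ (Nat.primeCounting Z : ℝ) := by
      have h4 : P2 ⊆ (range (Z + 1)).filter Nat.Prime := by
        intro p hp
        rw [hP2, mem_filter, mem_Ioc] at hp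
        rw [mem_filter, mem_range]
        exact ⟨by omega, hp.2.1⟩
      have h5 := card_le_card h4
      rw [Nat.primeCounting, Nat.primeCounting', Nat.count_eq_card_filter_range]
      exact_mod_cast h5
    have h2 : ∀ j ∈ range J, ((P2.biUnion (F2 j)).card : ℝ) ≤
        4 * I * (w : ℝ)⁻¹ + 4 * (Nat.primeCounting Z : ℝ) := by
      intro j _
      have h3 : ((P2.biUnion (F2 j)).card : ℝ) ≤ ∑ p ∈ P2, ((F2 j p).card : ℝ) := by
        exact_mod_cast card_biUnion_le
      have h4 : ∀ p ∈ P2, ((F2 j p).card : ℝ) ≤ 4 * I * ((p : ℝ) ^ 2)⁻¹ + 4 := by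
        intro p hp
        rw [hP2, mem_filter, mem_Ioc] at hp
        obtain ⟨⟨hpw1, hpZ⟩, hpp, hpW⟩ := hp
        have hp0 : (0 : ℝ) < p := by exact_mod_cast hpp.pos
        simp only [hF2]
        split_ifs with hpy
        · simp only [card_empty, Nat.cast_zero]
          positivity
        · rw [card_product, card_singleton, mul_one]
          have hc : ¬ p ∣ β * (W * j) ^ 2 := by
            intro h
            rcases (hpp.dvd_mul).mp h with h | h
            · exact hpW (h.trans hβW)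
            · exact hpy (hpp.dvd_of_dvd_pow h)
          have h5 := card_sq_two I p W (β * (W * j) ^ 2) hpp hpW (fun h => hpW (h.trans h2W)) hc
            ((range I).filter (fun i => β * (W * j) ^ 2 ≤ (1 + W * i) ^ 2 ∧
              (p ^ 2 ∣ (1 + W * i) ^ 2 + β * (W * j) ^ 2 ∨
              p ^ 2 ∣ (1 + W * i) ^ 2 - β * (W * j) ^ 2))) (by
              intro i hi
              rw [mem_filter, mem_range] at hi
              exact hi)
          calc _ ≤ ((4 * (I / p ^ 2 + 1) : ℕ) : ℝ) := by exact_mod_cast h5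
            _ = 4 * ((I / p ^ 2 : ℕ) : ℝ) + 4 := by push_cast; ring
            _ ≤ 4 * ((I : ℝ) / ((p ^ 2 : ℕ) : ℝ)) + 4 := by
              have := @Nat.cast_div_le ℝ _ _ _ I (p ^ 2)
              linarith
            _ = 4 * I * ((p : ℝ) ^ 2)⁻¹ + 4 := by
              push_cast
              rw [div_eq_mul_inv]
              ring
      calc ((P2.biUnion (F2 j)).card : ℝ) ≤ ∑ p ∈ P2, ((F2 j p).card : ℝ) := h3
        _ ≤ ∑ p ∈ P2, (4 * I * ((p : ℝ) ^ 2)⁻¹ + 4) := sum_le_sum h4
        _ = 4 * I * ∑ p ∈ P2, ((p : ℝ) ^ 2)⁻¹ + P2.card * 4 := by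
          rw [sum_add_distrib, ← mul_sum, sum_const, nsmul_eq_mul]
        _ ≤ 4 * I * (w : ℝ)⁻¹ + 4 * (Nat.primeCounting Z : ℝ) := by
          have h5 := sum_inv_sq w Z hw P2 (by
            intro p hp
            rw [hP2, mem_filter, mem_Ioc] at hp
            exact hp.1)
          have hI : (0 : ℝ) ≤ 4 * (I : ℝ) := by positivity
          have h6 := mul_le_mul_of_nonneg_left h5 hI
          linarith
    calc (((range J).biUnion (fun j => P2.biUnion (F2 j))).card : ℝ)
        ≤ ∑ j ∈ range J, ((P2.biUnion (F2 j)).card : ℝ) := h1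
      _ ≤ ∑ j ∈ range J, (4 * I * (w : ℝ)⁻¹ + 4 * (Nat.primeCounting Z : ℝ)) := sum_le_sum h2
      _ = J * (4 * I * (w : ℝ)⁻¹ + 4 * (Nat.primeCounting Z : ℝ)) := by
        rw [sum_const, card_range, nsmul_eq_mul]
      _ = 4 * (I * J) / w + 4 * J * (Nat.primeCounting Z : ℝ) := by
        rw [div_eq_mul_inv]
        ring
  have hcR : (B.card : ℝ) ≤ (A0.card : ℝ) + ((P1.biUnion F1).card +
      ((range J).biUnion (fun j => P2.biUnion (F2 j))).card) := by
    have : B.card ≤ A0.card + ((P1.biUnion F1).card +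
      ((range J).biUnion (fun j => P2.biUnion (F2 j))).card) := by omega
    exact_mod_cast this
  have e5 : (5 : ℝ) * (I * J) / w = (I * J) / w + 4 * (I * J) / w := by ring
  rw [e5]
  linarith

end Pool.Agent.Run7.H246.CN
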