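import Mathlib
import Pool.Agent.Run7.h246.CN.Bad

set_option autoImplicit false

/-! # Coprime pairs for which a large square divides `x ^ 2 ± β y ^ 2` (helper246) -/

namespace Pool.Agent.Run7.H246.CN

open Finset

/-- coprime pairs in one class of slopes modulo `p ^ 2` -/
lemma class_slopes (N Y p : ℕ) (hp : 0 < p) (hY : 0 < Y) (S : Finset (ℕ × ℕ))
    (hS : ∀ q ∈ S, 0 < q.1 ∧ Nat.Coprime q.1 q.2 ∧ q.1 ≤ 2 * Y ^ 4 ∧ Y ^ 4 ≤ N * q.1 ∧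
      q.2 ≤ 2 * N * Y ^ 3)
    (hd : ∀ q ∈ S, ∀ q' ∈ S, (p : ℤ) ^ 2 ∣ (q.1 : ℤ) * q'.2 - q'.1 * q.2) :
    S.card ≤ 8 * N ^ 2 * Y ^ 7 / p ^ 2 + 1 := by
  classical
  have hp2 : 0 < p ^ 2 := by positivity
  rw [← card_range (8 * N ^ 2 * Y ^ 7 / p ^ 2 + 1)]
  apply card_le_card_of_injOn (fun q => (4 * Y ^ 8 * q.2) / (p ^ 2 * q.1))
  · intro q hq
    obtain ⟨h1, h2, h3, h4, h5⟩ := hS q hq
    rw [coe_range, Set.mem_Iio]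
    apply Nat.lt_succ_of_le
    rw [Nat.le_div_iff_mul_le hp2]
    have g1 := Nat.div_mul_le_self (4 * Y ^ 8 * q.2) (p ^ 2 * q.1)
    set v := (4 * Y ^ 8 * q.2) / (p ^ 2 * q.1) with hv
    have g2 : (v * p ^ 2) * Y ^ 4 ≤ (8 * N ^ 2 * Y ^ 7) * Y ^ 4 := by
      calc (v * p ^ 2) * Y ^ 4 ≤ (v * p ^ 2) * (N * q.1) := Nat.mul_le_mul_left _ h4
        _ = N * (v * (p ^ 2 * q.1)) := by ring
        _ ≤ N * (4 * Y ^ 8 * q.2) := Nat.mul_le_mul_left _ g1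
        _ ≤ N * (4 * Y ^ 8 * (2 * N * Y ^ 3)) :=
            Nat.mul_le_mul_left _ (Nat.mul_le_mul_left _ h5)
        _ = (8 * N ^ 2 * Y ^ 7) * Y ^ 4 := by ring
    exact Nat.le_of_mul_le_mul_right g2 (by positivity)
  · intro q hq q' hq' hqq
    rw [mem_coe] at hq hq'
    obtain ⟨h1, h2, h3, h4, h5⟩ := hS q hq
    obtain ⟨h1', h2', h3', h4', h5'⟩ := hS q' hq'
    have hdd := hd q hq q' hq'
    simp only at hqq
    have hb1 : 0 < p ^ 2 * q.1 := by positivity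
    have hb2 : 0 < p ^ 2 * q'.1 := by positivity
    have a1 := Nat.div_mul_le_self (4 * Y ^ 8 * q.2) (p ^ 2 * q.1)
    have a2 : 4 * Y ^ 8 * q.2 < ((4 * Y ^ 8 * q.2) / (p ^ 2 * q.1) + 1) * (p ^ 2 * q.1) :=
      (Nat.div_lt_iff_lt_mul hb1).mp (Nat.lt_succ_self _)
    have b1 := Nat.div_mul_le_self (4 * Y ^ 8 * q'.2) (p ^ 2 * q'.1)
    have b2 : 4 * Y ^ 8 * q'.2 < ((4 * Y ^ 8 * q'.2) / (p ^ 2 * q'.1) + 1) * (p ^ 2 * q'.1) :=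
      (Nat.div_lt_iff_lt_mul hb2).mp (Nat.lt_succ_self _)
    rw [← hqq] at b1 b2
    set v := (4 * Y ^ 8 * q.2) / (p ^ 2 * q.1) with hv
    have hxx : q.1 * q'.1 ≤ 4 * Y ^ 8 := by
      calc q.1 * q'.1 ≤ (2 * Y ^ 4) * (2 * Y ^ 4) := Nat.mul_le_mul h3 h3'
        _ = 4 * Y ^ 8 := by ring
    have hA : (0 : ℤ) < 4 * (Y : ℤ) ^ 8 := by
      have : (0 : ℤ) < Y := by exact_mod_cast hY
      positivity
    have hxxZ : (q.1 : ℤ) * q'.1 ≤ 4 * (Y : ℤ) ^ 8 := by exact_mod_cast hxx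
    have hx0 : (0 : ℤ) < q.1 := by exact_mod_cast h1
    have hx0' : (0 : ℤ) < q'.1 := by exact_mod_cast h1'
    have hpZ : (0 : ℤ) < (p : ℤ) ^ 2 := by
      have : (0 : ℤ) < p := by exact_mod_cast hp
      positivity
    have A1 : (v : ℤ) * (p ^ 2 * q.1) ≤ 4 * (Y : ℤ) ^ 8 * q.2 := by exact_mod_cast a1
    have A2 : 4 * (Y : ℤ) ^ 8 * q.2 < (v + 1) * (p ^ 2 * q.1) := by exact_mod_cast a2
    have B1 : (v : ℤ) * (p ^ 2 * q'.1) ≤ 4 * (Y : ℤ) ^ 8 * q'.2 := by exact_mod_cast b1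
    have B2 : 4 * (Y : ℤ) ^ 8 * q'.2 < (v + 1) * (p ^ 2 * q'.1) := by exact_mod_cast b2
    have A1' := mul_le_mul_of_nonneg_right A1 hx0'.le
    have A2' := mul_lt_mul_of_pos_right A2 hx0'
    have B1' := mul_le_mul_of_nonneg_right B1 hx0.le
    have B2' := mul_lt_mul_of_pos_right B2 hx0
    have hbound : (p : ℤ) ^ 2 * ((q.1 : ℤ) * q'.1) ≤ (p : ℤ) ^ 2 * (4 * (Y : ℤ) ^ 8) :=
      mul_le_mul_of_nonneg_left hxxZ hpZ.le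
    have hlt : |(q.1 : ℤ) * q'.2 - q'.1 * q.2| < (p : ℤ) ^ 2 := by
      rw [abs_lt]
      constructor
      · have : -((p : ℤ) ^ 2 * (4 * (Y : ℤ) ^ 8)) <
            (4 * (Y : ℤ) ^ 8) * ((q.1 : ℤ) * q'.2 - q'.1 * q.2) := by
          nlinarith
        have h9 : (4 * (Y : ℤ) ^ 8) * (-((p : ℤ) ^ 2)) <
            (4 * (Y : ℤ) ^ 8) * ((q.1 : ℤ) * q'.2 - q'.1 * q.2) := by
          linarith
        exact lt_of_mul_lt_mul_left h9 hA.le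
      · have h9 : (4 * (Y : ℤ) ^ 8) * ((q.1 : ℤ) * q'.2 - q'.1 * q.2) <
            (4 * (Y : ℤ) ^ 8) * ((p : ℤ) ^ 2) := by
          nlinarith
        exact lt_of_mul_lt_mul_left h9 hA.le
    have h0 := Int.eq_zero_of_abs_lt_dvd hdd hlt
    have hN : q.1 * q'.2 = q'.1 * q.2 := by
      have : (q.1 : ℤ) * q'.2 = q'.1 * q.2 := by linarith
      exact_mod_cast this
    have d1 : q.1 ∣ q'.1 := by
      have : q.1 ∣ q'.1 * q.2 := Dvd.intro _ hN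
      exact h2.dvd_of_dvd_mul_right this
    have d2 : q'.1 ∣ q.1 := by
      have : q'.1 ∣ q.1 * q'.2 := Dvd.intro _ hN.symm
      exact h2'.dvd_of_dvd_mul_right this
    have e1 : q.1 = q'.1 := Nat.dvd_antisymm d1 d2
    have e2 : q.2 = q'.2 := by
      rw [e1] at hN
      exact (Nat.eq_of_mul_eq_mul_left h1' hN).symm
    exact Prod.ext e1 e2

/-- coprime pairs with `p ^ 2 ∣ x ^ 2 + c y ^ 2` -/
lemma sign_slopes (N Y p : ℕ) (c : ℤ) (hp : p.Prime) (h2 : ¬ p ∣ 2) (hc : ¬ (p : ℤ) ∣ c)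
    (hY : 0 < Y) (S : Finset (ℕ × ℕ))
    (hS : ∀ q ∈ S, 0 < q.1 ∧ Nat.Coprime q.1 q.2 ∧ q.1 ≤ 2 * Y ^ 4 ∧ Y ^ 4 ≤ N * q.1 ∧
      q.2 ≤ 2 * N * Y ^ 3)
    (hd : ∀ q ∈ S, ¬ p ∣ q.2 ∧ (p : ℤ) ^ 2 ∣ (q.1 : ℤ) ^ 2 + c * (q.2 : ℤ) ^ 2) :
    S.card ≤ 2 * (8 * N ^ 2 * Y ^ 7 / p ^ 2 + 1) := by
  classical
  have hpZ : Prime (p : ℤ) := Nat.prime_iff_prime_int.mp hp
  have h2Z : ¬ (p : ℤ) ∣ 2 := by
    intro h
    apply h2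
    exact_mod_cast h
  rcases S.eq_empty_or_nonempty with he | ⟨q0, hq0⟩
  · rw [he]
    simp
  have hy : ∀ q ∈ S, ¬ (p : ℤ) ∣ (q.2 : ℤ) := by
    intro q hq h
    apply (hd q hq).1
    exact_mod_cast h
  have hx : ∀ q ∈ S, ¬ (p : ℤ) ∣ (q.1 : ℤ) := by
    intro q hq h
    have h6 : (p : ℤ) ∣ (q.1 : ℤ) ^ 2 + c * (q.2 : ℤ) ^ 2 :=
      (dvd_pow_self _ (by norm_num)).trans (hd q hq).2
    have h7 : (p : ℤ) ∣ c * (q.2 : ℤ) ^ 2 :=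
      (Int.dvd_add_right (Dvd.dvd.pow h (by norm_num))).mp h6
    rcases hpZ.dvd_or_dvd h7 with h8 | h8
    · exact hc h8
    · exact hy q hq (hpZ.dvd_of_dvd_pow h8)
  have cy0 : IsCoprime ((p : ℤ) ^ 2) (q0.2 : ℤ) :=
    IsCoprime.pow_left ((hpZ.coprime_iff_not_dvd).mpr (hy q0 hq0))
  have hsplit := card_filter_add_card_filter_not (s := S)
    (fun q => (p : ℤ) ^ 2 ∣ (q.1 : ℤ) * q0.2 - q0.1 * q.2)
  have key : ∀ q ∈ S, ¬ (p : ℤ) ^ 2 ∣ (q.1 : ℤ) * q0.2 - q0.1 * q.2 →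
      (p : ℤ) ^ 2 ∣ (q.1 : ℤ) * q0.2 + q0.1 * q.2 := by
    intro q hq hne
    have d3 : (p : ℤ) ^ 2 ∣ ((q.1 : ℤ) * q0.2 - q0.1 * q.2) * ((q.1 : ℤ) * q0.2 + q0.1 * q.2) := by
      have e : ((q.1 : ℤ) * q0.2 - q0.1 * q.2) * ((q.1 : ℤ) * q0.2 + q0.1 * q.2) =
        (q0.2 : ℤ) ^ 2 * ((q.1 : ℤ) ^ 2 + c * (q.2 : ℤ) ^ 2) -
          (q.2 : ℤ) ^ 2 * ((q0.1 : ℤ) ^ 2 + c * (q0.2 : ℤ) ^ 2) := by ring
      rw [e]
      exact dvd_sub (Dvd.dvd.mul_left (hd q hq).2 _) (Dvd.dvd.mul_left (hd q0 hq0).2 _)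
    by_cases hq1 : (p : ℤ) ∣ (q.1 : ℤ) * q0.2 - q0.1 * q.2
    · have hq2 : ¬ (p : ℤ) ∣ (q.1 : ℤ) * q0.2 + q0.1 * q.2 := by
        intro hq3
        have h4 : (p : ℤ) ∣ 2 * ((q.1 : ℤ) * q0.2) := by
          have := dvd_add hq3 hq1
          have e : (q.1 : ℤ) * q0.2 + q0.1 * q.2 + ((q.1 : ℤ) * q0.2 - q0.1 * q.2) =
            2 * ((q.1 : ℤ) * q0.2) := by ring
          rwa [e] at this
        rcases hpZ.dvd_or_dvd h4 with h | h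
        · exact h2Z h
        · rcases hpZ.dvd_or_dvd h with h | h
          · exact hx q hq h
          · exact hy q0 hq0 h
      have hcop : IsCoprime ((p : ℤ) ^ 2) ((q.1 : ℤ) * q0.2 + q0.1 * q.2) :=
        IsCoprime.pow_left ((hpZ.coprime_iff_not_dvd).mpr hq2)
      exact absurd (hcop.dvd_of_dvd_mul_right d3) hne
    · have hcop : IsCoprime ((p : ℤ) ^ 2) ((q.1 : ℤ) * q0.2 - q0.1 * q.2) :=
        IsCoprime.pow_left ((hpZ.coprime_iff_not_dvd).mpr hq1)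
      exact hcop.dvd_of_dvd_mul_left d3
  have c1 : (S.filter (fun q => (p : ℤ) ^ 2 ∣ (q.1 : ℤ) * q0.2 - q0.1 * q.2)).card ≤
      8 * N ^ 2 * Y ^ 7 / p ^ 2 + 1 := by
    apply class_slopes N Y p hp.pos hY
    · intro q hq
      rw [mem_filter] at hq
      exact hS q hq.1
    · intro q hq q' hq'
      rw [mem_filter] at hq hq'
      have e : (q0.2 : ℤ) * ((q.1 : ℤ) * q'.2 - q'.1 * q.2) =
        (q'.2 : ℤ) * ((q.1 : ℤ) * q0.2 - q0.1 * q.2) -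
          (q.2 : ℤ) * ((q'.1 : ℤ) * q0.2 - q0.1 * q'.2) := by ring
      apply cy0.dvd_of_dvd_mul_left
      rw [e]
      exact dvd_sub (Dvd.dvd.mul_left hq.2 _) (Dvd.dvd.mul_left hq'.2 _)
  have c2 : (S.filter (fun q => ¬ (p : ℤ) ^ 2 ∣ (q.1 : ℤ) * q0.2 - q0.1 * q.2)).card ≤
      8 * N ^ 2 * Y ^ 7 / p ^ 2 + 1 := by
    apply class_slopes N Y p hp.pos hY
    · intro q hq
      rw [mem_filter] at hq
      exact hS q hq.1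
    · intro q hq q' hq'
      rw [mem_filter] at hq hq'
      have k1 := key q hq.1 hq.2
      have k2 := key q' hq'.1 hq'.2
      have e : (q0.2 : ℤ) * ((q.1 : ℤ) * q'.2 - q'.1 * q.2) =
        (q'.2 : ℤ) * ((q.1 : ℤ) * q0.2 + q0.1 * q.2) -
          (q.2 : ℤ) * ((q'.1 : ℤ) * q0.2 + q0.1 * q'.2) := by ring
      apply cy0.dvd_of_dvd_mul_left
      rw [e]
      exact dvd_sub (Dvd.dvd.mul_left k1 _) (Dvd.dvd.mul_left k2 _)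
  omega

/-- the pairs with a large square are few -/
theorem large_card (β N Y P : ℕ) (hP : 0 < P) (hY : 0 < Y) (L : Finset (ℕ × ℕ))
    (hL : ∀ q ∈ L, 0 < q.1 ∧ Nat.Coprime q.1 q.2 ∧ q.1 ≤ 2 * Y ^ 4 ∧ Y ^ 4 ≤ N * q.1 ∧
      q.2 ≤ 2 * N * Y ^ 3 ∧ β * q.2 ^ 2 < q.1 ^ 2 ∧
      ∃ p : ℕ, p.Prime ∧ P < p ∧ ¬ p ∣ β ∧ ¬ p ∣ 2 ∧ ¬ p ∣ q.2 ∧
        (p ^ 2 ∣ q.1 ^ 2 + β * q.2 ^ 2 ∨ p ^ 2 ∣ q.1 ^ 2 - β * q.2 ^ 2)) :
    (L.card : ℝ) ≤ 32 * N ^ 2 * Y ^ 7 / P + 12 * Y ^ 4 := by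
  classical
  set Q := (Ioc P (3 * Y ^ 4)).filter (fun p => p.Prime ∧ ¬ p ∣ β ∧ ¬ p ∣ 2) with hQ
  set F : ℕ → Finset (ℕ × ℕ) := fun p => L.filter (fun q => ¬ p ∣ q.2 ∧
    (p ^ 2 ∣ q.1 ^ 2 + β * q.2 ^ 2 ∨ p ^ 2 ∣ q.1 ^ 2 - β * q.2 ^ 2)) with hF
  have hsub : L ⊆ Q.biUnion F := by
    intro q hq
    obtain ⟨h1, h2, h3, h4, h5, h6, p, hp, hPp, hpβ, hp2, hpy, hd⟩ := hL q hq
    rw [mem_biUnion]
    refine ⟨p, ?_, ?_⟩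
    · rw [hQ, mem_filter, mem_Ioc]
      refine ⟨⟨hPp, ?_⟩, hp, hpβ, hp2⟩
      have h7 : p ^ 2 ≤ 2 * q.1 ^ 2 := by
        rcases hd with hd | hd
        · have := Nat.le_of_dvd (by positivity) hd
          omega
        · have := Nat.le_of_dvd (by omega) hd
          omega
      have h8 : q.1 ^ 2 ≤ (2 * Y ^ 4) ^ 2 := Nat.pow_le_pow_left h3 2
      have h9 : p ^ 2 ≤ (3 * Y ^ 4) ^ 2 := by nlinarith
      exact (Nat.pow_le_pow_iff_left (by norm_num)).mp h9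
    · simp only [hF, mem_filter]
      exact ⟨hq, hpy, hd⟩
  have h1 : (L.card : ℝ) ≤ ∑ p ∈ Q, ((F p).card : ℝ) := by
    have := (card_le_card hsub).trans card_biUnion_le
    exact_mod_cast this
  have h2 : ∀ p ∈ Q, ((F p).card : ℝ) ≤ 32 * N ^ 2 * Y ^ 7 * ((p : ℝ) ^ 2)⁻¹ + 4 := by
    intro p hp
    rw [hQ, mem_filter, mem_Ioc] at hp
    obtain ⟨⟨hPp, _⟩, hpp, hpβ, hp2⟩ := hp
    have hbZ : ¬ (p : ℤ) ∣ (β : ℤ) := by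
      intro h
      apply hpβ
      exact_mod_cast h
    have hbZ' : ¬ (p : ℤ) ∣ (-(β : ℤ)) := by
      intro h
      exact hbZ ((dvd_neg).mp h)
    have hsplit := card_filter_add_card_filter_not (s := F p)
      (fun q => p ^ 2 ∣ q.1 ^ 2 + β * q.2 ^ 2)
    have c1 : ((F p).filter (fun q => p ^ 2 ∣ q.1 ^ 2 + β * q.2 ^ 2)).card ≤
        2 * (8 * N ^ 2 * Y ^ 7 / p ^ 2 + 1) := by
      apply sign_slopes N Y p (β : ℤ) hpp hp2 hbZ hY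
      · intro q hq
        simp only [hF, mem_filter] at hq
        obtain ⟨g1, g2, g3, g4, g5, g6, _⟩ := hL q hq.1.1
        exact ⟨g1, g2, g3, g4, g5⟩
      · intro q hq
        simp only [hF, mem_filter] at hq
        refine ⟨hq.1.2.1, ?_⟩
        exact_mod_cast hq.2
    have c2 : ((F p).filter (fun q => ¬ p ^ 2 ∣ q.1 ^ 2 + β * q.2 ^ 2)).card ≤
        2 * (8 * N ^ 2 * Y ^ 7 / p ^ 2 + 1) := by
      apply sign_slopes N Y p (-(β : ℤ)) hpp hp2 hbZ' hY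
      · intro q hq
        simp only [hF, mem_filter] at hq
        obtain ⟨g1, g2, g3, g4, g5, g6, _⟩ := hL q hq.1.1
        exact ⟨g1, g2, g3, g4, g5⟩
      · intro q hq
        simp only [hF, mem_filter] at hq
        refine ⟨hq.1.2.1, ?_⟩
        obtain ⟨g1, g2, g3, g4, g5, g6, _⟩ := hL q hq.1.1
        rcases hq.1.2.2 with h3 | h3
        · exact absurd h3 hq.2
        · have h4 : ((p ^ 2 : ℕ) : ℤ) ∣ ((q.1 ^ 2 - β * q.2 ^ 2 : ℕ) : ℤ) := by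
            exact_mod_cast h3
          rw [Nat.cast_sub g6.le] at h4
          push_cast at h4
          have e : (q.1 : ℤ) ^ 2 + -(β : ℤ) * (q.2 : ℤ) ^ 2 = (q.1 : ℤ) ^ 2 - β * (q.2 : ℤ) ^ 2 := by
            ring
          rw [e]
          exact h4
    have h3 : (F p).card ≤ 4 * (8 * N ^ 2 * Y ^ 7 / p ^ 2 + 1) := by omega
    calc ((F p).card : ℝ) ≤ ((4 * (8 * N ^ 2 * Y ^ 7 / p ^ 2 + 1) : ℕ) : ℝ) := by exact_mod_cast h3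
      _ = 4 * ((8 * N ^ 2 * Y ^ 7 / p ^ 2 : ℕ) : ℝ) + 4 := by push_cast; ring
      _ ≤ 4 * (((8 * N ^ 2 * Y ^ 7 : ℕ) : ℝ) / ((p ^ 2 : ℕ) : ℝ)) + 4 := by
        have := @Nat.cast_div_le ℝ _ _ _ (8 * N ^ 2 * Y ^ 7) (p ^ 2)
        linarith
      _ = 32 * N ^ 2 * Y ^ 7 * ((p : ℝ) ^ 2)⁻¹ + 4 := by
        push_cast
        rw [div_eq_mul_inv]
        ring
  have h3 : (Q.card : ℝ) ≤ 3 * (Y : ℝ) ^ 4 := by
    have : Q.card ≤ (Ioc P (3 * Y ^ 4)).card := card_le_card (filter_subset _ _)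
    rw [Nat.card_Ioc] at this
    have h4 : Q.card ≤ 3 * Y ^ 4 := by omega
    exact_mod_cast h4
  have h4 := sum_inv_sq P (3 * Y ^ 4) hP Q (by
    intro p hp
    rw [hQ, mem_filter, mem_Ioc] at hp
    exact hp.1)
  calc (L.card : ℝ) ≤ ∑ p ∈ Q, ((F p).card : ℝ) := h1
    _ ≤ ∑ p ∈ Q, (32 * N ^ 2 * Y ^ 7 * ((p : ℝ) ^ 2)⁻¹ + 4) := sum_le_sum h2
    _ = 32 * N ^ 2 * Y ^ 7 * ∑ p ∈ Q, ((p : ℝ) ^ 2)⁻¹ + Q.card * 4 := by
      rw [sum_add_distrib, ← mul_sum, sum_const, nsmul_eq_mul]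
    _ ≤ 32 * N ^ 2 * Y ^ 7 * (P : ℝ)⁻¹ + (3 * (Y : ℝ) ^ 4) * 4 := by
      have hT : (0 : ℝ) ≤ 32 * (N : ℝ) ^ 2 * (Y : ℝ) ^ 7 := by positivity
      have h6 := mul_le_mul_of_nonneg_left h4 hT
      linarith
    _ = 32 * N ^ 2 * Y ^ 7 / P + 12 * Y ^ 4 := by
      rw [div_eq_mul_inv]
      ring

end Pool.Agent.Run7.H246.CN
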