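import Mathlib
import Pool.Agent.Run7.h246.CN.Bad

set_option autoImplicit false

/-! # Small prime obstructions inside a window (helper246) -/

namespace Pool.Agent.Run7.H246.CN

open Finset

/-- a residue class in an interval -/
lemma card_class' (A N m a : ℕ) (hm : 0 < m) (S : Finset ℕ)
    (hS : ∀ i ∈ S, i < N ∧ A + i ≡ a [MOD m]) : S.card ≤ N / m + 1 := by
  classical
  rcases S.eq_empty_or_nonempty with he | ⟨i0, hi0⟩
  · rw [he]
    simp
  apply card_class N m i0 hm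
  intro i hi
  refine ⟨(hS i hi).1, ?_⟩
  exact Nat.ModEq.add_left_cancel' A ((hS i hi).2.trans (hS i0 hi0).2.symm)

lemma class_of_dvd' {p i i' W A : ℕ} {k : ℕ} (hp : p.Prime) (hpW : ¬ p ∣ W)
    (h : ((p : ℤ) ^ k) ∣ ((W : ℤ) * (A + i)) - (W * (A + i'))) : A + i ≡ A + i' [MOD p ^ k] := by
  have e : ((W : ℤ) * (A + i)) - (W * (A + i')) = W * (((A + i : ℕ) : ℤ) - ((A + i' : ℕ) : ℤ)) := by
    push_cast
    ring
  rw [e] at h
  have hc : IsCoprime ((p : ℤ) ^ k) (W : ℤ) := by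
    apply IsCoprime.pow_left
    rw [Int.isCoprime_iff_gcd_eq_one]
    have : Nat.Coprime p W := (hp.coprime_iff_not_dvd).mpr hpW
    simpa [Int.gcd] using this
  have h2 := hc.dvd_of_dvd_mul_left h
  have h3 : ((p ^ k : ℕ) : ℤ) ∣ ((A + i : ℕ) : ℤ) - ((A + i' : ℕ) : ℤ) := by exact_mod_cast h2
  exact ((Nat.modEq_iff_dvd).mpr h3).symm

/-- at most two classes of solutions of `d y ^ 2 ≡ -c` modulo `p ^ 2` -/
lemma card_sq' (A N p W : ℕ) (c d : ℤ) (hp : p.Prime) (hpW : ¬ p ∣ W) (h2 : ¬ p ∣ 2)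
    (hc : ¬ (p : ℤ) ∣ c) (hd : ¬ (p : ℤ) ∣ d) (S : Finset ℕ)
    (hS : ∀ i ∈ S, i < N ∧ (p : ℤ) ^ 2 ∣ d * ((W : ℤ) * (A + i)) ^ 2 + c) :
    S.card ≤ 2 * (N / p ^ 2 + 1) := by
  classical
  have hpZ : Prime (p : ℤ) := Nat.prime_iff_prime_int.mp hp
  have h2Z : ¬ (p : ℤ) ∣ 2 := by
    intro h
    apply h2
    exact_mod_cast h
  rcases S.eq_empty_or_nonempty with he | ⟨i0, hi0⟩
  · rw [he]
    simp
  have hdc : IsCoprime ((p : ℤ) ^ 2) d := IsCoprime.pow_left ((hpZ.coprime_iff_not_dvd).mpr hd)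
  have key : ∀ i ∈ S, ∀ i' ∈ S, ¬ A + i ≡ A + i' [MOD p ^ 2] →
      (p : ℤ) ^ 2 ∣ ((W : ℤ) * (A + i)) + ((W : ℤ) * (A + i')) := by
    intro i hi i' hi' hne
    obtain ⟨_, d1⟩ := hS i hi
    obtain ⟨_, d2⟩ := hS i' hi'
    have d3 : (p : ℤ) ^ 2 ∣ (((W : ℤ) * (A + i)) - ((W : ℤ) * (A + i'))) *
        (((W : ℤ) * (A + i)) + ((W : ℤ) * (A + i'))) := by
      have := dvd_sub d1 d2
      have e : d * ((W : ℤ) * (A + i)) ^ 2 + c - (d * ((W : ℤ) * (A + i')) ^ 2 + c) =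
        d * ((((W : ℤ) * (A + i)) - ((W : ℤ) * (A + i'))) *
          (((W : ℤ) * (A + i)) + ((W : ℤ) * (A + i')))) := by
        ring
      rw [e] at this
      exact hdc.dvd_of_dvd_mul_left this
    by_cases hq : (p : ℤ) ∣ ((W : ℤ) * (A + i)) + ((W : ℤ) * (A + i'))
    · have hq2 : ¬ (p : ℤ) ∣ ((W : ℤ) * (A + i)) - ((W : ℤ) * (A + i')) := by
        intro hq3
        have h4 : (p : ℤ) ∣ 2 * ((W : ℤ) * (A + i)) := by
          have := dvd_add hq hq3
          have e : ((W : ℤ) * (A + i)) + ((W : ℤ) * (A + i')) +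
            (((W : ℤ) * (A + i)) - ((W : ℤ) * (A + i'))) = 2 * ((W : ℤ) * (A + i)) := by ring
          rwa [e] at this
        have h5 : (p : ℤ) ∣ (W : ℤ) * (A + i) := by
          rcases hpZ.dvd_or_dvd h4 with h | h
          · exact absurd h h2Z
          · exact h
        apply hc
        have h6 : (p : ℤ) ∣ d * ((W : ℤ) * (A + i)) ^ 2 + c :=
          (dvd_pow_self _ (by norm_num)).trans d1
        exact (Int.dvd_add_right (Dvd.dvd.mul_left (Dvd.dvd.pow h5 (by norm_num)) d)).mp h6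
      have hcop : IsCoprime ((p : ℤ) ^ 2) (((W : ℤ) * (A + i)) - ((W : ℤ) * (A + i'))) := by
        apply IsCoprime.pow_left
        exact (hpZ.coprime_iff_not_dvd).mpr hq2
      exact hcop.dvd_of_dvd_mul_left d3
    · exfalso
      apply hne
      have hcop : IsCoprime ((p : ℤ) ^ 2) (((W : ℤ) * (A + i)) + ((W : ℤ) * (A + i'))) := by
        apply IsCoprime.pow_left
        exact (hpZ.coprime_iff_not_dvd).mpr hq
      exact class_of_dvd' hp hpW (hcop.dvd_of_dvd_mul_right d3)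
  have hp2 : 0 < p ^ 2 := pow_pos hp.pos 2
  have hsplit := card_filter_add_card_filter_not (s := S) (fun i => A + i ≡ A + i0 [MOD p ^ 2])
  have c1 : (S.filter (fun i => A + i ≡ A + i0 [MOD p ^ 2])).card ≤ N / p ^ 2 + 1 := by
    apply card_class' A N (p ^ 2) (A + i0) hp2
    intro i hi
    rw [mem_filter] at hi
    exact ⟨(hS i hi.1).1, hi.2⟩
  have c2 : (S.filter (fun i => ¬ A + i ≡ A + i0 [MOD p ^ 2])).card ≤ N / p ^ 2 + 1 := by
    rcases (S.filter (fun i => ¬ A + i ≡ A + i0 [MOD p ^ 2])).eq_empty_or_nonempty with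
      he | ⟨i1, hi1⟩
    · rw [he]
      simp
    · rw [mem_filter] at hi1
      apply card_class' A N (p ^ 2) (A + i1) hp2
      intro i hi
      rw [mem_filter] at hi
      refine ⟨(hS i hi.1).1, ?_⟩
      have e1 := key i hi.1 i0 hi0 hi.2
      have e2 := key i1 hi1.1 i0 hi0 hi1.2
      have e3 := dvd_sub e1 e2
      apply class_of_dvd' hp hpW
      have e : ((W : ℤ) * (A + i)) + ((W : ℤ) * (A + i0)) - (((W : ℤ) * (A + i1)) +
        ((W : ℤ) * (A + i0))) = ((W : ℤ) * (A + i)) - ((W : ℤ) * (A + i1)) := by ring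
      rwa [e] at e3
  omega

/-- both signs, `y` varies -/
lemma card_sq_two' (A N p W x β : ℕ) (hp : p.Prime) (hpW : ¬ p ∣ W) (h2 : ¬ p ∣ 2)
    (hβ : ¬ p ∣ β) (hx : ¬ p ∣ x) (S : Finset ℕ)
    (hS : ∀ i ∈ S, i < N ∧ β * (W * (A + i)) ^ 2 ≤ x ^ 2 ∧
      (p ^ 2 ∣ x ^ 2 + β * (W * (A + i)) ^ 2 ∨ p ^ 2 ∣ x ^ 2 - β * (W * (A + i)) ^ 2)) :
    S.card ≤ 4 * (N / p ^ 2 + 1) := by
  classical
  have hpZ : Prime (p : ℤ) := Nat.prime_iff_prime_int.mp hp
  have hxZ : ¬ (p : ℤ) ∣ ((x : ℤ) ^ 2) := by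
    intro h
    have := hpZ.dvd_of_dvd_pow h
    apply hx
    exact_mod_cast this
  have hbZ : ¬ (p : ℤ) ∣ (β : ℤ) := by
    intro h
    apply hβ
    exact_mod_cast h
  have hbZ' : ¬ (p : ℤ) ∣ (-(β : ℤ)) := by
    intro h
    exact hbZ ((dvd_neg).mp h)
  have hsplit := card_filter_add_card_filter_not (s := S)
    (fun i => p ^ 2 ∣ x ^ 2 + β * (W * (A + i)) ^ 2)
  have c1 : (S.filter (fun i => p ^ 2 ∣ x ^ 2 + β * (W * (A + i)) ^ 2)).card ≤
      2 * (N / p ^ 2 + 1) := by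
    apply card_sq' A N p W ((x : ℤ) ^ 2) (β : ℤ) hp hpW h2 hxZ hbZ
    intro i hi
    rw [mem_filter] at hi
    refine ⟨(hS i hi.1).1, ?_⟩
    have h3 : ((p ^ 2 : ℕ) : ℤ) ∣ ((x ^ 2 + β * (W * (A + i)) ^ 2 : ℕ) : ℤ) := by
      exact_mod_cast hi.2
    push_cast at h3
    rw [add_comm]
    exact h3
  have c2 : (S.filter (fun i => ¬ p ^ 2 ∣ x ^ 2 + β * (W * (A + i)) ^ 2)).card ≤
      2 * (N / p ^ 2 + 1) := by
    apply card_sq' A N p W ((x : ℤ) ^ 2) (-(β : ℤ)) hp hpW h2 hxZ hbZ'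
    intro i hi
    rw [mem_filter] at hi
    obtain ⟨h1, h2, h3⟩ := hS i hi.1
    refine ⟨h1, ?_⟩
    rcases h3 with h3 | h3
    · exact absurd h3 hi.2
    · have h4 : ((p ^ 2 : ℕ) : ℤ) ∣ ((x ^ 2 - β * (W * (A + i)) ^ 2 : ℕ) : ℤ) := by
        exact_mod_cast h3
      rw [Nat.cast_sub h2] at h4
      push_cast at h4
      have e : (-(β : ℤ)) * ((W : ℤ) * (A + i)) ^ 2 + (x : ℤ) ^ 2 =
        (x : ℤ) ^ 2 - (β : ℤ) * ((W : ℤ) * (A + i)) ^ 2 := by ring
      rw [e]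
      exact h4
  omega

/-- small obstruction for a pair -/
def SBad (β W P x y : ℕ) : Prop :=
  (∃ p : ℕ, p.Prime ∧ ¬ p ∣ W ∧ p ∣ x ∧ p ∣ y) ∨
    ∃ p : ℕ, p.Prime ∧ ¬ p ∣ W ∧ p ≤ P ∧ ¬ p ∣ y ∧
      (p ^ 2 ∣ x ^ 2 + β * y ^ 2 ∨ p ^ 2 ∣ x ^ 2 - β * y ^ 2)

/-- for one `x` -/
lemma small_one (β W P w A T x : ℕ) (hw : 0 < w) (hx : 0 < x) (h2W : 2 ∣ W) (hβW : β ∣ W)
    (hpw : ∀ p : ℕ, p.Prime → p ≤ w → p ∣ W) (S : Finset ℕ)
    (hS : ∀ m ∈ S, m < T ∧ β * (W * (A + m)) ^ 2 ≤ x ^ 2 ∧ SBad β W P x (W * (A + m))) :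
    (S.card : ℝ) ≤ ∑ p ∈ x.primeFactors.filter (fun p => w < p), ((T : ℝ) / p + 1) +
      (4 * T / w + 4 * P) := by
  classical
  set Q1 := x.primeFactors.filter (fun p => w < p) with hQ1
  set Q2 := (Ioc w P).filter (fun p => p.Prime ∧ ¬ p ∣ W ∧ ¬ p ∣ x) with hQ2
  set F1 : ℕ → Finset ℕ := fun p => if p ∣ W then ∅ else (range T).filter (fun m => p ∣ A + m)
    with hF1
  set F2 : ℕ → Finset ℕ := fun p => (range T).filter (fun m => β * (W * (A + m)) ^ 2 ≤ x ^ 2 ∧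
    (p ^ 2 ∣ x ^ 2 + β * (W * (A + m)) ^ 2 ∨ p ^ 2 ∣ x ^ 2 - β * (W * (A + m)) ^ 2)) with hF2
  have hsub : S ⊆ Q1.biUnion F1 ∪ Q2.biUnion F2 := by
    intro m hm
    obtain ⟨h1, h4, h3⟩ := hS m hm
    rw [mem_union]
    rcases h3 with h3 | h3
    · left
      obtain ⟨p, hp, hpW, hpx, hpy⟩ := h3
      rw [mem_biUnion]
      refine ⟨p, ?_, ?_⟩
      · rw [hQ1, mem_filter]
        refine ⟨Nat.mem_primeFactors.mpr ⟨hp, hpx, by omega⟩, ?_⟩
        by_contra hcon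
        push Not at hcon
        exact hpW (hpw p hp hcon)
      · simp only [hF1]
        rw [if_neg hpW, mem_filter, mem_range]
        refine ⟨h1, ?_⟩
        rcases (hp.dvd_mul).mp hpy with h | h
        · exact absurd h hpW
        · exact h
    · right
      obtain ⟨p, hp, hpW, hpP, hpy, hd⟩ := h3
      rw [mem_biUnion]
      refine ⟨p, ?_, ?_⟩
      · rw [hQ2, mem_filter, mem_Ioc]
        refine ⟨⟨?_, hpP⟩, hp, hpW, ?_⟩
        · by_contra hcon
          push Not at hcon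
          exact hpW (hpw p hp hcon)
        · intro hpx
          apply hpy
          have hpx2 : p ∣ x ^ 2 := Dvd.dvd.pow hpx (by norm_num)
          have h5 : p ∣ β * (W * (A + m)) ^ 2 := by
            rcases hd with hd | hd
            · exact (Nat.dvd_add_right hpx2).mp ((dvd_pow_self p (by norm_num)).trans hd)
            · have h6 : p ∣ x ^ 2 - β * (W * (A + m)) ^ 2 :=
                (dvd_pow_self p (by norm_num)).trans hd
              have e : β * (W * (A + m)) ^ 2 = x ^ 2 - (x ^ 2 - β * (W * (A + m)) ^ 2) := by omega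
              rw [e]
              exact Nat.dvd_sub hpx2 h6
          rcases (hp.dvd_mul).mp h5 with h | h
          · exact absurd (h.trans hβW) hpW
          · exact hp.dvd_of_dvd_pow h
      · rw [hF2]
        simp only [mem_filter, mem_range]
        exact ⟨h1, h4, hd⟩
  have hcard := card_le_card hsub
  have hu := card_union_le (Q1.biUnion F1) (Q2.biUnion F2)
  have c1 : ((Q1.biUnion F1).card : ℝ) ≤ ∑ p ∈ Q1, ((T : ℝ) / p + 1) := by
    have h1 : ((Q1.biUnion F1).card : ℝ) ≤ ∑ p ∈ Q1, ((F1 p).card : ℝ) := by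
      exact_mod_cast card_biUnion_le
    refine h1.trans (sum_le_sum ?_)
    intro p hp
    rw [hQ1, mem_filter] at hp
    have hpp : p.Prime := Nat.prime_of_mem_primeFactors hp.1
    simp only [hF1]
    split_ifs with hpW
    · simp only [card_empty, Nat.cast_zero]
      positivity
    · have h3 := card_class' A T p 0 hpp.pos ((range T).filter (fun m => p ∣ A + m)) (by
        intro i hi
        rw [mem_filter, mem_range] at hi
        exact ⟨hi.1, (Nat.modEq_zero_iff_dvd).mpr hi.2⟩)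
      calc (((range T).filter (fun m => p ∣ A + m)).card : ℝ) ≤ ((T / p + 1 : ℕ) : ℝ) := by
            exact_mod_cast h3
        _ = ((T / p : ℕ) : ℝ) + 1 := by push_cast; ring
        _ ≤ T / p + 1 := by
          have := @Nat.cast_div_le ℝ _ _ _ T p
          linarith
  have c2 : ((Q2.biUnion F2).card : ℝ) ≤ 4 * T / w + 4 * P := by
    have h1 : ((Q2.biUnion F2).card : ℝ) ≤ ∑ p ∈ Q2, ((F2 p).card : ℝ) := by
      exact_mod_cast card_biUnion_le
    have h2 : ∀ p ∈ Q2, ((F2 p).card : ℝ) ≤ 4 * T * ((p : ℝ) ^ 2)⁻¹ + 4 := by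
      intro p hp
      rw [hQ2, mem_filter, mem_Ioc] at hp
      obtain ⟨⟨hpw1, hpP⟩, hpp, hpW, hpx⟩ := hp
      have h5 := card_sq_two' A T p W x β hpp hpW (fun h => hpW (h.trans h2W))
        (fun h => hpW (h.trans hβW)) hpx (F2 p) (by
          intro i hi
          simp only [hF2, mem_filter, mem_range] at hi
          exact hi)
      calc ((F2 p).card : ℝ) ≤ ((4 * (T / p ^ 2 + 1) : ℕ) : ℝ) := by exact_mod_cast h5
        _ = 4 * ((T / p ^ 2 : ℕ) : ℝ) + 4 := by push_cast; ring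
        _ ≤ 4 * ((T : ℝ) / ((p ^ 2 : ℕ) : ℝ)) + 4 := by
          have := @Nat.cast_div_le ℝ _ _ _ T (p ^ 2)
          linarith
        _ = 4 * T * ((p : ℝ) ^ 2)⁻¹ + 4 := by
          push_cast
          rw [div_eq_mul_inv]
          ring
    have h3 : (Q2.card : ℝ) ≤ P := by
      have : Q2.card ≤ (Ioc w P).card := card_le_card (filter_subset _ _)
      rw [Nat.card_Ioc] at this
      have h4 : Q2.card ≤ P := by omega
      exact_mod_cast h4
    have h4 := sum_inv_sq w P hw Q2 (by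
      intro p hp
      rw [hQ2, mem_filter, mem_Ioc] at hp
      exact hp.1)
    calc ((Q2.biUnion F2).card : ℝ) ≤ ∑ p ∈ Q2, ((F2 p).card : ℝ) := h1
      _ ≤ ∑ p ∈ Q2, (4 * T * ((p : ℝ) ^ 2)⁻¹ + 4) := sum_le_sum h2
      _ = 4 * T * ∑ p ∈ Q2, ((p : ℝ) ^ 2)⁻¹ + Q2.card * 4 := by
        rw [sum_add_distrib, ← mul_sum, sum_const, nsmul_eq_mul]
      _ ≤ 4 * T * (w : ℝ)⁻¹ + P * 4 := by
        have hT : (0 : ℝ) ≤ 4 * (T : ℝ) := by positivity
        have h6 := mul_le_mul_of_nonneg_left h4 hT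
        linarith
      _ = 4 * T / w + 4 * P := by
        rw [div_eq_mul_inv]
        ring
  have hcR : (S.card : ℝ) ≤ ((Q1.biUnion F1).card : ℝ) + (Q2.biUnion F2).card := by
    have : S.card ≤ (Q1.biUnion F1).card + (Q2.biUnion F2).card := by omega
    exact_mod_cast this
  linarith

end Pool.Agent.Run7.H246.CN
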