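import Mathlib
import Pool.Agent.Run7.h246.CN.Small

set_option autoImplicit false

/-! # Small prime obstructions in a whole window (helper246) -/

namespace Pool.Agent.Run7.H246.CN

open Finset

/-- a number below `N ^ (c + 1)` has at most `c` prime factors above `N` -/
lemma primes_gt (x N c : ℕ) (hx : 0 < x) (hN : 1 < N) (h : x < N ^ (c + 1)) :
    (x.primeFactors.filter (fun p => N < p)).card ≤ c := by
  have h1 : N ^ (x.primeFactors.filter (fun p => N < p)).card ≤
      ∏ p ∈ x.primeFactors.filter (fun p => N < p), p := by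
    apply Finset.pow_card_le_prod
    intro p hp
    rw [mem_filter] at hp
    exact hp.2.le
  have h2 : ∏ p ∈ x.primeFactors.filter (fun p => N < p), p ∣ x :=
    (Finset.prod_dvd_prod_of_subset _ _ _ (filter_subset _ _)).trans (Nat.prod_primeFactors_dvd x)
  have h3 := Nat.le_of_dvd hx h2
  have h4 : N ^ (x.primeFactors.filter (fun p => N < p)).card < N ^ (c + 1) := by omega
  have h5 := (Nat.pow_lt_pow_iff_right hN).mp h4
  omega

lemma card_lin' (A N p W : ℕ) (hp : p.Prime) (hpW : ¬ p ∣ W) (S : Finset ℕ)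
    (hS : ∀ i ∈ S, i < N ∧ p ∣ 1 + W * (A + i)) : S.card ≤ N / p + 1 := by
  rcases S.eq_empty_or_nonempty with he | ⟨i0, hi0⟩
  · rw [he]
    simp
  apply card_class' A N p (A + i0) hp.pos
  intro i hi
  refine ⟨(hS i hi).1, ?_⟩
  have h1 : (p : ℤ) ∣ 1 + (W : ℤ) * (A + i) := by exact_mod_cast (hS i hi).2
  have h2 : (p : ℤ) ∣ 1 + (W : ℤ) * (A + i0) := by exact_mod_cast (hS i0 hi0).2
  have h3 := dvd_sub h1 h2
  have e : 1 + (W : ℤ) * (A + i) - (1 + (W : ℤ) * (A + i0)) =
    (W : ℤ) * (A + i) - (W : ℤ) * (A + i0) := by ring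
  rw [e] at h3
  have h4 := class_of_dvd' (k := 1) hp hpW (by rwa [pow_one])
  rwa [pow_one] at h4

/-- sum over the window of the common divisors -/
lemma sum_common (W w N T c i0 : ℕ) (hw : 0 < w) (hN : 1 < N) (hNT : N ≤ T)
    (hx : ∀ l < N, 1 + W * (i0 + l) < N ^ (c + 1)) :
    ∑ l ∈ range N, ∑ p ∈ (1 + W * (i0 + l)).primeFactors.filter (fun p => w < p),
      ((T : ℝ) / p + 1) ≤ 4 * N * T / w + c * (T + N) := by
  classical
  have hNR : (0 : ℝ) < N := by
    have : 0 < N := by omega
    exact_mod_cast this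
  have hTR : (N : ℝ) ≤ T := by exact_mod_cast hNT
  have hT0 : (0 : ℝ) < T := by linarith
  -- split
  have hsplit : ∀ l ∈ range N,
      ∑ p ∈ (1 + W * (i0 + l)).primeFactors.filter (fun p => w < p), ((T : ℝ) / p + 1) ≤
      ∑ p ∈ (Ioc w N).filter (fun p => p.Prime ∧ p ∣ 1 + W * (i0 + l)), ((T : ℝ) / p + 1) +
        c * ((T : ℝ) / N + 1) := by
    intro l hl
    rw [mem_range] at hl
    set x := 1 + W * (i0 + l) with hxd
    have hx0 : 0 < x := by omega
    have h1 : x.primeFactors.filter (fun p => w < p) ⊆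
        (Ioc w N).filter (fun p => p.Prime ∧ p ∣ x) ∪ x.primeFactors.filter (fun p => N < p) := by
      intro p hp
      rw [mem_filter] at hp
      rw [mem_union]
      by_cases hpN : p ≤ N
      · left
        rw [mem_filter, mem_Ioc]
        exact ⟨⟨hp.2, hpN⟩, Nat.prime_of_mem_primeFactors hp.1, Nat.dvd_of_mem_primeFactors hp.1⟩
      · right
        rw [mem_filter]
        exact ⟨hp.1, by omega⟩
    have h2 : ∑ p ∈ x.primeFactors.filter (fun p => w < p), ((T : ℝ) / p + 1) ≤
        ∑ p ∈ (Ioc w N).filter (fun p => p.Prime ∧ p ∣ x) ∪ x.primeFactors.filter (fun p => N < p),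
          ((T : ℝ) / p + 1) := sum_le_sum_of_subset_of_nonneg h1 (fun _ _ _ => by positivity)
    have h3 : ∑ p ∈ (Ioc w N).filter (fun p => p.Prime ∧ p ∣ x) ∪
        x.primeFactors.filter (fun p => N < p), ((T : ℝ) / p + 1) ≤
        ∑ p ∈ (Ioc w N).filter (fun p => p.Prime ∧ p ∣ x), ((T : ℝ) / p + 1) +
        ∑ p ∈ x.primeFactors.filter (fun p => N < p), ((T : ℝ) / p + 1) := by
      have h4 := sum_union_inter (s₁ := (Ioc w N).filter (fun p => p.Prime ∧ p ∣ x))
        (s₂ := x.primeFactors.filter (fun p => N < p)) (f := fun p : ℕ => (T : ℝ) / p + 1)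
      have h5 : (0 : ℝ) ≤ ∑ p ∈ (Ioc w N).filter (fun p => p.Prime ∧ p ∣ x) ∩
        x.primeFactors.filter (fun p => N < p), ((T : ℝ) / p + 1) :=
        sum_nonneg (fun _ _ => by positivity)
      linarith
    have h6 : ∑ p ∈ x.primeFactors.filter (fun p => N < p), ((T : ℝ) / p + 1) ≤
        c * ((T : ℝ) / N + 1) := by
      have h7 : ∀ p ∈ x.primeFactors.filter (fun p => N < p), ((T : ℝ) / p + 1) ≤
          (T : ℝ) / N + 1 := by
        intro p hp
        rw [mem_filter] at hp
        have : (N : ℝ) ≤ p := by exact_mod_cast hp.2.le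
        have := div_le_div_of_nonneg_left hT0.le hNR this
        linarith
      have h8 := sum_le_card_nsmul _ _ _ h7
      rw [nsmul_eq_mul] at h8
      have h9 : ((x.primeFactors.filter (fun p => N < p)).card : ℝ) ≤ c := by
        exact_mod_cast primes_gt x N c hx0 hN (hx l hl)
      have h10 : (0 : ℝ) ≤ (T : ℝ) / N + 1 := by positivity
      exact h8.trans (mul_le_mul_of_nonneg_right h9 h10)
    linarith
  refine (sum_le_sum hsplit).trans ?_
  rw [sum_add_distrib, sum_const, card_range, nsmul_eq_mul]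
  have e1 : (N : ℝ) * (c * ((T : ℝ) / N + 1)) = c * (T + N) := by
    field_simp
  rw [e1]
  have e2 : ∑ l ∈ range N, ∑ p ∈ (Ioc w N).filter (fun p => p.Prime ∧ p ∣ 1 + W * (i0 + l)),
      ((T : ℝ) / p + 1) = ∑ p ∈ Ioc w N, ∑ l ∈ range N,
        if p.Prime ∧ p ∣ 1 + W * (i0 + l) then ((T : ℝ) / p + 1) else 0 := by
    rw [sum_comm]
    apply sum_congr rfl
    intro l _
    rw [sum_filter]
  rw [e2]
  have h3 : ∀ p ∈ Ioc w N, (∑ l ∈ range N,
      if p.Prime ∧ p ∣ 1 + W * (i0 + l) then ((T : ℝ) / p + 1) else 0) ≤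
      4 * N * T * ((p : ℝ) ^ 2)⁻¹ := by
    intro p hp
    rw [mem_Ioc] at hp
    have hp0 : 0 < p := by omega
    have hpR : (0 : ℝ) < p := by exact_mod_cast hp0
    have hpN : (p : ℝ) ≤ N := by exact_mod_cast hp.2
    rw [← sum_filter, sum_const, nsmul_eq_mul]
    by_cases hpp : p.Prime
    · by_cases hpW : p ∣ W
      · have he : (range N).filter (fun l => p.Prime ∧ p ∣ 1 + W * (i0 + l)) = ∅ := by
          rw [Finset.filter_eq_empty_iff]
          intro l _ h
          have h5 : p ∣ W * (i0 + l) := Dvd.dvd.mul_right hpW _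
          have h6 : p ∣ 1 := (Nat.dvd_add_left h5).mp h.2
          exact hpp.one_lt.ne' (Nat.dvd_one.mp h6)
        rw [he]
        simp only [card_empty, Nat.cast_zero, zero_mul]
        positivity
      · have h5 := card_lin' i0 N p W hpp hpW
          ((range N).filter (fun l => p.Prime ∧ p ∣ 1 + W * (i0 + l))) (by
          intro i hi
          rw [mem_filter, mem_range] at hi
          exact ⟨hi.1, hi.2.2⟩)
        have h6 : (((range N).filter (fun l => p.Prime ∧ p ∣ 1 + W * (i0 + l))).card : ℝ) ≤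
            2 * N / p := by
          calc (((range N).filter (fun l => p.Prime ∧ p ∣ 1 + W * (i0 + l))).card : ℝ)
              ≤ ((N / p + 1 : ℕ) : ℝ) := by exact_mod_cast h5
            _ = ((N / p : ℕ) : ℝ) + 1 := by push_cast; ring
            _ ≤ N / p + 1 := by
              have := @Nat.cast_div_le ℝ _ _ _ N p
              linarith
            _ ≤ N / p + N / p := by
              have : 1 ≤ (N : ℝ) / p := by
                rw [le_div_iff₀ hpR]
                linarith
              linarith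
            _ = 2 * N / p := by ring
        have h7 : (T : ℝ) / p + 1 ≤ 2 * T / p := by
          have : 1 ≤ (T : ℝ) / p := by
            rw [le_div_iff₀ hpR]
            linarith
          have e : 2 * (T : ℝ) / p = T / p + T / p := by ring
          rw [e]
          linarith
        calc _ ≤ (2 * (N : ℝ) / p) * (2 * (T : ℝ) / p) :=
              mul_le_mul h6 h7 (by positivity) (by positivity)
          _ = 4 * N * T * ((p : ℝ) ^ 2)⁻¹ := by
              field_simp
              ring
    · have he : (range N).filter (fun l => p.Prime ∧ p ∣ 1 + W * (i0 + l)) = ∅ := by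
        rw [Finset.filter_eq_empty_iff]
        intro l _ h
        exact hpp h.1
      rw [he]
      simp only [card_empty, Nat.cast_zero, zero_mul]
      positivity
  have h4 := sum_le_sum h3
  rw [← mul_sum] at h4
  have h5 := sum_inv_sq w N hw (Ioc w N) (by
    intro p hp
    rwa [mem_Ioc] at hp)
  have h6 : (0 : ℝ) ≤ 4 * N * T := by positivity
  have h7 := mul_le_mul_of_nonneg_left h5 h6
  have e3 : 4 * (N : ℝ) * T / w = 4 * N * T * (w : ℝ)⁻¹ := by rw [div_eq_mul_inv]
  rw [e3]
  linarith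

/-- the small obstructions in the window -/
theorem small_all (β W P w N T c i0 : ℕ) (j0 : ℕ → ℕ) (hw : 0 < w) (hN : 1 < N) (hNT : N ≤ T)
    (h2W : 2 ∣ W) (hβW : β ∣ W) (hpw : ∀ p : ℕ, p.Prime → p ≤ w → p ∣ W)
    (hx : ∀ l < N, 1 + W * (i0 + l) < N ^ (c + 1)) (G : Finset (ℕ × ℕ))
    (hG : ∀ q ∈ G, q.1 < N ∧ q.2 < T ∧
      β * (W * (j0 q.1 + q.2)) ^ 2 ≤ (1 + W * (i0 + q.1)) ^ 2 ∧
      SBad β W P (1 + W * (i0 + q.1)) (W * (j0 q.1 + q.2))) :
    (G.card : ℝ) ≤ 8 * N * T / w + c * (T + N) + 4 * N * P := by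
  classical
  have h1 : G.card = ∑ l ∈ range N, (G.filter (fun q => q.1 = l)).card := by
    apply card_eq_sum_card_fiberwise
    intro q hq
    rw [coe_range, Set.mem_Iio]
    exact (hG q hq).1
  have h2 : ∀ l ∈ range N, ((G.filter (fun q => q.1 = l)).card : ℝ) ≤
      ∑ p ∈ (1 + W * (i0 + l)).primeFactors.filter (fun p => w < p), ((T : ℝ) / p + 1) +
      (4 * T / w + 4 * P) := by
    intro l _
    have h3 : (G.filter (fun q => q.1 = l)).card =
        ((G.filter (fun q => q.1 = l)).image Prod.snd).card := by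
      rw [card_image_of_injOn]
      intro a ha b hb hab
      rw [coe_filter] at ha hb
      exact Prod.ext (ha.2.trans hb.2.symm) hab
    rw [h3]
    apply small_one β W P w (j0 l) T (1 + W * (i0 + l)) hw (by omega) h2W hβW hpw
    intro m hm
    rw [mem_image] at hm
    obtain ⟨q, hq, rfl⟩ := hm
    rw [mem_filter] at hq
    obtain ⟨hqG, rfl⟩ := hq
    obtain ⟨g1, g2, g3, g4⟩ := hG q hqG
    exact ⟨g2, g3, g4⟩
  have h4 : (G.card : ℝ) = ∑ l ∈ range N, ((G.filter (fun q => q.1 = l)).card : ℝ) := by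
    rw [h1]
    push_cast
    rfl
  rw [h4]
  refine (sum_le_sum h2).trans ?_
  rw [sum_add_distrib, sum_const, card_range, nsmul_eq_mul]
  have h5 := sum_common W w N T c i0 hw hN hNT hx
  have e : (8 : ℝ) * N * T / w = 4 * N * T / w + N * (4 * T / w) := by ring
  rw [e]
  linarith

end Pool.Agent.Run7.H246.CN
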