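import Mathlib

set_option autoImplicit false

/-! # The greedy choice of `x` and `y` (helper246) -/

namespace Pool.Agent.Run7.H246.CN

lemma four_diff (u W : ℕ) : (u + W) ^ 4 ≤ u ^ 4 + 4 * W * (u + W) ^ 3 := by
  have e : u ^ 4 + 4 * W * (u + W) ^ 3 = (u + W) ^ 4 +
      (W ^ 2 * (6 * u ^ 2 + 8 * u * W + 3 * W ^ 2)) := by ring
  rw [e]
  exact Nat.le_add_right _ _

/-- greedy choice -/
lemma greedy (β U W Y t : ℕ) (hβ : 0 < β) (hU : 0 < U) (hW : W = 8 * U ^ 4)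
    (hY4 : W ≤ Y ^ 4) (hY3 : W ≤ U * Y ^ 3) (ht : t ≤ Y ^ 16) :
    ∃ i < 2 * Y ^ 4 / W + 1, ∃ j < 4 * U * Y ^ 3 / W + 1, ∃ r < 500 * β ^ 3 * W * U ^ 3 * Y ^ 9,
      β * (1 + W * i) ^ 4 = (t + r) + β ^ 3 * (W * j) ^ 4 ∧ 1 + W * i ≤ 2 * Y ^ 4 := by
  classical
  have hW0 : 0 < W := by rw [hW]; positivity
  have hY0 : 0 < Y := by
    rcases Nat.eq_zero_or_pos Y with h | h
    · rw [h] at hY4
      omega
    · exact h
  have hex : ∃ i, t ≤ β * (1 + W * i) ^ 4 := by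
    refine ⟨t, ?_⟩
    calc t ≤ 1 + W * t := by nlinarith
      _ ≤ (1 + W * t) ^ 4 := Nat.le_self_pow (by norm_num) _
      _ ≤ β * (1 + W * t) ^ 4 := Nat.le_mul_of_pos_left _ hβ
  set i := Nat.find hex with hi
  have hi1 : t ≤ β * (1 + W * i) ^ 4 := Nat.find_spec hex
  obtain ⟨D, hD⟩ : ∃ D, β * (1 + W * i) ^ 4 = t + D := ⟨_, (Nat.add_sub_of_le hi1).symm⟩
  -- bounds for x and D
  have hxD : 1 + W * i ≤ 2 * Y ^ 4 ∧ D ≤ 4 * β * W * (1 + W * i) ^ 3 := by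
    rcases Nat.eq_zero_or_pos i with h0 | h0
    · rw [h0] at hD ⊢
      have hY1 : 1 ≤ Y ^ 4 := Nat.one_le_pow _ _ hY0
      refine ⟨by omega, ?_⟩
      have : D ≤ β := by
        have e : β * (1 + W * 0) ^ 4 = β := by ring
        omega
      nlinarith [Nat.mul_le_mul hβ hW0]
    · obtain ⟨s, hs⟩ : ∃ s, i = s + 1 := ⟨i - 1, by omega⟩
      have hlt : β * (1 + W * s) ^ 4 < t := by
        have := Nat.find_min hex (m := s) (by omega)
        omega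
      have hu : 1 + W * s < Y ^ 4 := by
        by_contra hcon
        push Not at hcon
        have h1 : (Y ^ 4) ^ 4 ≤ (1 + W * s) ^ 4 := Nat.pow_le_pow_left hcon 4
        have h2 : (1 + W * s) ^ 4 ≤ β * (1 + W * s) ^ 4 := Nat.le_mul_of_pos_left _ hβ
        have h3 : (Y ^ 4) ^ 4 = Y ^ 16 := by ring
        omega
      have ex : 1 + W * i = (1 + W * s) + W := by rw [hs]; ring
      refine ⟨by omega, ?_⟩
      have h4 := four_diff (1 + W * s) W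
      rw [← ex] at h4
      have h5 : β * (1 + W * i) ^ 4 ≤ β * (1 + W * s) ^ 4 + β * (4 * W * (1 + W * i) ^ 3) := by
        rw [← Nat.mul_add]
        exact Nat.mul_le_mul_left β h4
      have h6 : β * (4 * W * (1 + W * i) ^ 3) = 4 * β * W * (1 + W * i) ^ 3 := by ring
      omega
  obtain ⟨hx, hD1⟩ := hxD
  have hex2 : ∃ j, D < β ^ 3 * (W * j) ^ 4 := by
    refine ⟨D + 1, ?_⟩
    calc D < W * (D + 1) := by nlinarith
      _ ≤ (W * (D + 1)) ^ 4 := Nat.le_self_pow (by norm_num) _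
      _ ≤ β ^ 3 * (W * (D + 1)) ^ 4 := Nat.le_mul_of_pos_left _ (by positivity)
  set j' := Nat.find hex2 with hj'
  have hj1 : D < β ^ 3 * (W * j') ^ 4 := Nat.find_spec hex2
  obtain ⟨j, hj⟩ : ∃ j, j' = j + 1 := by
    refine ⟨j' - 1, ?_⟩
    rcases Nat.eq_zero_or_pos j' with h | h
    · rw [h] at hj1
      simp at hj1
    · omega
  have hj2 : β ^ 3 * (W * j) ^ 4 ≤ D := by
    have := Nat.find_min hex2 (m := j) (by omega)
    omega
  obtain ⟨r, hr⟩ : ∃ r, D = β ^ 3 * (W * j) ^ 4 + r := ⟨_, (Nat.add_sub_of_le hj2).symm⟩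
  have hx3 : (1 + W * i) ^ 3 ≤ 8 * Y ^ 12 := by
    calc (1 + W * i) ^ 3 ≤ (2 * Y ^ 4) ^ 3 := Nat.pow_le_pow_left hx 3
      _ = 8 * Y ^ 12 := by ring
  have hy : W * j ≤ 4 * U * Y ^ 3 := by
    have h1 : β * (W * j) ^ 4 ≤ β * (4 * U * Y ^ 3) ^ 4 := by
      calc β * (W * j) ^ 4 ≤ β ^ 3 * (W * j) ^ 4 :=
            Nat.mul_le_mul_right _ (Nat.le_self_pow (by norm_num) β)
        _ ≤ D := hj2
        _ ≤ 4 * β * W * (1 + W * i) ^ 3 := hD1
        _ ≤ 4 * β * W * (8 * Y ^ 12) := Nat.mul_le_mul_left _ hx3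
        _ = β * (4 * U * Y ^ 3) ^ 4 := by rw [hW]; ring
    have h2 : (W * j) ^ 4 ≤ (4 * U * Y ^ 3) ^ 4 := Nat.le_of_mul_le_mul_left h1 hβ
    exact (Nat.pow_le_pow_iff_left (by norm_num)).mp h2
  refine ⟨i, ?_, j, ?_, r, ?_, ?_, hx⟩
  · apply Nat.lt_succ_of_le
    rw [Nat.le_div_iff_mul_le hW0]
    nlinarith
  · apply Nat.lt_succ_of_le
    rw [Nat.le_div_iff_mul_le hW0]
    nlinarith
  · have h4 := four_diff (W * j) W
    have ey : W * j' = W * j + W := by rw [hj]; ring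
    rw [ey] at hj1
    have h5 : β ^ 3 * (W * j + W) ^ 4 ≤ β ^ 3 * (W * j) ^ 4 +
        β ^ 3 * (4 * W * (W * j + W) ^ 3) := by
      rw [← Nat.mul_add]
      exact Nat.mul_le_mul_left _ h4
    have h6 : (W * j + W) ^ 3 ≤ (5 * U * Y ^ 3) ^ 3 := by
      apply Nat.pow_le_pow_left
      nlinarith
    have h7 : β ^ 3 * (4 * W * (W * j + W) ^ 3) ≤ 500 * β ^ 3 * W * U ^ 3 * Y ^ 9 := by
      calc β ^ 3 * (4 * W * (W * j + W) ^ 3) ≤ β ^ 3 * (4 * W * (5 * U * Y ^ 3) ^ 3) :=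
            Nat.mul_le_mul_left _ (Nat.mul_le_mul_left _ h6)
        _ = _ := by ring
    omega
  · rw [hD, hr]
    ring

end Pool.Agent.Run7.H246.CN
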