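import Mathlib
import Pool.Agent.Run7.h246.CN.Greedy

set_option autoImplicit false

/-! # Windows of pairs `(x, y)` for a given `t` (helper246) -/

namespace Pool.Agent.Run7.H246.CN

/-- windows -/
theorem window (β W N Y T t : ℕ) (hβ : 0 < β) (hW : 0 < W) (hN : 32 * β * W ≤ N)
    (hY4 : W * N ≤ Y ^ 4) (hT : W * (T + 1) ≤ N * Y ^ 3) (ht : t ≤ Y ^ 16) :
    ∃ i0 : ℕ, ∀ l < N, ∃ j0 : ℕ, 1 ≤ j0 ∧ t ≤ β * (1 + W * (i0 + l)) ^ 4 ∧
      1 + W * (i0 + l) ≤ 2 * Y ^ 4 ∧ ∀ m < T, W * (j0 + m) ≤ 2 * N * Y ^ 3 ∧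
      β * (1 + W * (i0 + l)) ^ 4 ≤ t + β ^ 3 * (W * (j0 + m)) ^ 4 ∧
      t + β ^ 3 * (W * (j0 + m)) ^ 4 ≤ β * (1 + W * (i0 + l)) ^ 4 +
        4 * β ^ 3 * (W * (T + 1)) * (2 * N * Y ^ 3) ^ 3 := by
  classical
  have hN0 : 0 < N := lt_of_lt_of_le (by positivity) hN
  have hY0 : 0 < Y := by
    rcases Nat.eq_zero_or_pos Y with h | h
    · rw [h] at hY4
      have : 0 < W * N := Nat.mul_pos hW hN0
      omega
    · exact h
  have hex : ∃ i, t ≤ β * (1 + W * i) ^ 4 := by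
    refine ⟨t, ?_⟩
    calc t ≤ 1 + W * t := by nlinarith
      _ ≤ (1 + W * t) ^ 4 := Nat.le_self_pow (by norm_num) _
      _ ≤ β * (1 + W * t) ^ 4 := Nat.le_mul_of_pos_left _ hβ
  set i0 := Nat.find hex with hi0
  have hi1 : t ≤ β * (1 + W * i0) ^ 4 := Nat.find_spec hex
  refine ⟨i0, ?_⟩
  intro l hl
  have hi2 : t ≤ β * (1 + W * (i0 + l)) ^ 4 := by
    refine hi1.trans (Nat.mul_le_mul_left β (Nat.pow_le_pow_left ?_ 4))
    have : W * i0 ≤ W * (i0 + l) := Nat.mul_le_mul_left W (Nat.le_add_right _ _)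
    omega
  obtain ⟨D, hD⟩ : ∃ D, β * (1 + W * (i0 + l)) ^ 4 = t + D :=
    ⟨_, (Nat.add_sub_of_le hi2).symm⟩
  -- bounds for x and D
  have hWl : W * (l + 1) ≤ W * N := Nat.mul_le_mul_left W hl
  have hxD : 1 + W * (i0 + l) ≤ 2 * Y ^ 4 ∧ D ≤ 4 * β * (W * N) * (1 + W * (i0 + l)) ^ 3 := by
    rcases Nat.eq_zero_or_pos i0 with h0 | h0
    · have e0 : 1 + W * (i0 + l) = 1 + W * l := by rw [h0, Nat.zero_add]
      have e1 : W * (l + 1) = W * l + W := by ring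
      have e2 : 1 + W * (i0 + l) ≤ W * N := by omega
      refine ⟨by omega, ?_⟩
      calc D ≤ β * (1 + W * (i0 + l)) ^ 4 := by omega
        _ = β * (1 + W * (i0 + l)) * (1 + W * (i0 + l)) ^ 3 := by ring
        _ ≤ 4 * β * (W * N) * (1 + W * (i0 + l)) ^ 3 := by
          apply Nat.mul_le_mul_right
          calc β * (1 + W * (i0 + l)) ≤ β * (W * N) := Nat.mul_le_mul_left β e2
            _ ≤ 4 * β * (W * N) := Nat.mul_le_mul_right _ (by omega)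
    · obtain ⟨s, hs⟩ : ∃ s, i0 = s + 1 := ⟨i0 - 1, by omega⟩
      have hlt : β * (1 + W * s) ^ 4 < t := by
        have := Nat.find_min hex (m := s) (by omega)
        omega
      have hu : 1 + W * s < Y ^ 4 := by
        by_contra hcon
        push Not at hcon
        have h1 : (Y ^ 4) ^ 4 ≤ (1 + W * s) ^ 4 := Nat.pow_le_pow_left hcon 4
        have h2 : (1 + W * s) ^ 4 ≤ β * (1 + W * s) ^ 4 := Nat.le_mul_of_pos_left _ hβ
        have h3 : (Y ^ 4) ^ 4 = Y ^ 16 := by ring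
        omega
      have ex : 1 + W * (i0 + l) = (1 + W * s) + W * (l + 1) := by rw [hs]; ring
      refine ⟨by omega, ?_⟩
      have h4 := four_diff (1 + W * s) (W * (l + 1))
      rw [← ex] at h4
      have h5 : β * (1 + W * (i0 + l)) ^ 4 ≤ β * (1 + W * s) ^ 4 +
          β * (4 * (W * (l + 1)) * (1 + W * (i0 + l)) ^ 3) := by
        rw [← Nat.mul_add]
        exact Nat.mul_le_mul_left β h4
      have h6 : β * (4 * (W * (l + 1)) * (1 + W * (i0 + l)) ^ 3) ≤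
          4 * β * (W * N) * (1 + W * (i0 + l)) ^ 3 := by
        calc β * (4 * (W * (l + 1)) * (1 + W * (i0 + l)) ^ 3)
            = 4 * β * (W * (l + 1)) * (1 + W * (i0 + l)) ^ 3 := by ring
          _ ≤ 4 * β * (W * N) * (1 + W * (i0 + l)) ^ 3 :=
            Nat.mul_le_mul_right _ (Nat.mul_le_mul_left _ hWl)
      omega
  obtain ⟨hx, hD1⟩ := hxD
  have hx3 : (1 + W * (i0 + l)) ^ 3 ≤ 8 * Y ^ 12 := by
    calc (1 + W * (i0 + l)) ^ 3 ≤ (2 * Y ^ 4) ^ 3 := Nat.pow_le_pow_left hx 3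
      _ = 8 * Y ^ 12 := by ring
  have hD2 : D ≤ (N * Y ^ 3) ^ 4 := by
    calc D ≤ 4 * β * (W * N) * (1 + W * (i0 + l)) ^ 3 := hD1
      _ ≤ 4 * β * (W * N) * (8 * Y ^ 12) := Nat.mul_le_mul_left _ hx3
      _ = (32 * β * W) * (N * Y ^ 12) := by ring
      _ ≤ N * (N * Y ^ 12) := Nat.mul_le_mul_right _ hN
      _ = N ^ 2 * Y ^ 12 := by ring
      _ ≤ N ^ 4 * Y ^ 12 := Nat.mul_le_mul_right _ (Nat.pow_le_pow_right hN0 (by norm_num))
      _ = (N * Y ^ 3) ^ 4 := by ring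
  have hex2 : ∃ j, D ≤ β ^ 3 * (W * j) ^ 4 := by
    refine ⟨D, ?_⟩
    calc D ≤ W * D := Nat.le_mul_of_pos_left _ hW
      _ ≤ (W * D) ^ 4 := Nat.le_self_pow (by norm_num) _
      _ ≤ β ^ 3 * (W * D) ^ 4 := Nat.le_mul_of_pos_left _ (by positivity)
  set j' := Nat.find hex2 with hj'
  have hj1 : D ≤ β ^ 3 * (W * j') ^ 4 := Nat.find_spec hex2
  refine ⟨j' + 1, by omega, hi2, hx, ?_⟩
  intro m hm
  have hlow : β * (1 + W * (i0 + l)) ^ 4 ≤ t + β ^ 3 * (W * (j' + 1 + m)) ^ 4 := by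
    have h1 : β ^ 3 * (W * j') ^ 4 ≤ β ^ 3 * (W * (j' + 1 + m)) ^ 4 := by
      apply Nat.mul_le_mul_left
      apply Nat.pow_le_pow_left
      apply Nat.mul_le_mul_left
      omega
    omega
  rcases Nat.eq_zero_or_pos j' with h0 | h0
  · have hD0 : D = 0 := by
      rw [h0] at hj1
      simpa using hj1
    have hy1 : W * (j' + 1 + m) ≤ W * (T + 1) := by
      apply Nat.mul_le_mul_left
      omega
    have hy2 : W * (j' + 1 + m) ≤ 2 * N * Y ^ 3 := by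
      have : 2 * N * Y ^ 3 = N * Y ^ 3 + N * Y ^ 3 := by ring
      omega
    refine ⟨hy2, hlow, ?_⟩
    have h3 : β ^ 3 * (W * (j' + 1 + m)) ^ 4 ≤
        4 * β ^ 3 * (W * (T + 1)) * (2 * N * Y ^ 3) ^ 3 := by
      calc β ^ 3 * (W * (j' + 1 + m)) ^ 4
          = β ^ 3 * (W * (j' + 1 + m)) * (W * (j' + 1 + m)) ^ 3 := by ring
        _ ≤ β ^ 3 * (W * (T + 1)) * (2 * N * Y ^ 3) ^ 3 :=
            Nat.mul_le_mul (Nat.mul_le_mul_left _ hy1) (Nat.pow_le_pow_left hy2 3)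
        _ ≤ 4 * β ^ 3 * (W * (T + 1)) * (2 * N * Y ^ 3) ^ 3 := by
            apply Nat.mul_le_mul_right
            apply Nat.mul_le_mul_right
            omega
    omega
  · obtain ⟨s, hs⟩ : ∃ s, j' = s + 1 := ⟨j' - 1, by omega⟩
    have hlt : β ^ 3 * (W * s) ^ 4 < D := by
      have := Nat.find_min hex2 (m := s) (by omega)
      omega
    have hu : W * s ≤ N * Y ^ 3 := by
      have h1 : (W * s) ^ 4 ≤ β ^ 3 * (W * s) ^ 4 := Nat.le_mul_of_pos_left _ (by positivity)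
      have h2 : (W * s) ^ 4 ≤ (N * Y ^ 3) ^ 4 := by omega
      exact (Nat.pow_le_pow_iff_left (by norm_num)).mp h2
    have ey : W * (j' + 1 + m) = W * s + W * (m + 2) := by rw [hs]; ring
    have hv : W * (m + 2) ≤ W * (T + 1) := Nat.mul_le_mul_left _ (by omega)
    have hy2 : W * (j' + 1 + m) ≤ 2 * N * Y ^ 3 := by
      have : 2 * N * Y ^ 3 = N * Y ^ 3 + N * Y ^ 3 := by ring
      omega
    refine ⟨hy2, hlow, ?_⟩
    have h4 := four_diff (W * s) (W * (m + 2))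
    rw [← ey] at h4
    have h5 : β ^ 3 * (W * (j' + 1 + m)) ^ 4 ≤ β ^ 3 * (W * s) ^ 4 +
        β ^ 3 * (4 * (W * (m + 2)) * (W * (j' + 1 + m)) ^ 3) := by
      rw [← Nat.mul_add]
      exact Nat.mul_le_mul_left _ h4
    have h6 : β ^ 3 * (4 * (W * (m + 2)) * (W * (j' + 1 + m)) ^ 3) ≤
        4 * β ^ 3 * (W * (T + 1)) * (2 * N * Y ^ 3) ^ 3 := by
      calc β ^ 3 * (4 * (W * (m + 2)) * (W * (j' + 1 + m)) ^ 3)
          = 4 * β ^ 3 * (W * (m + 2)) * (W * (j' + 1 + m)) ^ 3 := by ring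
        _ ≤ 4 * β ^ 3 * (W * (T + 1)) * (2 * N * Y ^ 3) ^ 3 :=
            Nat.mul_le_mul (Nat.mul_le_mul_left _ hv) (Nat.pow_le_pow_left hy2 3)
    omega

end Pool.Agent.Run7.H246.CN
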