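import Mathlib
import Pool.Agent.Run7.h246.CN.Arith
import Pool.Agent.Run7.h246.CN.Win
import Pool.Agent.Run7.h246.CN.SmallAll
import Pool.Agent.Run7.h246.CN.Large

set_option autoImplicit false

/-! # Exceptional sets with a power saving (helper246) -/

namespace Pool.Agent.Run7.H246.CN

open Finset

lemma modEq_one (W i : ℕ) : 1 + W * i ≡ 1 [MOD W] := by
  have : 1 + W * i ≡ 1 + 0 [MOD W] :=
    Nat.ModEq.add_left 1 ((Nat.modEq_zero_iff_dvd).mpr (Dvd.intro _ rfl))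
  rwa [Nat.add_zero] at this

lemma not_dvd_of_modEq_one {p x W : ℕ} (hp : p.Prime) (hx : x ≡ 1 [MOD W]) (hpx : p ∣ x) :
    ¬ p ∣ W := by
  intro hpW
  have e : x ≡ 1 [MOD p] := hx.of_dvd hpW
  have e2 : (1 : ℕ) ≡ 0 [MOD p] := e.symm.trans ((Nat.modEq_zero_iff_dvd).mpr hpx)
  exact hp.one_lt.ne' (Nat.dvd_one.mp ((Nat.modEq_zero_iff_dvd).mp e2))

/-- one exceptional `t`: many pairs with a large square -/
lemma above (β q W P N Y T H c t : ℕ) (hβ : Squarefree β) (hqW : q ∣ W) (hβW : β ∣ W)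
    (h2W : 2 ∣ W) (hW : 0 < W) (hpw : ∀ p : ℕ, p.Prime → p ≤ 128 → p ∣ W)
    (hN1 : 1 < N) (hNT : N ≤ T)
    (hN : 32 * β * W ≤ N) (hY4 : W * N ≤ Y ^ 4) (hT : W * (T + 1) ≤ N * Y ^ 3)
    (hxc : 2 * Y ^ 4 < N ^ (c + 1)) (hH : 4 * β ^ 3 * (W * (T + 1)) * (2 * N * Y ^ 3) ^ 3 ≤ H)
    (hYN : 4 * β * N ^ 4 * Y ^ 6 < Y ^ 8)
    (hsm : 8 * (N : ℝ) * T / (128 : ℕ) + c * (T + N) + 4 * N * P ≤ N * T / 2)
    (ht : t ≤ Y ^ 16) (ht2 : Y ^ 16 ≤ t * N ^ 3)
    (hno : ¬ ∃ n : ℕ, n ≤ t ∧ t ≤ n + H ∧ Squarefree n ∧ n ≡ β [MOD q] ∧ Cong n)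
    (L : Finset (ℕ × ℕ))
    (hL : ∀ x y : ℕ, 0 < x → Nat.Coprime x y → x ≤ 2 * Y ^ 4 → Y ^ 4 ≤ N * x →
      y ≤ 2 * N * Y ^ 3 → β * y ^ 2 < x ^ 2 →
      (∃ p : ℕ, p.Prime ∧ P < p ∧ ¬ p ∣ β ∧ ¬ p ∣ 2 ∧ ¬ p ∣ y ∧
        (p ^ 2 ∣ x ^ 2 + β * y ^ 2 ∨ p ^ 2 ∣ x ^ 2 - β * y ^ 2)) → (x, y) ∈ L) :
    ((N : ℝ) * T / 2) ≤ ((L.filter (fun r => β * r.1 ^ 4 ≤ t + β ^ 3 * r.2 ^ 4 ∧
      t + β ^ 3 * r.2 ^ 4 ≤ β * r.1 ^ 4 + H)).card : ℝ) := by
  classical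
  have hβ0 : 0 < β := Nat.pos_of_ne_zero hβ.ne_zero
  obtain ⟨i0, hwin⟩ := window β W N Y T t hβ0 hW hN hY4 hT ht
  have hN0 : 0 < N := by omega
  have hY0 : 0 < Y := by
    rcases Nat.eq_zero_or_pos Y with h | h
    · rw [h] at hY4
      have : 0 < W * N := Nat.mul_pos hW hN0
      omega
    · exact h
  have hch : ∀ l : ℕ, ∃ j0 : ℕ, l < N → (1 ≤ j0 ∧ t ≤ β * (1 + W * (i0 + l)) ^ 4 ∧
      1 + W * (i0 + l) ≤ 2 * Y ^ 4 ∧ ∀ m < T, W * (j0 + m) ≤ 2 * N * Y ^ 3 ∧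
      β * (1 + W * (i0 + l)) ^ 4 ≤ t + β ^ 3 * (W * (j0 + m)) ^ 4 ∧
      t + β ^ 3 * (W * (j0 + m)) ^ 4 ≤ β * (1 + W * (i0 + l)) ^ 4 +
        4 * β ^ 3 * (W * (T + 1)) * (2 * N * Y ^ 3) ^ 3) := by
    intro l
    by_cases hl : l < N
    · obtain ⟨j0, h⟩ := hwin l hl
      exact ⟨j0, fun _ => h⟩
    · exact ⟨0, fun h => absurd h hl⟩
  choose j0 hj0 using hch
  -- `x` is not small
  have hxlow : ∀ l < N, Y ^ 4 ≤ N * (1 + W * (i0 + l)) := by
    intro l hl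
    obtain ⟨_, g2, _, _⟩ := hj0 l hl
    by_contra hcon
    push Not at hcon
    have h1 : (N * (1 + W * (i0 + l))) ^ 4 < (Y ^ 4) ^ 4 := Nat.pow_lt_pow_left hcon (by norm_num)
    have h2 : N * Y ^ 16 ≤ β * Y ^ 16 := by
      calc N * Y ^ 16 ≤ N * (t * N ^ 3) := Nat.mul_le_mul_left _ ht2
        _ = t * N ^ 4 := by ring
        _ ≤ β * (1 + W * (i0 + l)) ^ 4 * N ^ 4 := Nat.mul_le_mul_right _ g2
        _ = β * (N * (1 + W * (i0 + l))) ^ 4 := by ring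
        _ ≤ β * (Y ^ 4) ^ 4 := Nat.mul_le_mul_left _ h1.le
        _ = β * Y ^ 16 := by ring
    have h3 : N ≤ β := Nat.le_of_mul_le_mul_right h2 (by positivity)
    have h4 : β < 32 * β * W := by nlinarith
    omega
  have hlt : ∀ l < N, ∀ m < T, β * (W * (j0 l + m)) ^ 2 < (1 + W * (i0 + l)) ^ 2 := by
    intro l hl m hm
    obtain ⟨_, _, _, g4⟩ := hj0 l hl
    have h1 := (g4 m hm).1
    have h2 := hxlow l hl
    by_contra hcon
    push Not at hcon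
    have h3 : (Y ^ 4) ^ 2 ≤ (N * (1 + W * (i0 + l))) ^ 2 := Nat.pow_le_pow_left h2 2
    have h4 : (W * (j0 l + m)) ^ 2 ≤ (2 * N * Y ^ 3) ^ 2 := Nat.pow_le_pow_left h1 2
    have h5 : Y ^ 8 ≤ 4 * β * N ^ 4 * Y ^ 6 := by
      calc Y ^ 8 = (Y ^ 4) ^ 2 := by ring
        _ ≤ (N * (1 + W * (i0 + l))) ^ 2 := h3
        _ = N ^ 2 * (1 + W * (i0 + l)) ^ 2 := by ring
        _ ≤ N ^ 2 * (β * (W * (j0 l + m)) ^ 2) := Nat.mul_le_mul_left _ hcon
        _ ≤ N ^ 2 * (β * (2 * N * Y ^ 3) ^ 2) := Nat.mul_le_mul_left _ (Nat.mul_le_mul_left _ h4)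
        _ = 4 * β * N ^ 4 * Y ^ 6 := by ring
    omega
  set R : Finset (ℕ × ℕ) := (range N) ×ˢ (range T) with hR
  set G : Finset (ℕ × ℕ) := R.filter (fun r => SBad β W P (1 + W * (i0 + r.1))
    (W * (j0 r.1 + r.2))) with hG
  have hGc : (G.card : ℝ) ≤ N * T / 2 := by
    refine le_trans ?_ hsm
    apply small_all β W P 128 N T c i0 j0 (by norm_num) hN1 hNT h2W hβW hpw
    · intro l hl
      exact lt_of_le_of_lt (hj0 l hl).2.2.1 hxc
    · intro r hr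
      rw [hG, mem_filter, hR, mem_product, mem_range, mem_range] at hr
      exact ⟨hr.1.1, hr.1.2, (hlt r.1 hr.1.1 r.2 hr.1.2).le, hr.2⟩
  have hsplit := card_filter_add_card_filter_not (s := R)
    (fun r => SBad β W P (1 + W * (i0 + r.1)) (W * (j0 r.1 + r.2)))
  have hRc : R.card = N * T := by rw [hR, card_product, card_range, card_range]
  set D : Finset (ℕ × ℕ) := R.filter (fun r => ¬ SBad β W P (1 + W * (i0 + r.1))
    (W * (j0 r.1 + r.2))) with hD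
  have hDc : (N : ℝ) * T / 2 ≤ D.card := by
    have h1 : (G.card : ℝ) + D.card = N * T := by
      have : G.card + D.card = N * T := by rw [← hRc]; exact hsplit
      exact_mod_cast this
    linarith
  refine hDc.trans ?_
  have hinj : D.card ≤ (L.filter (fun r => β * r.1 ^ 4 ≤ t + β ^ 3 * r.2 ^ 4 ∧
      t + β ^ 3 * r.2 ^ 4 ≤ β * r.1 ^ 4 + H)).card := by
    apply card_le_card_of_injOn (fun r => (1 + W * (i0 + r.1), W * (j0 r.1 + r.2)))
    · intro r hr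
      rw [mem_coe, hD, mem_filter, hR, mem_product, mem_range, mem_range] at hr
      obtain ⟨⟨hl, hm⟩, hns⟩ := hr
      obtain ⟨g1, g2, g3, g4⟩ := hj0 r.1 hl
      obtain ⟨g5, g6, g7⟩ := g4 r.2 hm
      rw [mem_coe, mem_filter]
      have hltr := hlt r.1 hl r.2 hm
      refine ⟨?_, g6, g7.trans (Nat.add_le_add_left hH _)⟩
      have hx1 := modEq_one W (i0 + r.1)
      have hcop : Nat.Coprime (1 + W * (i0 + r.1)) (W * (j0 r.1 + r.2)) := by
        apply Nat.coprime_of_dvd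
        intro p hp hpx hpy
        exact hns (Or.inl ⟨p, hp, not_dvd_of_modEq_one hp hx1 hpx, hpx, hpy⟩)
      apply hL _ _ (by omega) hcop g3 (hxlow r.1 hl) g5 hltr
      -- the large square
      obtain ⟨n, hn⟩ : ∃ n, β * (1 + W * (i0 + r.1)) ^ 4 =
          n + β ^ 3 * (W * (j0 r.1 + r.2)) ^ 4 := by
        refine ⟨β * (1 + W * (i0 + r.1)) ^ 4 - β ^ 3 * (W * (j0 r.1 + r.2)) ^ 4, ?_⟩
        rw [Nat.sub_add_cancel]
        have h1 : (β * (W * (j0 r.1 + r.2)) ^ 2) ^ 2 ≤ ((1 + W * (i0 + r.1)) ^ 2) ^ 2 :=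
          Nat.pow_le_pow_left hltr.le 2
        have h2 := Nat.mul_le_mul_left β h1
        calc β ^ 3 * (W * (j0 r.1 + r.2)) ^ 4 = β * (β * (W * (j0 r.1 + r.2)) ^ 2) ^ 2 := by ring
          _ ≤ β * ((1 + W * (i0 + r.1)) ^ 2) ^ 2 := h2
          _ = β * (1 + W * (i0 + r.1)) ^ 4 := by ring
      have hn0 : 0 < n := by
        rcases Nat.eq_zero_or_pos n with h | h
        · exfalso
          rw [h, Nat.zero_add] at hn
          have h1 : (β * (W * (j0 r.1 + r.2)) ^ 2) ^ 2 < ((1 + W * (i0 + r.1)) ^ 2) ^ 2 :=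
            Nat.pow_lt_pow_left hltr (by norm_num)
          have h2 := Nat.mul_lt_mul_of_pos_left h1 hβ0
          have h3 : β * (β * (W * (j0 r.1 + r.2)) ^ 2) ^ 2 =
            β ^ 3 * (W * (j0 r.1 + r.2)) ^ 4 := by ring
          have h4 : β * ((1 + W * (i0 + r.1)) ^ 2) ^ 2 = β * (1 + W * (i0 + r.1)) ^ 4 := by ring
          omega
        · exact h
      by_contra hnone
      apply hno
      refine ⟨n, by omega, ?_, ?_, ?_, ?_⟩
      · have := g7.trans (Nat.add_le_add_left hH _)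
        omega
      · apply sqfree_of hβ hβW h2W hx1 (Dvd.intro (j0 r.1 + r.2) rfl) hn0 hn
        intro p hp hpW
        have k1 : ¬ (p ∣ 1 + W * (i0 + r.1) ∧ p ∣ W * (j0 r.1 + r.2)) := by
          intro h
          exact hns (Or.inl ⟨p, hp, hpW, h.1, h.2⟩)
        have k2 : ¬ (p ^ 2 ∣ (1 + W * (i0 + r.1)) ^ 2 + β * (W * (j0 r.1 + r.2)) ^ 2 ∨
            p ^ 2 ∣ (1 + W * (i0 + r.1)) ^ 2 - β * (W * (j0 r.1 + r.2)) ^ 2) := by
          intro hd
          by_cases hpy : p ∣ W * (j0 r.1 + r.2)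
          · apply k1
            refine ⟨?_, hpy⟩
            have hpy2 : p ∣ β * (W * (j0 r.1 + r.2)) ^ 2 :=
              Dvd.dvd.mul_left (Dvd.dvd.pow hpy (by norm_num)) _
            rcases hd with hd | hd
            · exact hp.dvd_of_dvd_pow ((Nat.dvd_add_left hpy2).mp
                ((dvd_pow_self p (by norm_num)).trans hd))
            · have h6 := Nat.dvd_add ((dvd_pow_self p (by norm_num)).trans hd) hpy2
              rw [Nat.sub_add_cancel hltr.le] at h6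
              exact hp.dvd_of_dvd_pow h6
          · by_cases hpP : p ≤ P
            · exact hns (Or.inr ⟨p, hp, hpW, hpP, hpy, hd⟩)
            · apply hnone
              exact ⟨p, hp, by omega, fun h => hpW (h.trans hβW), fun h => hpW (h.trans h2W),
                hpy, hd⟩
        exact ⟨k1, fun h => k2 (Or.inl h), fun h => k2 (Or.inr h)⟩
      · exact (modEq_of hx1 (Dvd.intro (j0 r.1 + r.2) rfl) hn).of_dvd hqW
      · apply cong_of hβ0 (by omega) _ hn0 hn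
        apply Nat.mul_pos hW
        omega
    · intro a ha b hb hab
      rw [mem_coe, hD, mem_filter, hR, mem_product, mem_range, mem_range] at ha hb
      simp only [Prod.mk.injEq] at hab
      obtain ⟨e1, e2⟩ := hab
      have e3 : W * (i0 + a.1) = W * (i0 + b.1) := by omega
      have e4 : i0 + a.1 = i0 + b.1 := Nat.eq_of_mul_eq_mul_left hW e3
      have e5 : a.1 = b.1 := by omega
      rw [e5] at e2
      have e6 : j0 b.1 + a.2 = j0 b.1 + b.2 := Nat.eq_of_mul_eq_mul_left hW e2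
      exact Prod.ext e5 (by omega)
  exact_mod_cast hinj

end Pool.Agent.Run7.H246.CN
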