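import Mathlib
import Pool.Agent.Run7.h246.CN.PS

set_option autoImplicit false

/-! # Exceptional sets with a power saving, conclusion (helper246) -/

namespace Pool.Agent.Run7.H246.CN

open Finset

lemma num_bound (a z E L : ℝ) (ha : 8 ≤ a) (hz : a ^ 8 ≤ z) (hE : 0 ≤ E)
    (hEL : E * (a * a ^ 20 / 4) ≤ L * (2 * (z ^ 9 * a ^ 25)))
    (hL : L ≤ 32 * a ^ 2 * z ^ 7 / a ^ 10 + 12 * z ^ 4) : E * a ≤ z ^ 16 := by
  have ha0 : 0 < a := by linarith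
  have hz0 : 0 < z := lt_of_lt_of_le (by positivity) hz
  have _ := hE
  have hz3 : a ^ 24 ≤ z ^ 3 := by
    calc a ^ 24 = (a ^ 8) ^ 3 := by ring
      _ ≤ z ^ 3 := pow_le_pow_left₀ (by positivity) hz 3
  have h1 : E * (a * a ^ 20 / 4) ≤ (32 * a ^ 2 * z ^ 7 / a ^ 10 + 12 * z ^ 4) *
      (2 * (z ^ 9 * a ^ 25)) := hEL.trans (mul_le_mul_of_nonneg_right hL (by positivity))
  have e1 : (32 * a ^ 2 * z ^ 7 / a ^ 10 + 12 * z ^ 4) * (2 * (z ^ 9 * a ^ 25)) =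
      64 * z ^ 16 * a ^ 17 + 24 * z ^ 13 * a * a ^ 24 := by
    field_simp
    ring
  rw [e1] at h1
  have h2 : 24 * z ^ 13 * a * a ^ 24 ≤ 24 * z ^ 13 * a * z ^ 3 :=
    mul_le_mul_of_nonneg_left hz3 (by positivity)
  have h3 : 24 * z ^ 13 * a * z ^ 3 ≤ 24 * z ^ 16 * a ^ 17 := by
    have : a ≤ a ^ 17 := le_self_pow₀ (by linarith) (by norm_num)
    calc 24 * z ^ 13 * a * z ^ 3 = 24 * z ^ 16 * a := by ring
      _ ≤ 24 * z ^ 16 * a ^ 17 := mul_le_mul_of_nonneg_left this (by positivity)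
  have h4 : 352 * a ^ 17 ≤ a ^ 20 := by
    have h5 : (8 : ℝ) ^ 3 ≤ a ^ 3 := pow_le_pow_left₀ (by norm_num) ha 3
    have h6 : (0 : ℝ) < a ^ 17 := by positivity
    have e : a ^ 20 = a ^ 3 * a ^ 17 := by ring
    rw [e]
    apply mul_le_mul_of_nonneg_right _ h6.le
    norm_num at h5
    linarith
  have h5 : (E * a) * a ^ 20 ≤ z ^ 16 * a ^ 20 := by
    have h6 : (E * a) * a ^ 20 ≤ 352 * z ^ 16 * a ^ 17 := by
      have e : E * (a * a ^ 20 / 4) = ((E * a) * a ^ 20) / 4 := by ring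
      rw [e] at h1
      linarith
    calc (E * a) * a ^ 20 ≤ 352 * z ^ 16 * a ^ 17 := h6
      _ = z ^ 16 * (352 * a ^ 17) := by ring
      _ ≤ z ^ 16 * a ^ 20 := mul_le_mul_of_nonneg_left h4 (by positivity)
  exact le_of_mul_le_mul_right h5 (by positivity)

lemma exists_W (β q v : ℕ) (hβ : 0 < β) (hq : 0 < q) : ∃ W : ℕ, 0 < W ∧ β ∣ W ∧ q ∣ W ∧ 2 ∣ W ∧
    ∀ p : ℕ, p.Prime → p ≤ v → p ∣ W := by
  have hf := Nat.factorial_pos v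
  refine ⟨2 * β * q * v.factorial, by positivity, Dvd.intro (2 * q * v.factorial) (by ring),
    Dvd.intro (2 * β * v.factorial) (by ring), Dvd.intro (β * q * v.factorial) (by ring), ?_⟩
  intro p hp hpv
  exact (hp.dvd_factorial.mpr hpv).trans (Dvd.intro_left (2 * β * q) rfl)

/-- the core statement -/
theorem ps_scale (β q s : ℕ) (hβ : Squarefree β) (hq : 0 < q) (hs : 8 ≤ s) :
    ∃ N₀ : ℕ, 2 ≤ N₀ ∧ ∀ N : ℕ, N₀ ≤ N → ∀ E : Finset ℕ, (∀ t ∈ E, t ≤ (N ^ s) ^ 16 ∧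
      (N ^ s) ^ 16 ≤ t * N ^ 3 ∧ ¬ ∃ n : ℕ, n ≤ t ∧ t ≤ n + (N ^ s) ^ 9 * N ^ 25 ∧
        Squarefree n ∧ n ≡ β [MOD q] ∧ Cong n) →
      (E.card : ℝ) * N ≤ (((N ^ s) ^ 16 : ℕ) : ℝ) := by
  classical
  have hβ0 : 0 < β := Nat.pos_of_ne_zero hβ.ne_zero
  obtain ⟨W, hW0, hβW, hqW, h2W, hpw⟩ := exists_W β q 128 hβ0 hq
  refine ⟨64 * β ^ 3 * W + 64 * s + 8, by omega, ?_⟩
  intro N hN E hE
  set Y : ℕ := N ^ s with hY
  have hN8 : 8 ≤ N := by omega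
  have hN0 : 0 < N := by omega
  have hN1 : 1 ≤ N := by omega
  have hNβ3 : 64 * β ^ 3 * W ≤ N := by omega
  have hβ13 : β ≤ β ^ 3 := Nat.le_self_pow (by norm_num) β
  have hNβW : 64 * β * W ≤ N := by
    refine le_trans ?_ hNβ3
    exact Nat.mul_le_mul_right _ (Nat.mul_le_mul_left _ hβ13)
  have hN32 : 32 * β * W ≤ N := by
    refine le_trans ?_ hNβW
    exact Nat.mul_le_mul_right _ (Nat.mul_le_mul_right _ (by norm_num))
  have hNW : W ≤ N := by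
    refine le_trans ?_ hNβW
    exact Nat.le_mul_of_pos_left _ (by positivity)
  have hNβ : β ≤ N := by
    refine le_trans ?_ hNβW
    calc β ≤ 64 * β := by omega
      _ ≤ 64 * β * W := Nat.le_mul_of_pos_right _ hW0
  have hY8 : N ^ 8 ≤ Y := by
    rw [hY]
    exact Nat.pow_le_pow_right hN0 hs
  have hY0 : 0 < Y := by rw [hY]; positivity
  have hT2 : N ^ 20 + 1 ≤ 2 * N ^ 20 := by
    have : 1 ≤ N ^ 20 := Nat.one_le_pow _ _ hN0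
    omega
  have hY3 : N ^ 24 ≤ Y ^ 3 := by
    calc N ^ 24 = (N ^ 8) ^ 3 := by ring
      _ ≤ Y ^ 3 := Nat.pow_le_pow_left hY8 3
  have hY4 : W * N ≤ Y ^ 4 := by
    calc W * N ≤ N * N := Nat.mul_le_mul_right _ hNW
      _ = N ^ 2 := by ring
      _ ≤ N ^ 24 := Nat.pow_le_pow_right hN0 (by norm_num)
      _ ≤ Y ^ 3 := hY3
      _ ≤ Y ^ 4 := Nat.pow_le_pow_right hY0 (by norm_num)
  have hT : W * (N ^ 20 + 1) ≤ N * Y ^ 3 := by
    calc W * (N ^ 20 + 1) ≤ N * (N * N ^ 20) := by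
          apply Nat.mul_le_mul hNW
          refine hT2.trans (Nat.mul_le_mul_right _ (by omega))
      _ = N * N ^ 21 := by ring
      _ ≤ N * N ^ 24 := Nat.mul_le_mul_left _ (Nat.pow_le_pow_right hN0 (by norm_num))
      _ ≤ N * Y ^ 3 := Nat.mul_le_mul_left _ hY3
  have hxc : 2 * Y ^ 4 < N ^ (4 * s + 1) := by
    have e : Y ^ 4 = N ^ (4 * s) := by rw [hY, ← pow_mul, Nat.mul_comm]
    rw [e, pow_succ]
    have : 0 < N ^ (4 * s) := by positivity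
    nlinarith
  have hH : 4 * β ^ 3 * (W * (N ^ 20 + 1)) * (2 * N * Y ^ 3) ^ 3 ≤ Y ^ 9 * N ^ 25 := by
    calc 4 * β ^ 3 * (W * (N ^ 20 + 1)) * (2 * N * Y ^ 3) ^ 3
        ≤ 4 * β ^ 3 * (W * (2 * N ^ 20)) * (2 * N * Y ^ 3) ^ 3 := by
          apply Nat.mul_le_mul_right
          apply Nat.mul_le_mul_left
          exact Nat.mul_le_mul_left _ hT2
      _ = (64 * β ^ 3 * W) * (N ^ 23 * Y ^ 9) := by ring
      _ ≤ N * (N ^ 23 * Y ^ 9) := Nat.mul_le_mul_right _ hNβ3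
      _ = N ^ 24 * Y ^ 9 := by ring
      _ ≤ N ^ 25 * Y ^ 9 := Nat.mul_le_mul_right _ (Nat.pow_le_pow_right hN0 (by norm_num))
      _ = Y ^ 9 * N ^ 25 := by ring
  have hYN : 4 * β * N ^ 4 * Y ^ 6 < Y ^ 8 := by
    have h1 : 4 * β * N ^ 4 < Y ^ 2 := by
      calc 4 * β * N ^ 4 ≤ N * N * N ^ 4 := by
            apply Nat.mul_le_mul_right
            exact Nat.mul_le_mul (by omega) hNβ
        _ = N ^ 6 := by ring
        _ < N ^ 16 := Nat.pow_lt_pow_right (by omega) (by norm_num)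
        _ = (N ^ 8) ^ 2 := by ring
        _ ≤ Y ^ 2 := Nat.pow_le_pow_left hY8 2
    calc 4 * β * N ^ 4 * Y ^ 6 < Y ^ 2 * Y ^ 6 := Nat.mul_lt_mul_of_pos_right h1 (by positivity)
      _ = Y ^ 8 := by ring
  have haR : (8 : ℝ) ≤ N := by exact_mod_cast hN8
  have hsR : 64 * (s : ℝ) ≤ N := by
    have : 64 * s ≤ N := by omega
    exact_mod_cast this
  have hsm : 8 * (N : ℝ) * ((N ^ 20 : ℕ) : ℝ) / ((128 : ℕ) : ℝ) +
      ((4 * s : ℕ) : ℝ) * (((N ^ 20 : ℕ) : ℝ) + N) + 4 * N * ((N ^ 10 : ℕ) : ℝ) ≤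
      N * ((N ^ 20 : ℕ) : ℝ) / 2 := by
    push_cast
    set a : ℝ := (N : ℝ) with ha
    have ha0 : 0 < a := by linarith
    have h1 : a ≤ a ^ 20 := le_self_pow₀ (by linarith) (by norm_num)
    have h2 : 4 * (s : ℝ) * (a ^ 20 + a) ≤ a * a ^ 20 / 8 := by
      calc 4 * (s : ℝ) * (a ^ 20 + a) ≤ 4 * (s : ℝ) * (a ^ 20 + a ^ 20) :=
            mul_le_mul_of_nonneg_left (by linarith) (by positivity)
        _ = (64 * (s : ℝ)) * a ^ 20 / 8 := by ring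
        _ ≤ a * a ^ 20 / 8 := by
            have := mul_le_mul_of_nonneg_right hsR (by positivity : (0 : ℝ) ≤ a ^ 20)
            linarith
    have h3 : 4 * a * a ^ 10 ≤ a * a ^ 20 / 8 := by
      have h4 : (8 : ℝ) ^ 2 ≤ a ^ 2 := pow_le_pow_left₀ (by norm_num) haR 2
      have h5 : a ^ 2 ≤ a ^ 10 := pow_le_pow_right₀ (by linarith) (by norm_num)
      have h6 : 32 ≤ a ^ 10 := by linarith
      have h7 : 0 < a * a ^ 10 := by positivity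
      calc 4 * a * a ^ 10 = 32 * (a * a ^ 10) / 8 := by ring
        _ ≤ a ^ 10 * (a * a ^ 10) / 8 := by
            have := mul_le_mul_of_nonneg_right h6 h7.le
            linarith
        _ = a * a ^ 20 / 8 := by ring
    have h8 : 0 < a * a ^ 20 := by positivity
    have e1 : 8 * a * a ^ 20 / 128 = a * a ^ 20 / 16 := by ring
    rw [e1]
    linarith
  -- the set of pairs with a large square
  set L : Finset (ℕ × ℕ) := ((range (2 * Y ^ 4 + 1)) ×ˢ (range (2 * N * Y ^ 3 + 1))).filter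
    (fun r => 0 < r.1 ∧ Nat.Coprime r.1 r.2 ∧ Y ^ 4 ≤ N * r.1 ∧ β * r.2 ^ 2 < r.1 ^ 2 ∧
      ∃ p : ℕ, p.Prime ∧ N ^ 10 < p ∧ ¬ p ∣ β ∧ ¬ p ∣ 2 ∧ ¬ p ∣ r.2 ∧
        (p ^ 2 ∣ r.1 ^ 2 + β * r.2 ^ 2 ∨ p ^ 2 ∣ r.1 ^ 2 - β * r.2 ^ 2)) with hLdef
  have hLc := large_card β N Y (N ^ 10) (by positivity) hY0 L (by
    intro r hr
    rw [hLdef, mem_filter, mem_product, mem_range, mem_range] at hr
    obtain ⟨⟨h1, h2⟩, h3, h4, h5, h6, h7⟩ := hr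
    exact ⟨h3, h4, by omega, h5, by omega, h6, h7⟩)
  have habove : ∀ t ∈ E, (((N * N ^ 20) / 2 : ℕ)) ≤
      (L.bipartiteAbove (fun (t : ℕ) (r : ℕ × ℕ) => β * r.1 ^ 4 ≤ t + β ^ 3 * r.2 ^ 4 ∧
        t + β ^ 3 * r.2 ^ 4 ≤ β * r.1 ^ 4 + Y ^ 9 * N ^ 25) t).card := by
    intro t ht
    obtain ⟨g1, g2, g3⟩ := hE t ht
    have h := above β q W (N ^ 10) N Y (N ^ 20) (Y ^ 9 * N ^ 25) (4 * s) t hβ hqW hβW h2W hW0 hpw
      (by omega) (Nat.le_self_pow (by norm_num) N) hN32 hY4 hT hxc hH hYN hsm g1 g2 g3 L (by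
        intro x y k1 k2 k3 k4 k5 k6 k7
        rw [hLdef, mem_filter, mem_product, mem_range, mem_range]
        exact ⟨⟨by omega, by omega⟩, k1, k2, k4, k6, k7⟩)
    have h2 : (((N * N ^ 20) / 2 : ℕ) : ℝ) ≤ (N : ℝ) * ((N ^ 20 : ℕ) : ℝ) / 2 := by
      have := @Nat.cast_div_le ℝ _ _ _ (N * N ^ 20) 2
      push_cast at this ⊢
      linarith
    have h3 := h2.trans h
    rw [Finset.bipartiteAbove]
    exact_mod_cast h3
  have hbelow : ∀ r ∈ L, (E.bipartiteBelow (fun (t : ℕ) (r : ℕ × ℕ) =>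
      β * r.1 ^ 4 ≤ t + β ^ 3 * r.2 ^ 4 ∧
        t + β ^ 3 * r.2 ^ 4 ≤ β * r.1 ^ 4 + Y ^ 9 * N ^ 25) r).card ≤ Y ^ 9 * N ^ 25 + 1 := by
    intro r hr
    rw [hLdef, mem_filter] at hr
    obtain ⟨_, _, _, _, h6, _⟩ := hr
    have h7 : β ^ 3 * r.2 ^ 4 ≤ β * r.1 ^ 4 := by
      have h1 : (β * r.2 ^ 2) ^ 2 ≤ (r.1 ^ 2) ^ 2 := Nat.pow_le_pow_left h6.le 2
      calc β ^ 3 * r.2 ^ 4 = β * (β * r.2 ^ 2) ^ 2 := by ring
        _ ≤ β * (r.1 ^ 2) ^ 2 := Nat.mul_le_mul_left _ h1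
        _ = β * r.1 ^ 4 := by ring
    have h8 : E.bipartiteBelow (fun (t : ℕ) (r : ℕ × ℕ) =>
        β * r.1 ^ 4 ≤ t + β ^ 3 * r.2 ^ 4 ∧
        t + β ^ 3 * r.2 ^ 4 ≤ β * r.1 ^ 4 + Y ^ 9 * N ^ 25) r ⊆
        Finset.Icc (β * r.1 ^ 4 - β ^ 3 * r.2 ^ 4)
          (β * r.1 ^ 4 - β ^ 3 * r.2 ^ 4 + Y ^ 9 * N ^ 25) := by
      intro t ht
      rw [Finset.mem_bipartiteBelow] at ht
      rw [mem_Icc]
      omega
    have h9 := card_le_card h8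
    rw [Nat.card_Icc] at h9
    omega
  have hdc := Finset.card_mul_le_card_mul _ habove hbelow
  -- conclusion
  have hm : N * N ^ 20 ≤ 4 * ((N * N ^ 20) / 2) := by
    have h1 : 2 ≤ N * N ^ 20 := by
      have : 1 ≤ N ^ 20 := Nat.one_le_pow _ _ hN0
      nlinarith
    omega
  have hm' : (N : ℝ) * (N : ℝ) ^ 20 / 4 ≤ (((N * N ^ 20) / 2 : ℕ) : ℝ) := by
    have : ((N * N ^ 20 : ℕ) : ℝ) ≤ ((4 * ((N * N ^ 20) / 2) : ℕ) : ℝ) := by exact_mod_cast hm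
    rw [Nat.cast_mul 4] at this
    push_cast at this ⊢
    linarith
  have hdcR : (E.card : ℝ) * (((N * N ^ 20) / 2 : ℕ) : ℝ) ≤
      (L.card : ℝ) * ((Y : ℝ) ^ 9 * (N : ℝ) ^ 25 + 1) := by
    exact_mod_cast hdc
  have hYR : ((N : ℝ)) ^ 8 ≤ Y := by exact_mod_cast hY8
  have hY1 : (1 : ℝ) ≤ (Y : ℝ) ^ 9 * (N : ℝ) ^ 25 := by
    have h1 : 1 ≤ Y ^ 9 * N ^ 25 := Nat.one_le_iff_ne_zero.mpr (by positivity)
    exact_mod_cast h1
  have hfin := num_bound (N : ℝ) (Y : ℝ) (E.card : ℝ) (L.card : ℝ) haR hYR (by positivity)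
    (by
      calc (E.card : ℝ) * ((N : ℝ) * (N : ℝ) ^ 20 / 4)
          ≤ (E.card : ℝ) * (((N * N ^ 20) / 2 : ℕ) : ℝ) :=
            mul_le_mul_of_nonneg_left hm' (by positivity)
        _ ≤ (L.card : ℝ) * ((Y : ℝ) ^ 9 * (N : ℝ) ^ 25 + 1) := hdcR
        _ ≤ (L.card : ℝ) * (2 * ((Y : ℝ) ^ 9 * (N : ℝ) ^ 25)) :=
            mul_le_mul_of_nonneg_left (by linarith) (by positivity))
    (by
      push_cast at hLc
      exact hLc)
  have e16 : (((Y ^ 16 : ℕ)) : ℝ) = (Y : ℝ) ^ 16 := by push_cast; rfl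
  rw [e16]
  exact hfin

end Pool.Agent.Run7.H246.CN
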