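import Mathlib
import Pool.Agent.Run7.h246.CN.SmallAll

set_option autoImplicit false

/-! # Small obstructions, uniform version (helper246) -/

namespace Pool.Agent.Run7.H246.CN

open Finset

/-- small obstruction for a pair, common prime factors up to `T` only -/
def SBadT (β W P T x y : ℕ) : Prop :=
  (∃ p : ℕ, p.Prime ∧ ¬ p ∣ W ∧ p ≤ T ∧ p ∣ x ∧ p ∣ y) ∨
    ∃ p : ℕ, p.Prime ∧ ¬ p ∣ W ∧ p ≤ P ∧ ¬ p ∣ y ∧
      (p ^ 2 ∣ x ^ 2 + β * y ^ 2 ∨ p ^ 2 ∣ x ^ 2 - β * y ^ 2)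

/-- for one `x` -/
lemma small_oneT (β W P w A T x : ℕ) (hw : 0 < w) (h2W : 2 ∣ W) (hβW : β ∣ W)
    (hpw : ∀ p : ℕ, p.Prime → p ≤ w → p ∣ W) (S : Finset ℕ)
    (hS : ∀ m ∈ S, m < T ∧ β * (W * (A + m)) ^ 2 ≤ x ^ 2 ∧ SBadT β W P T x (W * (A + m))) :
    (S.card : ℝ) ≤ ∑ p ∈ (Ioc w T).filter (fun p => p.Prime ∧ p ∣ x), ((T : ℝ) / p + 1) +
      (4 * T / w + 4 * P) := by
  classical
  set Q1 := (Ioc w T).filter (fun p => p.Prime ∧ p ∣ x) with hQ1
  set Q2 := (Ioc w P).filter (fun p => p.Prime ∧ ¬ p ∣ W ∧ ¬ p ∣ x) with hQ2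
  set F1 : ℕ → Finset ℕ := fun p => if p ∣ W then ∅ else (range T).filter (fun m => p ∣ A + m)
    with hF1
  set F2 : ℕ → Finset ℕ := fun p => (range T).filter (fun m => β * (W * (A + m)) ^ 2 ≤ x ^ 2 ∧
    (p ^ 2 ∣ x ^ 2 + β * (W * (A + m)) ^ 2 ∨ p ^ 2 ∣ x ^ 2 - β * (W * (A + m)) ^ 2)) with hF2
  have hsub : S ⊆ Q1.biUnion F1 ∪ Q2.biUnion F2 := by
    intro m hm
    obtain ⟨h1, h4, h3⟩ := hS m hm
    rw [mem_union]
    rcases h3 with h3 | h3
    · left
      obtain ⟨p, hp, hpW, hpT, hpx, hpy⟩ := h3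
      rw [mem_biUnion]
      refine ⟨p, ?_, ?_⟩
      · rw [hQ1, mem_filter, mem_Ioc]
        refine ⟨⟨?_, hpT⟩, hp, hpx⟩
        by_contra hcon
        push Not at hcon
        exact hpW (hpw p hp hcon)
      · simp only [hF1]
        rw [if_neg hpW, mem_filter, mem_range]
        refine ⟨h1, ?_⟩
        rcases (hp.dvd_mul).mp hpy with h | h
        · exact absurd h hpW
        · exact h
    · right
      obtain ⟨p, hp, hpW, hpP, hpy, hd⟩ := h3
      rw [mem_biUnion]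
      refine ⟨p, ?_, ?_⟩
      · rw [hQ2, mem_filter, mem_Ioc]
        refine ⟨⟨?_, hpP⟩, hp, hpW, ?_⟩
        · by_contra hcon
          push Not at hcon
          exact hpW (hpw p hp hcon)
        · intro hpx
          apply hpy
          have hpx2 : p ∣ x ^ 2 := Dvd.dvd.pow hpx (by norm_num)
          have h5 : p ∣ β * (W * (A + m)) ^ 2 := by
            rcases hd with hd | hd
            · exact (Nat.dvd_add_right hpx2).mp ((dvd_pow_self p (by norm_num)).trans hd)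
            · have h6 : p ∣ x ^ 2 - β * (W * (A + m)) ^ 2 :=
                (dvd_pow_self p (by norm_num)).trans hd
              have e : β * (W * (A + m)) ^ 2 = x ^ 2 - (x ^ 2 - β * (W * (A + m)) ^ 2) := by omega
              rw [e]
              exact Nat.dvd_sub hpx2 h6
          rcases (hp.dvd_mul).mp h5 with h | h
          · exact absurd (h.trans hβW) hpW
          · exact hp.dvd_of_dvd_pow h
      · rw [hF2]
        simp only [mem_filter, mem_range]
        exact ⟨h1, h4, hd⟩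
  have hcard := card_le_card hsub
  have hu := card_union_le (Q1.biUnion F1) (Q2.biUnion F2)
  have c1 : ((Q1.biUnion F1).card : ℝ) ≤ ∑ p ∈ Q1, ((T : ℝ) / p + 1) := by
    have h1 : ((Q1.biUnion F1).card : ℝ) ≤ ∑ p ∈ Q1, ((F1 p).card : ℝ) := by
      exact_mod_cast card_biUnion_le
    refine h1.trans (sum_le_sum ?_)
    intro p hp
    rw [hQ1, mem_filter] at hp
    have hpp : p.Prime := hp.2.1
    simp only [hF1]
    split_ifs with hpW
    · simp only [card_empty, Nat.cast_zero]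
      positivity
    · have h3 := card_class' A T p 0 hpp.pos ((range T).filter (fun m => p ∣ A + m)) (by
        intro i hi
        rw [mem_filter, mem_range] at hi
        exact ⟨hi.1, (Nat.modEq_zero_iff_dvd).mpr hi.2⟩)
      calc (((range T).filter (fun m => p ∣ A + m)).card : ℝ) ≤ ((T / p + 1 : ℕ) : ℝ) := by
            exact_mod_cast h3
        _ = ((T / p : ℕ) : ℝ) + 1 := by push_cast; ring
        _ ≤ T / p + 1 := by
          have := @Nat.cast_div_le ℝ _ _ _ T p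
          linarith
  have c2 : ((Q2.biUnion F2).card : ℝ) ≤ 4 * T / w + 4 * P := by
    have h1 : ((Q2.biUnion F2).card : ℝ) ≤ ∑ p ∈ Q2, ((F2 p).card : ℝ) := by
      exact_mod_cast card_biUnion_le
    have h2 : ∀ p ∈ Q2, ((F2 p).card : ℝ) ≤ 4 * T * ((p : ℝ) ^ 2)⁻¹ + 4 := by
      intro p hp
      rw [hQ2, mem_filter, mem_Ioc] at hp
      obtain ⟨⟨hpw1, hpP⟩, hpp, hpW, hpx⟩ := hp
      have h5 := card_sq_two' A T p W x β hpp hpW (fun h => hpW (h.trans h2W))
        (fun h => hpW (h.trans hβW)) hpx (F2 p) (by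
          intro i hi
          simp only [hF2, mem_filter, mem_range] at hi
          exact hi)
      calc ((F2 p).card : ℝ) ≤ ((4 * (T / p ^ 2 + 1) : ℕ) : ℝ) := by exact_mod_cast h5
        _ = 4 * ((T / p ^ 2 : ℕ) : ℝ) + 4 := by push_cast; ring
        _ ≤ 4 * ((T : ℝ) / ((p ^ 2 : ℕ) : ℝ)) + 4 := by
          have := @Nat.cast_div_le ℝ _ _ _ T (p ^ 2)
          linarith
        _ = 4 * T * ((p : ℝ) ^ 2)⁻¹ + 4 := by
          push_cast
          rw [div_eq_mul_inv]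
          ring
    have h3 : (Q2.card : ℝ) ≤ P := by
      have : Q2.card ≤ (Ioc w P).card := card_le_card (filter_subset _ _)
      rw [Nat.card_Ioc] at this
      have h4 : Q2.card ≤ P := by omega
      exact_mod_cast h4
    have h4 := sum_inv_sq w P hw Q2 (by
      intro p hp
      rw [hQ2, mem_filter, mem_Ioc] at hp
      exact hp.1)
    calc ((Q2.biUnion F2).card : ℝ) ≤ ∑ p ∈ Q2, ((F2 p).card : ℝ) := h1
      _ ≤ ∑ p ∈ Q2, (4 * T * ((p : ℝ) ^ 2)⁻¹ + 4) := sum_le_sum h2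
      _ = 4 * T * ∑ p ∈ Q2, ((p : ℝ) ^ 2)⁻¹ + Q2.card * 4 := by
        rw [sum_add_distrib, ← mul_sum, sum_const, nsmul_eq_mul]
      _ ≤ 4 * T * (w : ℝ)⁻¹ + P * 4 := by
        have hT : (0 : ℝ) ≤ 4 * (T : ℝ) := by positivity
        have h6 := mul_le_mul_of_nonneg_left h4 hT
        linarith
      _ = 4 * T / w + 4 * P := by
        rw [div_eq_mul_inv]
        ring
  have hcR : (S.card : ℝ) ≤ ((Q1.biUnion F1).card : ℝ) + (Q2.biUnion F2).card := by
    have : S.card ≤ (Q1.biUnion F1).card + (Q2.biUnion F2).card := by omega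
    exact_mod_cast this
  linarith

lemma sum_inv_le_log (w T : ℕ) : ∑ p ∈ Ioc w T, (p : ℝ)⁻¹ ≤ 1 + Real.log T := by
  have h1 : ∑ p ∈ Ioc w T, (p : ℝ)⁻¹ ≤ ∑ p ∈ Icc 1 T, (p : ℝ)⁻¹ := by
    apply sum_le_sum_of_subset_of_nonneg
    · intro p hp
      rw [mem_Ioc] at hp
      rw [mem_Icc]
      omega
    · intro _ _ _
      positivity
  have h2 := harmonic_le_one_add_log T
  rw [harmonic_eq_sum_Icc] at h2
  push_cast at h2
  linarith

/-- sum over the window of the common divisors -/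
lemma sum_commonT (W w N T i0 : ℕ) (hw : 0 < w) (hN : 1 < N) :
    ∑ l ∈ range N, ∑ p ∈ (Ioc w T).filter (fun p => p.Prime ∧ p ∣ 1 + W * (i0 + l)),
      ((T : ℝ) / p + 1) ≤ 2 * N * T / w + 2 * T * (1 + Real.log T) := by
  classical
  have hNR : (0 : ℝ) < N := by
    have : 0 < N := by omega
    exact_mod_cast this
  have e2 : ∑ l ∈ range N, ∑ p ∈ (Ioc w T).filter (fun p => p.Prime ∧ p ∣ 1 + W * (i0 + l)),
      ((T : ℝ) / p + 1) = ∑ p ∈ Ioc w T, ∑ l ∈ range N,
        if p.Prime ∧ p ∣ 1 + W * (i0 + l) then ((T : ℝ) / p + 1) else 0 := by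
    rw [sum_comm]
    apply sum_congr rfl
    intro l _
    rw [sum_filter]
  rw [e2]
  have h3 : ∀ p ∈ Ioc w T, (∑ l ∈ range N,
      if p.Prime ∧ p ∣ 1 + W * (i0 + l) then ((T : ℝ) / p + 1) else 0) ≤
      2 * N * T * ((p : ℝ) ^ 2)⁻¹ + 2 * T * (p : ℝ)⁻¹ := by
    intro p hp
    rw [mem_Ioc] at hp
    have hp0 : 0 < p := by omega
    have hpR : (0 : ℝ) < p := by exact_mod_cast hp0
    have hpT : (p : ℝ) ≤ T := by exact_mod_cast hp.2
    rw [← sum_filter, sum_const, nsmul_eq_mul]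
    have hnn : (0 : ℝ) ≤ 2 * N * T * ((p : ℝ) ^ 2)⁻¹ + 2 * T * (p : ℝ)⁻¹ := by positivity
    by_cases hpp : p.Prime
    · by_cases hpW : p ∣ W
      · have he : (range N).filter (fun l => p.Prime ∧ p ∣ 1 + W * (i0 + l)) = ∅ := by
          rw [Finset.filter_eq_empty_iff]
          intro l _ h
          have h5 : p ∣ W * (i0 + l) := Dvd.dvd.mul_right hpW _
          have h6 : p ∣ 1 := (Nat.dvd_add_left h5).mp h.2
          exact hpp.one_lt.ne' (Nat.dvd_one.mp h6)
        rw [he]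
        simp only [card_empty, Nat.cast_zero, zero_mul]
        exact hnn
      · have h5 := card_lin' i0 N p W hpp hpW
          ((range N).filter (fun l => p.Prime ∧ p ∣ 1 + W * (i0 + l))) (by
          intro i hi
          rw [mem_filter, mem_range] at hi
          exact ⟨hi.1, hi.2.2⟩)
        have h6 : (((range N).filter (fun l => p.Prime ∧ p ∣ 1 + W * (i0 + l))).card : ℝ) ≤
            N / p + 1 := by
          calc (((range N).filter (fun l => p.Prime ∧ p ∣ 1 + W * (i0 + l))).card : ℝ)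
              ≤ ((N / p + 1 : ℕ) : ℝ) := by exact_mod_cast h5
            _ = ((N / p : ℕ) : ℝ) + 1 := by push_cast; ring
            _ ≤ N / p + 1 := by
              have := @Nat.cast_div_le ℝ _ _ _ N p
              linarith
        have h7 : (T : ℝ) / p + 1 ≤ 2 * T / p := by
          have : 1 ≤ (T : ℝ) / p := by
            rw [le_div_iff₀ hpR]
            linarith
          have e : 2 * (T : ℝ) / p = T / p + T / p := by ring
          rw [e]
          linarith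
        calc _ ≤ ((N : ℝ) / p + 1) * (2 * (T : ℝ) / p) :=
              mul_le_mul h6 h7 (by positivity) (by positivity)
          _ = 2 * N * T * ((p : ℝ) ^ 2)⁻¹ + 2 * T * (p : ℝ)⁻¹ := by
              field_simp
    · have he : (range N).filter (fun l => p.Prime ∧ p ∣ 1 + W * (i0 + l)) = ∅ := by
        rw [Finset.filter_eq_empty_iff]
        intro l _ h
        exact hpp h.1
      rw [he]
      simp only [card_empty, Nat.cast_zero, zero_mul]
      exact hnn
  have h4 := sum_le_sum h3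
  rw [sum_add_distrib, ← mul_sum, ← mul_sum] at h4
  have h5 := sum_inv_sq w T hw (Ioc w T) (by
    intro p hp
    rwa [mem_Ioc] at hp)
  have h6 : (0 : ℝ) ≤ 2 * N * T := by positivity
  have h7 := mul_le_mul_of_nonneg_left h5 h6
  have h8 : (0 : ℝ) ≤ 2 * T := by positivity
  have h9 := mul_le_mul_of_nonneg_left (sum_inv_le_log w T) h8
  have e3 : 2 * (N : ℝ) * T / w = 2 * N * T * (w : ℝ)⁻¹ := by rw [div_eq_mul_inv]
  rw [e3]
  linarith

/-- the small obstructions in the window -/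
theorem small_allT (β W P w N T i0 : ℕ) (j0 : ℕ → ℕ) (hw : 0 < w) (hN : 1 < N)
    (h2W : 2 ∣ W) (hβW : β ∣ W) (hpw : ∀ p : ℕ, p.Prime → p ≤ w → p ∣ W)
    (G : Finset (ℕ × ℕ))
    (hG : ∀ q ∈ G, q.1 < N ∧ q.2 < T ∧
      β * (W * (j0 q.1 + q.2)) ^ 2 ≤ (1 + W * (i0 + q.1)) ^ 2 ∧
      SBadT β W P T (1 + W * (i0 + q.1)) (W * (j0 q.1 + q.2))) :
    (G.card : ℝ) ≤ 6 * N * T / w + 2 * T * (1 + Real.log T) + 4 * N * P := by
  classical
  have h1 : G.card = ∑ l ∈ range N, (G.filter (fun q => q.1 = l)).card := by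
    apply card_eq_sum_card_fiberwise
    intro q hq
    rw [coe_range, Set.mem_Iio]
    exact (hG q hq).1
  have h2 : ∀ l ∈ range N, ((G.filter (fun q => q.1 = l)).card : ℝ) ≤
      ∑ p ∈ (Ioc w T).filter (fun p => p.Prime ∧ p ∣ 1 + W * (i0 + l)), ((T : ℝ) / p + 1) +
      (4 * T / w + 4 * P) := by
    intro l _
    have h3 : (G.filter (fun q => q.1 = l)).card =
        ((G.filter (fun q => q.1 = l)).image Prod.snd).card := by
      rw [card_image_of_injOn]
      intro a ha b hb hab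
      rw [coe_filter] at ha hb
      exact Prod.ext (ha.2.trans hb.2.symm) hab
    rw [h3]
    apply small_oneT β W P w (j0 l) T (1 + W * (i0 + l)) hw h2W hβW hpw
    intro m hm
    rw [mem_image] at hm
    obtain ⟨q, hq, rfl⟩ := hm
    rw [mem_filter] at hq
    obtain ⟨hqG, rfl⟩ := hq
    obtain ⟨g1, g2, g3, g4⟩ := hG q hqG
    exact ⟨g2, g3, g4⟩
  have h4 : (G.card : ℝ) = ∑ l ∈ range N, ((G.filter (fun q => q.1 = l)).card : ℝ) := by
    rw [h1]
    push_cast
    rfl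
  rw [h4]
  refine (sum_le_sum h2).trans ?_
  rw [sum_add_distrib, sum_const, card_range, nsmul_eq_mul]
  have h5 := sum_commonT W w N T i0 hw hN
  have e : (6 : ℝ) * N * T / w = 2 * N * T / w + N * (4 * T / w) := by ring
  rw [e]
  linarith

/-- pairs with a large common prime factor -/
theorem common_card (A B T : ℕ) (hT : 0 < T) (L : Finset (ℕ × ℕ))
    (hL : ∀ q ∈ L, 0 < q.1 ∧ 0 < q.2 ∧ q.1 ≤ A ∧ q.2 ≤ B ∧
      ∃ p : ℕ, p.Prime ∧ T < p ∧ p ∣ q.1 ∧ p ∣ q.2) :
    (L.card : ℝ) ≤ A * B / T := by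
  classical
  set Q := Ioc T B with hQ
  set F : ℕ → Finset (ℕ × ℕ) := fun p =>
    ((Ioc 0 A).filter (fun x => p ∣ x)) ×ˢ ((Ioc 0 B).filter (fun x => p ∣ x)) with hF
  have hsub : L ⊆ Q.biUnion F := by
    intro q hq
    obtain ⟨h1, h2, h3, h4, p, hp, hTp, hpx, hpy⟩ := hL q hq
    rw [mem_biUnion]
    refine ⟨p, ?_, ?_⟩
    · rw [hQ, mem_Ioc]
      exact ⟨hTp, (Nat.le_of_dvd h2 hpy).trans h4⟩
    · simp only [hF, mem_product, mem_filter, mem_Ioc]
      exact ⟨⟨⟨h1, h3⟩, hpx⟩, ⟨⟨h2, h4⟩, hpy⟩⟩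
  have h1 : (L.card : ℝ) ≤ ∑ p ∈ Q, ((F p).card : ℝ) := by
    have := (card_le_card hsub).trans card_biUnion_le
    exact_mod_cast this
  have h2 : ∀ p ∈ Q, ((F p).card : ℝ) ≤ (A * B) * ((p : ℝ) ^ 2)⁻¹ := by
    intro p hp
    rw [hQ, mem_Ioc] at hp
    have hp0 : 0 < p := by omega
    have hpR : (0 : ℝ) < p := by exact_mod_cast hp0
    simp only [hF]
    rw [card_product, Nat.Ioc_filter_dvd_card_eq_div, Nat.Ioc_filter_dvd_card_eq_div]
    push_cast
    calc ((A / p : ℕ) : ℝ) * ((B / p : ℕ) : ℝ) ≤ (A / p) * (B / p) :=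
          mul_le_mul Nat.cast_div_le Nat.cast_div_le (by positivity) (by positivity)
      _ = (A * B) * ((p : ℝ) ^ 2)⁻¹ := by field_simp
  have h3 := sum_inv_sq T B hT Q (by
    intro p hp
    rwa [hQ, mem_Ioc] at hp)
  calc (L.card : ℝ) ≤ ∑ p ∈ Q, ((F p).card : ℝ) := h1
    _ ≤ ∑ p ∈ Q, (A * B) * ((p : ℝ) ^ 2)⁻¹ := sum_le_sum h2
    _ = (A * B) * ∑ p ∈ Q, ((p : ℝ) ^ 2)⁻¹ := by rw [← mul_sum]
    _ ≤ (A * B) * (T : ℝ)⁻¹ := mul_le_mul_of_nonneg_left h3 (by positivity)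
    _ = A * B / T := by rw [div_eq_mul_inv]

end Pool.Agent.Run7.H246.CN
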