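import Mathlib
import Pool.Agent.Run7.h246.CN.U3

set_option autoImplicit false

/-! # Squarefree congruent numbers in almost all intervals `[t, t + K ^ 27 t ^ (9/16)]`
(helper246) -/

namespace Pool.Agent.Run7.H246.CN

open Finset

/-- **Congruent numbers in almost all short intervals.** -/
theorem main_unif (β q : ℕ) (hβ : Squarefree β) (hq : 0 < q) :
    ∃ C : ℝ, 0 < C ∧ ∀ X : ℕ, 1 ≤ X → ∀ K : ℝ, 1 ≤ K → K ^ 128 ≤ X → ∀ T : Finset ℕ,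
      (∀ t ∈ T, t ≤ X ∧ ¬ ∃ n : ℕ, t ≤ n ∧ (n : ℝ) ≤ t + K ^ 27 * (t : ℝ) ^ (9 / 16 : ℝ) ∧
        Squarefree n ∧ n ≡ β [MOD q] ∧ Cong n) → (T.card : ℝ) ≤ C * X / K := by
  classical
  obtain ⟨N₀, hN₀, hsc⟩ := scaleT β q hβ hq
  refine ⟨2 * (N₀ + 1) + 3 * 2 ^ 18, by positivity, ?_⟩
  intro X hX K hK hKX T hT
  have hXR : (1 : ℝ) ≤ X := by exact_mod_cast hX
  have hX0 : (0 : ℝ) < X := by linarith
  have hK0 : 0 < K := by linarith
  have hTX : (T.card : ℝ) ≤ 2 * X := by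
    have h1 : T ⊆ range (X + 1) := by
      intro t ht
      rw [mem_range]
      exact Nat.lt_succ_of_le (hT t ht).1
    have h2 := card_le_card h1
    rw [card_range] at h2
    have h3 : (T.card : ℝ) ≤ X + 1 := by exact_mod_cast h2
    linarith
  rw [le_div_iff₀ hK0]
  rcases lt_or_ge K (N₀ + 1) with hsmallK | hbigK
  · -- small `K`
    have h1 : (T.card : ℝ) * K ≤ 2 * X * (N₀ + 1) :=
      mul_le_mul hTX hsmallK.le hK0.le (by positivity)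
    have h2 : (0 : ℝ) ≤ 3 * 2 ^ 18 * X := by positivity
    nlinarith
  -- large `K`
  set N : ℕ := ⌊K⌋₊ with hN
  have hNK : (N : ℝ) ≤ K := Nat.floor_le hK0.le
  have hKN : K ≤ 2 * N := by
    have h1 := Nat.lt_floor_add_one K
    have h2 : (1 : ℝ) ≤ N := by
      have : 1 ≤ ⌊K⌋₊ := Nat.le_floor (by exact_mod_cast hK)
      exact_mod_cast this
    linarith
  have hNN : N₀ ≤ N := by
    apply Nat.le_floor
    linarith
  have hN8 : 8 ≤ N := by omega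
  have hNR : (8 : ℝ) ≤ N := by exact_mod_cast hN8
  have hN0 : (0 : ℝ) < N := by linarith
  clear_value N
  set ρ : ℝ := (2 * (X : ℝ)) ^ (1 / 16 : ℝ) with hρ
  have hρ0 : 0 < ρ := by rw [hρ]; positivity
  have hρpow : ρ ^ 16 = 2 * X := by
    rw [hρ, ← Real.rpow_natCast, ← Real.rpow_mul (by positivity)]
    norm_num
  have hKρ : K ^ 8 ≤ ρ := by
    have h1 : (K ^ 8) ^ 16 ≤ ρ ^ 16 := by
      have e : (K ^ 8) ^ 16 = K ^ 128 := by ring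
      rw [hρpow, e]
      linarith
    exact le_of_pow_le_pow_left₀ (by norm_num) hρ0.le h1
  have hρ1 : 1 ≤ ρ := by
    refine le_trans ?_ hKρ
    exact one_le_pow₀ hK
  set Y : ℕ := ⌈ρ⌉₊ with hY
  have hYlow : ρ ≤ Y := Nat.le_ceil ρ
  have hYup : (Y : ℝ) ≤ 2 * ρ := by
    have := (Nat.ceil_lt_add_one hρ0.le).le
    linarith
  have hNY : N ^ 8 ≤ Y := by
    have h1 : (N : ℝ) ^ 8 ≤ Y := (pow_le_pow_left₀ hN0.le hNK 8).trans (hKρ.trans hYlow)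
    exact_mod_cast h1
  clear_value Y
  have hYR : (N : ℝ) ^ 8 ≤ Y := by exact_mod_cast hNY
  have hY0 : (0 : ℝ) < Y := lt_of_lt_of_le (by positivity) hYR
  have hZlow : 2 * (X : ℝ) ≤ (Y : ℝ) ^ 16 := by
    rw [← hρpow]
    exact pow_le_pow_left₀ hρ0.le hYlow _
  have hZup : (Y : ℝ) ^ 16 ≤ 2 ^ 17 * X := by
    calc (Y : ℝ) ^ 16 ≤ (2 * ρ) ^ 16 := pow_le_pow_left₀ hY0.le hYup _
      _ = 2 ^ 16 * (2 * X) := by rw [mul_pow, hρpow]
      _ = 2 ^ 17 * X := by ring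
  have hHX : (Y : ℝ) ^ 9 * (N : ℝ) ^ 25 ≤ X := by
    have h1 : (N : ℝ) ^ 25 * 2 ^ 17 ≤ (Y : ℝ) ^ 7 := by
      have h2 : (2 : ℝ) ^ 17 ≤ (N : ℝ) ^ 31 := by
        calc (2 : ℝ) ^ 17 ≤ 8 ^ 31 := by norm_num
          _ ≤ (N : ℝ) ^ 31 := pow_le_pow_left₀ (by norm_num) hNR 31
      calc (N : ℝ) ^ 25 * 2 ^ 17 ≤ (N : ℝ) ^ 25 * (N : ℝ) ^ 31 :=
            mul_le_mul_of_nonneg_left h2 (by positivity)
        _ = ((N : ℝ) ^ 8) ^ 7 := by ring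
        _ ≤ (Y : ℝ) ^ 7 := pow_le_pow_left₀ (by positivity) hYR 7
    have h3 : ((Y : ℝ) ^ 9 * (N : ℝ) ^ 25) * 2 ^ 17 ≤ X * 2 ^ 17 := by
      calc ((Y : ℝ) ^ 9 * (N : ℝ) ^ 25) * 2 ^ 17 = (Y : ℝ) ^ 9 * ((N : ℝ) ^ 25 * 2 ^ 17) := by ring
        _ ≤ (Y : ℝ) ^ 9 * (Y : ℝ) ^ 7 := mul_le_mul_of_nonneg_left h1 (by positivity)
        _ = (Y : ℝ) ^ 16 := by ring
        _ ≤ 2 ^ 17 * X := hZup
        _ = X * 2 ^ 17 := by ring
    exact le_of_mul_le_mul_right h3 (by positivity)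
  have hHXn : Y ^ 9 * N ^ 25 ≤ X := by exact_mod_cast hHX
  have hZn : 2 * X ≤ Y ^ 16 := by exact_mod_cast hZlow
  -- splitting
  have hsplit := card_filter_add_card_filter_not (s := T) (fun t : ℕ => t * N ^ 3 < Y ^ 16)
  have hN0n : 0 < N := by omega
  have hsmall : ((T.filter (fun t : ℕ => t * N ^ 3 < Y ^ 16)).card : ℝ) ≤
      (Y : ℝ) ^ 16 / N + 1 := by
    have h1 : T.filter (fun t : ℕ => t * N ^ 3 < Y ^ 16) ⊆ range (Y ^ 16 / N + 1) := by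
      intro t ht
      rw [mem_filter] at ht
      rw [mem_range]
      apply Nat.lt_succ_of_le
      rw [Nat.le_div_iff_mul_le hN0n]
      have h2 : t * N ≤ t * N ^ 3 := Nat.mul_le_mul_left _ (Nat.le_self_pow (by norm_num) N)
      omega
    have h2 := card_le_card h1
    rw [card_range] at h2
    have h3 : ((T.filter (fun t : ℕ => t * N ^ 3 < Y ^ 16)).card : ℝ) ≤
        ((Y ^ 16 / N : ℕ) : ℝ) + 1 := by exact_mod_cast h2
    have h4 := @Nat.cast_div_le ℝ _ _ _ (Y ^ 16) N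
    push_cast at h4
    linarith
  have hbig : ((T.filter (fun t : ℕ => ¬ t * N ^ 3 < Y ^ 16)).card : ℝ) ≤ (Y : ℝ) ^ 16 / N := by
    rw [le_div_iff₀ hN0]
    have hc : (T.filter (fun t : ℕ => ¬ t * N ^ 3 < Y ^ 16)).card =
        ((T.filter (fun t : ℕ => ¬ t * N ^ 3 < Y ^ 16)).image
          (fun t => t + Y ^ 9 * N ^ 25)).card := by
      rw [card_image_of_injective]
      exact add_left_injective _
    rw [hc]
    have e16 : (Y : ℝ) ^ 16 = ((Y ^ 16 : ℕ) : ℝ) := by push_cast; rfl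
    rw [e16]
    apply hsc N hNN Y hNY
    intro t' ht'
    rw [mem_image] at ht'
    obtain ⟨t, ht, rfl⟩ := ht'
    rw [mem_filter, not_lt] at ht
    obtain ⟨htT, htZ⟩ := ht
    obtain ⟨htX, hno⟩ := hT t htT
    refine ⟨by omega, htZ.trans (Nat.mul_le_mul_right _ (Nat.le_add_right _ _)), ?_⟩
    rintro ⟨n, hn1, hn2, hn3, hn4, hn5⟩
    apply hno
    refine ⟨n, by omega, ?_, hn3, hn4, hn5⟩
    have h1 : (n : ℝ) ≤ t + (Y : ℝ) ^ 9 * (N : ℝ) ^ 25 := by exact_mod_cast hn1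
    have htZR : (Y : ℝ) ^ 16 ≤ t * (N : ℝ) ^ 3 := by exact_mod_cast htZ
    have ht0 : (0 : ℝ) ≤ t := by positivity
    have h2 : (Y : ℝ) ^ 9 ≤ (t : ℝ) ^ (9 / 16 : ℝ) * (N : ℝ) ^ 2 := by
      have h3 : ((Y : ℝ) ^ 16) ^ (9 / 16 : ℝ) ≤ (t * (N : ℝ) ^ 3) ^ (9 / 16 : ℝ) :=
        Real.rpow_le_rpow (by positivity) htZR (by norm_num)
      rw [Real.mul_rpow ht0 (by positivity)] at h3
      have e1 : ((Y : ℝ) ^ 16) ^ (9 / 16 : ℝ) = (Y : ℝ) ^ 9 := by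
        rw [← Real.rpow_natCast, ← Real.rpow_mul hY0.le, ← Real.rpow_natCast]
        norm_num
      have e2 : ((N : ℝ) ^ 3) ^ (9 / 16 : ℝ) ≤ (N : ℝ) ^ 2 := by
        rw [← Real.rpow_natCast, ← Real.rpow_mul hN0.le, ← Real.rpow_natCast]
        apply Real.rpow_le_rpow_of_exponent_le (by linarith)
        norm_num
      rw [e1] at h3
      refine h3.trans (mul_le_mul_of_nonneg_left e2 (by positivity))
    have h4 : (Y : ℝ) ^ 9 * (N : ℝ) ^ 25 ≤ K ^ 27 * (t : ℝ) ^ (9 / 16 : ℝ) := by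
      calc (Y : ℝ) ^ 9 * (N : ℝ) ^ 25
          ≤ ((t : ℝ) ^ (9 / 16 : ℝ) * (N : ℝ) ^ 2) * (N : ℝ) ^ 25 :=
            mul_le_mul_of_nonneg_right h2 (by positivity)
        _ = (N : ℝ) ^ 27 * (t : ℝ) ^ (9 / 16 : ℝ) := by ring
        _ ≤ K ^ 27 * (t : ℝ) ^ (9 / 16 : ℝ) :=
            mul_le_mul_of_nonneg_right (pow_le_pow_left₀ hN0.le hNK 27) (by positivity)
    linarith
  have hcR : (T.card : ℝ) ≤ 3 * ((Y : ℝ) ^ 16 / N) := by
    have h1 : (T.card : ℝ) = ((T.filter (fun t : ℕ => t * N ^ 3 < Y ^ 16)).card : ℝ) +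
        ((T.filter (fun t : ℕ => ¬ t * N ^ 3 < Y ^ 16)).card : ℝ) := by
      rw [← hsplit]
      push_cast
      ring
    have h2 : 1 ≤ (Y : ℝ) ^ 16 / N := by
      rw [le_div_iff₀ hN0, one_mul]
      have h3 : (N : ℝ) ≤ (N : ℝ) ^ 8 := le_self_pow₀ (by linarith) (by norm_num)
      have hY1 : (1 : ℝ) ≤ Y := by linarith
      have h4 : (Y : ℝ) ≤ (Y : ℝ) ^ 16 := le_self_pow₀ hY1 (by norm_num)
      linarith
    linarith
  have h1 : 3 * ((Y : ℝ) ^ 16 / N) ≤ 3 * (2 ^ 17 * X / N) := by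
    apply mul_le_mul_of_nonneg_left _ (by norm_num)
    exact div_le_div_of_nonneg_right hZup hN0.le
  have h2 : (T.card : ℝ) * K ≤ 3 * (2 ^ 17 * X / N) * (2 * N) :=
    mul_le_mul (hcR.trans h1) hKN hK0.le (by positivity)
  have e3 : 3 * (2 ^ 17 * (X : ℝ) / N) * (2 * N) = 3 * 2 ^ 18 * X := by
    have e4 : 3 * (2 ^ 17 * (X : ℝ) / N) * (2 * N) = 3 * 2 ^ 18 * X * (N / N) := by ring
    rw [e4, div_self hN0.ne', mul_one]
  rw [e3] at h2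
  have h3 : (0 : ℝ) ≤ 2 * (N₀ + 1) * X := by positivity
  nlinarith

end Pool.Agent.Run7.H246.CN
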