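import Mathlib
import Pool.Agent.Run7.h246.CN.Arith
import Pool.Agent.Run7.h246.CN.Greedy
import Pool.Agent.Run7.h246.CN.Bad

set_option autoImplicit false

/-! # Squarefree congruent numbers in almost all intervals `[t, t + C t ^ (9/16)]` (helper246) -/

namespace Pool.Agent.Run7.H246.CN

open Finset Filter

lemma final_bound (b U W w y I J P δ : ℝ) (hb : 0 < b) (hU : 1 ≤ U) (hW : W = 8 * U ^ 4)
    (hw : 0 < w) (hy : 0 < y) (hδ : 0 < δ) (hJ0 : 0 ≤ J) (hP0 : 0 ≤ P)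
    (hI : W * I ≤ 3 * y ^ 4) (hJ : W * J ≤ 5 * U * y ^ 3) (hwb : 18750 * b ≤ δ * w)
    (hy1 : 6000 * b * U ^ 3 ≤ δ * y ^ 3) (hy2 : 50000 * b * U ^ 5 ≤ δ * y)
    (hP : 40000 * b * U ^ 4 * P ≤ δ * y ^ 4) :
    (I + 5 * (I * J) / w + J ^ 2 + 4 * J * P) * (500 * b * W * U ^ 3 * y ^ 9) ≤ δ * y ^ 16 := by
  have hU0 : 0 < U := by linarith
  have hW0 : 0 < W := by rw [hW]; positivity
  have hW1 : 1 ≤ W := by
    rw [hW]
    have : 1 ≤ U ^ 4 := one_le_pow₀ hU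
    linarith
  have t1 : I * (500 * b * W * U ^ 3 * y ^ 9) ≤ δ / 4 * y ^ 16 := by
    calc I * (500 * b * W * U ^ 3 * y ^ 9) = (W * I) * (500 * b * U ^ 3 * y ^ 9) := by ring
      _ ≤ (3 * y ^ 4) * (500 * b * U ^ 3 * y ^ 9) :=
          mul_le_mul_of_nonneg_right hI (by positivity)
      _ = (6000 * b * U ^ 3) * (y ^ 13 / 4) := by ring
      _ ≤ (δ * y ^ 3) * (y ^ 13 / 4) := mul_le_mul_of_nonneg_right hy1 (by positivity)
      _ = δ / 4 * y ^ 16 := by ring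
  have t2 : 5 * (I * J) / w * (500 * b * W * U ^ 3 * y ^ 9) ≤ δ / 4 * y ^ 16 := by
    have h1 : (W * I) * (W * J) ≤ (3 * y ^ 4) * (5 * U * y ^ 3) :=
      mul_le_mul hI hJ (by positivity) (by positivity)
    have h2 : 5 * (I * J) / w * (500 * b * W * U ^ 3 * y ^ 9) =
        ((W * I) * (W * J)) * (2500 * b * U ^ 3 * y ^ 9 / (W * w)) := by
      field_simp
      ring
    rw [h2]
    calc ((W * I) * (W * J)) * (2500 * b * U ^ 3 * y ^ 9 / (W * w))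
        ≤ ((3 * y ^ 4) * (5 * U * y ^ 3)) * (2500 * b * U ^ 3 * y ^ 9 / (W * w)) :=
          mul_le_mul_of_nonneg_right h1 (by positivity)
      _ = (18750 * b) * (y ^ 16 / (4 * w)) := by
          rw [hW]
          field_simp
          ring
      _ ≤ (δ * w) * (y ^ 16 / (4 * w)) := mul_le_mul_of_nonneg_right hwb (by positivity)
      _ = δ / 4 * y ^ 16 := by
          field_simp
  have t3 : J ^ 2 * (500 * b * W * U ^ 3 * y ^ 9) ≤ δ / 4 * y ^ 16 := by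
    have h1 : (W * J) ^ 2 ≤ (5 * U * y ^ 3) ^ 2 := pow_le_pow_left₀ (by positivity) hJ 2
    calc J ^ 2 * (500 * b * W * U ^ 3 * y ^ 9)
        ≤ J ^ 2 * (500 * b * W * U ^ 3 * y ^ 9) * W := le_mul_of_one_le_right (by positivity) hW1
      _ = (W * J) ^ 2 * (500 * b * U ^ 3 * y ^ 9) := by ring
      _ ≤ (5 * U * y ^ 3) ^ 2 * (500 * b * U ^ 3 * y ^ 9) :=
          mul_le_mul_of_nonneg_right h1 (by positivity)
      _ = (50000 * b * U ^ 5) * (y ^ 15 / 4) := by ring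
      _ ≤ (δ * y) * (y ^ 15 / 4) := mul_le_mul_of_nonneg_right hy2 (by positivity)
      _ = δ / 4 * y ^ 16 := by ring
  have t4 : 4 * J * P * (500 * b * W * U ^ 3 * y ^ 9) ≤ δ / 4 * y ^ 16 := by
    calc 4 * J * P * (500 * b * W * U ^ 3 * y ^ 9)
        = (W * J) * (2000 * b * U ^ 3 * P * y ^ 9) := by ring
      _ ≤ (5 * U * y ^ 3) * (2000 * b * U ^ 3 * P * y ^ 9) :=
          mul_le_mul_of_nonneg_right hJ (by positivity)
      _ = (40000 * b * U ^ 4 * P) * (y ^ 12 / 4) := by ring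
      _ ≤ (δ * y ^ 4) * (y ^ 12 / 4) := mul_le_mul_of_nonneg_right hP (by positivity)
      _ = δ / 4 * y ^ 16 := by ring
  have e : (I + 5 * (I * J) / w + J ^ 2 + 4 * J * P) * (500 * b * W * U ^ 3 * y ^ 9) =
      I * (500 * b * W * U ^ 3 * y ^ 9) + 5 * (I * J) / w * (500 * b * W * U ^ 3 * y ^ 9) +
      J ^ 2 * (500 * b * W * U ^ 3 * y ^ 9) + 4 * J * P * (500 * b * W * U ^ 3 * y ^ 9) := by ring
  rw [e]
  linarith

lemma primes_small (ε : ℝ) (hε : 0 < ε) :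
    ∃ Y₁ : ℕ, ∀ Y : ℕ, Y₁ ≤ Y → (Nat.primeCounting (3 * Y ^ 4) : ℝ) ≤ ε * (Y : ℝ) ^ 4 := by
  have h1 := Chebyshev.eventually_primeCounting_le (ε := 1) one_pos
  have h2 : ∀ᶠ x : ℝ in atTop, 3 * (Real.log 4 + 1) / ε ≤ Real.log x :=
    Real.tendsto_log_atTop.eventually_ge_atTop _
  obtain ⟨x0, hx0⟩ := Filter.eventually_atTop.mp (h1.and (h2.and (eventually_gt_atTop 1)))
  refine ⟨⌈x0⌉₊ + 1, ?_⟩
  intro Y hY
  have hY1 : 1 ≤ Y := by omega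
  have hYR : (1 : ℝ) ≤ Y := by exact_mod_cast hY1
  have hxY : x0 ≤ 3 * (Y : ℝ) ^ 4 := by
    have e1 : x0 ≤ (Y : ℝ) := (Nat.le_ceil x0).trans (by
      have : ⌈x0⌉₊ ≤ Y := by omega
      exact_mod_cast this)
    have e2 : (Y : ℝ) ≤ (Y : ℝ) ^ 4 := le_self_pow₀ hYR (by norm_num)
    have e3 : (0 : ℝ) ≤ (Y : ℝ) ^ 4 := by positivity
    linarith
  obtain ⟨g1, g2, g3⟩ := hx0 _ hxY
  have e4 : (3 * (Y : ℝ) ^ 4) = ((3 * Y ^ 4 : ℕ) : ℝ) := by push_cast; ring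
  have e5 : ⌊(3 * (Y : ℝ) ^ 4)⌋₊ = 3 * Y ^ 4 := by
    rw [e4, Nat.floor_natCast]
  rw [e5] at g1
  refine g1.trans ?_
  have hlog : 0 < Real.log (3 * (Y : ℝ) ^ 4) := Real.log_pos g3
  rw [div_le_iff₀ hlog]
  rw [div_le_iff₀ hε] at g2
  have hY4 : (0 : ℝ) ≤ (Y : ℝ) ^ 4 := by positivity
  calc (Real.log 4 + 1) * (3 * (Y : ℝ) ^ 4) = (3 * (Real.log 4 + 1)) * (Y : ℝ) ^ 4 := by ring
    _ ≤ (Real.log (3 * (Y : ℝ) ^ 4) * ε) * (Y : ℝ) ^ 4 := mul_le_mul_of_nonneg_right g2 hY4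
    _ = ε * (Y : ℝ) ^ 4 * Real.log (3 * (Y : ℝ) ^ 4) := by ring

/-- the core statement at the scale `Y ^ 16` -/
theorem scale (β q : ℕ) (hβ : Squarefree β) (hq : 0 < q) (δ : ℝ) (hδ : 0 < δ) :
    ∃ C₁ : ℕ, ∃ Y₀ : ℕ, ∀ Y : ℕ, Y₀ ≤ Y → ∀ T : Finset ℕ,
      (∀ t ∈ T, 1 ≤ t ∧ t ≤ Y ^ 16 ∧ ¬ ∃ n : ℕ, t ≤ n ∧ n ≤ t + C₁ * Y ^ 9 ∧ Squarefree n ∧
        n ≡ β [MOD q] ∧ Cong n) → (T.card : ℝ) ≤ δ * (Y : ℝ) ^ 16 := by
  classical
  have hβ0 : 0 < β := Nat.pos_of_ne_zero hβ.ne_zero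
  have hβR : (1 : ℝ) ≤ β := by exact_mod_cast hβ0
  obtain ⟨w, hw⟩ := exists_nat_ge (18750 * (β : ℝ) ^ 3 / δ)
  have hw' : 18750 * (β : ℝ) ^ 3 ≤ δ * ((w + 2 : ℕ) : ℝ) := by
    rw [div_le_iff₀ hδ] at hw
    push_cast
    nlinarith
  set v : ℕ := w + 2 with hv
  set U : ℕ := β * q * v.factorial with hU
  have hU0 : 0 < U := by
    rw [hU]
    have := Nat.factorial_pos v
    positivity
  have hUR : (1 : ℝ) ≤ U := by exact_mod_cast hU0
  set W : ℕ := 8 * U ^ 4 with hW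
  have hUW : U ∣ W := by
    rw [hW]
    exact Dvd.dvd.mul_left (dvd_pow_self _ (by norm_num)) _
  have hβW : β ∣ W := (Dvd.intro (q * v.factorial) (by rw [hU]; ring)).trans hUW
  have hqW : q ∣ W := (Dvd.intro (β * v.factorial) (by rw [hU]; ring)).trans hUW
  have h2W : 2 ∣ W := Dvd.intro (4 * U ^ 4) (by rw [hW]; ring)
  have hpw : ∀ p : ℕ, p.Prime → p ≤ v → p ∣ W := by
    intro p hp hpv
    exact ((hp.dvd_factorial.mpr hpv).trans (Dvd.intro_left (β * q) (by rw [hU]))).trans hUW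
  have hW0 : 0 < W := by rw [hW]; positivity
  have hWR : (0 : ℝ) < W := by exact_mod_cast hW0
  obtain ⟨Y₁, hY₁⟩ := primes_small (δ / (40000 * (β : ℝ) ^ 3 * (U : ℝ) ^ 4)) (by positivity)
  obtain ⟨Y₂, hY₂⟩ := exists_nat_ge (50000 * (β : ℝ) ^ 3 * (U : ℝ) ^ 5 / δ)
  refine ⟨500 * β ^ 3 * W * U ^ 3, Y₁ + Y₂ + W + 1, ?_⟩
  intro Y hY T hT
  have hYW : W ≤ Y := by omega
  have hY0 : 1 ≤ Y := by omega
  have hY4 : W ≤ Y ^ 4 := hYW.trans (Nat.le_self_pow (by norm_num) Y)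
  have hY3 : W ≤ U * Y ^ 3 := by
    calc W ≤ Y ^ 3 := hYW.trans (Nat.le_self_pow (by norm_num) Y)
      _ ≤ U * Y ^ 3 := Nat.le_mul_of_pos_left _ hU0
  set I : ℕ := 2 * Y ^ 4 / W + 1 with hI
  set J : ℕ := 4 * U * Y ^ 3 / W + 1 with hJ
  set B : Finset (ℕ × ℕ) := ((range I) ×ˢ (range J)).filter (fun p => BadPair β W p.1 p.2 ∧
    β * (W * p.2) ^ 2 < (1 + W * p.1) ^ 2 ∧ 2 * (1 + W * p.1) ^ 2 < (3 * Y ^ 4 + 1) ^ 2) with hB
  have hTsub : T ⊆ (B ×ˢ range (500 * β ^ 3 * W * U ^ 3 * Y ^ 9)).image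
      (fun p => β * (1 + W * p.1.1) ^ 4 - β ^ 3 * (W * p.1.2) ^ 4 - p.2) := by
    intro t ht
    obtain ⟨ht1, ht2, hno⟩ := hT t ht
    obtain ⟨i, hi, j, hj, r, hr, he, hxY⟩ := greedy β U W Y t hβ0 hU0 hW hY4 hY3 ht2
    rw [mem_image]
    refine ⟨((i, j), r), ?_, ?_⟩
    · rw [mem_product, mem_range]
      refine ⟨?_, hr⟩
      rw [hB, mem_filter, mem_product, mem_range, mem_range]
      have hn : 0 < t + r := by omega
      have hlt := lt_of_eq hβ0 hn he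
      refine ⟨⟨hi, hj⟩, ?_, hlt, ?_⟩
      · by_contra hbad
        apply hno
        have hx1 : 1 + W * i ≡ 1 [MOD W] := by
          have : 1 + W * i ≡ 1 + 0 [MOD W] :=
            Nat.ModEq.add_left 1 ((Nat.modEq_zero_iff_dvd).mpr (Dvd.intro _ rfl))
          rwa [Nat.add_zero] at this
        have hj0 : j ≠ 0 := by
          intro h0
          exact hbad (Or.inl h0)
        refine ⟨t + r, Nat.le_add_right _ _, Nat.add_le_add_left hr.le _, ?_, ?_, ?_⟩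
        · apply sqfree_of hβ hβW h2W hx1 (Dvd.intro j rfl) hn he
          intro p hp hpW
          have g1 : ¬ (p ∣ 1 + W * i ∧ p ∣ W * j) := by
            intro h
            exact hbad (Or.inr (Or.inl ⟨p, hp, hpW, h.1, h.2⟩))
          refine ⟨g1, ?_, ?_⟩
          · intro h
            by_cases hpy : p ∣ W * j
            · apply g1
              refine ⟨?_, hpy⟩
              have h5 : p ∣ (1 + W * i) ^ 2 + β * (W * j) ^ 2 :=
                (dvd_pow_self p (by norm_num)).trans h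
              exact hp.dvd_of_dvd_pow ((Nat.dvd_add_left
                (Dvd.dvd.mul_left (Dvd.dvd.pow hpy (by norm_num)) _)).mp h5)
            · exact hbad (Or.inr (Or.inr ⟨p, hp, hpW, hpy, Or.inl h⟩))
          · intro h
            by_cases hpy : p ∣ W * j
            · apply g1
              refine ⟨?_, hpy⟩
              have h5 : p ∣ (1 + W * i) ^ 2 - β * (W * j) ^ 2 :=
                (dvd_pow_self p (by norm_num)).trans h
              have h6 := Nat.dvd_add h5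
                (Dvd.dvd.mul_left (Dvd.dvd.pow hpy (by norm_num)) β : p ∣ β * (W * j) ^ 2)
              rw [Nat.sub_add_cancel hlt.le] at h6
              exact hp.dvd_of_dvd_pow h6
            · exact hbad (Or.inr (Or.inr ⟨p, hp, hpW, hpy, Or.inr h⟩))
        · exact (modEq_of hx1 (Dvd.intro j rfl) he).of_dvd hqW
        · exact cong_of hβ0 (by omega) (Nat.mul_pos hW0 (Nat.pos_of_ne_zero hj0)) hn he
      · have h7 : (1 + W * i) ^ 2 ≤ (2 * Y ^ 4) ^ 2 := Nat.pow_le_pow_left hxY 2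
        nlinarith
    · simp only
      rw [he]
      omega
  have hc1 : T.card ≤ B.card * (500 * β ^ 3 * W * U ^ 3 * Y ^ 9) := by
    have := (card_le_card hTsub).trans card_image_le
    rwa [card_product, card_range] at this
  have hc2 : (T.card : ℝ) ≤ (B.card : ℝ) * (500 * (β : ℝ) ^ 3 * W * U ^ 3 * Y ^ 9) := by
    exact_mod_cast hc1
  have hbad := bad_card β W v I J (3 * Y ^ 4) (by omega) h2W hβW hpw B (by
    intro p hp
    rw [hB, mem_filter, mem_product, mem_range, mem_range] at hp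
    exact ⟨hp.1.1, hp.1.2, hp.2.1, hp.2.2.1, hp.2.2.2⟩)
  have hYR : (1 : ℝ) ≤ Y := by exact_mod_cast hY0
  refine hc2.trans ((mul_le_mul_of_nonneg_right hbad (by positivity)).trans ?_)
  have hvR : (0 : ℝ) < v := by
    have : 0 < v := by omega
    exact_mod_cast this
  apply final_bound ((β : ℝ) ^ 3) U W v Y I J _ δ (by positivity) hUR (by rw [hW]; push_cast; ring)
    hvR (by linarith) hδ (by positivity) (by positivity)
  · -- W I ≤ 3 Y ^ 4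
    have : W * I ≤ 3 * Y ^ 4 := by
      rw [hI, Nat.mul_add, Nat.mul_one]
      have := Nat.mul_div_le (2 * Y ^ 4) W
      omega
    exact_mod_cast this
  · have : W * J ≤ 5 * U * Y ^ 3 := by
      rw [hJ, Nat.mul_add, Nat.mul_one]
      have h8 := Nat.mul_div_le (4 * U * Y ^ 3) W
      have h9 : 5 * U * Y ^ 3 = 4 * U * Y ^ 3 + U * Y ^ 3 := by ring
      omega
    exact_mod_cast this
  · exact hw'
  · -- 6000 b U ^ 3 ≤ δ Y ^ 3
    have h1 : 50000 * (β : ℝ) ^ 3 * (U : ℝ) ^ 5 ≤ δ * Y := by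
      rw [div_le_iff₀ hδ] at hY₂
      have h2 : (Y₂ : ℝ) ≤ Y := by
        have : Y₂ ≤ Y := by omega
        exact_mod_cast this
      nlinarith
    have h3 : (U : ℝ) ^ 3 ≤ (U : ℝ) ^ 5 := pow_le_pow_right₀ hUR (by norm_num)
    have h4 : (Y : ℝ) ≤ (Y : ℝ) ^ 3 := le_self_pow₀ hYR (by norm_num)
    calc 6000 * (β : ℝ) ^ 3 * (U : ℝ) ^ 3 ≤ 50000 * (β : ℝ) ^ 3 * (U : ℝ) ^ 5 := by
          apply mul_le_mul _ h3 (by positivity) (by positivity)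
          have : (0 : ℝ) ≤ (β : ℝ) ^ 3 := by positivity
          linarith
      _ ≤ δ * Y := h1
      _ ≤ δ * (Y : ℝ) ^ 3 := mul_le_mul_of_nonneg_left h4 hδ.le
  · rw [div_le_iff₀ hδ] at hY₂
    have h2 : (Y₂ : ℝ) ≤ Y := by
      have : Y₂ ≤ Y := by omega
      exact_mod_cast this
    nlinarith
  · have h1 := hY₁ Y (by omega)
    have h2 : (0 : ℝ) < 40000 * (β : ℝ) ^ 3 * (U : ℝ) ^ 4 := by positivity
    rw [div_mul_eq_mul_div, le_div_iff₀ h2] at h1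
    linarith

/-- **Squarefree congruent numbers in almost all short intervals.** -/
theorem main (β q : ℕ) (hβ : Squarefree β) (hq : 0 < q) (η : ℝ) (hη : 0 < η) :
    ∃ C : ℝ, 0 < C ∧ ∃ X₀ : ℕ, ∀ X : ℕ, X₀ ≤ X → ∀ T : Finset ℕ,
      (∀ t ∈ T, t ≤ X ∧ ¬ ∃ n : ℕ, t ≤ n ∧ (n : ℝ) ≤ t + C * (t : ℝ) ^ (9 / 16 : ℝ) ∧
        Squarefree n ∧ n ≡ β [MOD q] ∧ Cong n) → (T.card : ℝ) ≤ η * X := by
  classical
  obtain ⟨C₁, Y₀, hsc⟩ := scale β q hβ hq (η / 2 ^ 18) (by positivity)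
  set δ : ℝ := η / 4 with hδ
  have hδ0 : 0 < δ := by positivity
  obtain ⟨X₁, hX₁⟩ := exists_nat_ge (4 / η)
  refine ⟨512 * (C₁ + 1) * (1 / δ) ^ (9 / 16 : ℝ), by positivity, Y₀ ^ 16 + X₁ + 1, ?_⟩
  intro X hX T hT
  have hX1 : 1 ≤ X := by omega
  have hXR : (1 : ℝ) ≤ X := by exact_mod_cast hX1
  have hX0 : (0 : ℝ) < X := by linarith
  set Y : ℕ := ⌈(X : ℝ) ^ (1 / 16 : ℝ)⌉₊ with hY
  have hroot : ((X : ℝ) ^ (1 / 16 : ℝ)) ^ 16 = X := by
    rw [← Real.rpow_natCast, ← Real.rpow_mul hX0.le]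
    norm_num
  have hroot1 : 1 ≤ (X : ℝ) ^ (1 / 16 : ℝ) := Real.one_le_rpow hXR (by norm_num)
  have hYlow : (X : ℝ) ^ (1 / 16 : ℝ) ≤ Y := Nat.le_ceil _
  have hYup : (Y : ℝ) ≤ 2 * (X : ℝ) ^ (1 / 16 : ℝ) := by
    have := (Nat.ceil_lt_add_one (a := (X : ℝ) ^ (1 / 16 : ℝ)) (by positivity)).le
    linarith
  have hXY : X ≤ Y ^ 16 := by
    have h1 : (X : ℝ) ≤ (Y : ℝ) ^ 16 := by
      calc (X : ℝ) = ((X : ℝ) ^ (1 / 16 : ℝ)) ^ 16 := hroot.symm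
        _ ≤ (Y : ℝ) ^ 16 := pow_le_pow_left₀ (by positivity) hYlow 16
    exact_mod_cast h1
  have hY16 : (Y : ℝ) ^ 16 ≤ 2 ^ 16 * X := by
    calc (Y : ℝ) ^ 16 ≤ (2 * (X : ℝ) ^ (1 / 16 : ℝ)) ^ 16 := pow_le_pow_left₀ (by positivity) hYup 16
      _ = 2 ^ 16 * ((X : ℝ) ^ (1 / 16 : ℝ)) ^ 16 := by ring
      _ = 2 ^ 16 * X := by rw [hroot]
  have hYY : Y₀ ≤ Y := by
    have h1 : Y₀ ^ 16 ≤ Y ^ 16 := by omega
    exact (Nat.pow_le_pow_iff_left (by norm_num)).mp h1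
  have h9 : ((X : ℝ) ^ (1 / 16 : ℝ)) ^ 9 = (X : ℝ) ^ (9 / 16 : ℝ) := by
    rw [← Real.rpow_natCast, ← Real.rpow_mul hX0.le]
    norm_num
  have hY9 : (Y : ℝ) ^ 9 ≤ 512 * (X : ℝ) ^ (9 / 16 : ℝ) := by
    calc (Y : ℝ) ^ 9 ≤ (2 * (X : ℝ) ^ (1 / 16 : ℝ)) ^ 9 := pow_le_pow_left₀ (by positivity) hYup 9
      _ = 512 * ((X : ℝ) ^ (1 / 16 : ℝ)) ^ 9 := by ring
      _ = _ := by rw [h9]
  have hsplit := card_filter_add_card_filter_not (s := T) (fun t : ℕ => (t : ℝ) < δ * X)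
  have hsmall : ((T.filter (fun t : ℕ => (t : ℝ) < δ * X)).card : ℝ) ≤ δ * X + 1 := by
    have h1 : T.filter (fun t : ℕ => (t : ℝ) < δ * X) ⊆ range (⌊δ * X⌋₊ + 1) := by
      intro t ht
      rw [mem_filter] at ht
      rw [mem_range]
      exact Nat.lt_succ_of_le (Nat.le_floor ht.2.le)
    have h2 := card_le_card h1
    rw [card_range] at h2
    have h3 : ((T.filter (fun t : ℕ => (t : ℝ) < δ * X)).card : ℝ) ≤ (⌊δ * X⌋₊ : ℝ) + 1 := by
      exact_mod_cast h2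
    have h4 := Nat.floor_le (a := δ * X) (by positivity)
    linarith
  have hbig : ((T.filter (fun t : ℕ => ¬ (t : ℝ) < δ * X)).card : ℝ) ≤ η / 2 ^ 18 * (Y : ℝ) ^ 16 := by
    apply hsc Y hYY
    intro t ht
    rw [mem_filter, not_lt] at ht
    obtain ⟨htT, htδ⟩ := ht
    obtain ⟨htX, hno⟩ := hT t htT
    have ht0 : (0 : ℝ) < t := lt_of_lt_of_le (by positivity) htδ
    have ht1 : 1 ≤ t := by
      have : 0 < t := by exact_mod_cast ht0
      omega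
    refine ⟨ht1, htX.trans hXY, ?_⟩
    rintro ⟨n, hn1, hn2, hn3, hn4, hn5⟩
    apply hno
    refine ⟨n, hn1, ?_, hn3, hn4, hn5⟩
    have h1 : (n : ℝ) ≤ t + C₁ * (Y : ℝ) ^ 9 := by exact_mod_cast hn2
    have h2 : (X : ℝ) ≤ (1 / δ) * t := by
      rw [one_div, inv_mul_eq_div, le_div_iff₀ hδ0]
      linarith
    have h3 : (X : ℝ) ^ (9 / 16 : ℝ) ≤ (1 / δ) ^ (9 / 16 : ℝ) * (t : ℝ) ^ (9 / 16 : ℝ) := by
      rw [← Real.mul_rpow (by positivity) ht0.le]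
      exact Real.rpow_le_rpow hX0.le h2 (by norm_num)
    have hC : (0 : ℝ) ≤ C₁ := by positivity
    calc (n : ℝ) ≤ t + C₁ * (Y : ℝ) ^ 9 := h1
      _ ≤ t + (C₁ + 1) * (512 * ((1 / δ) ^ (9 / 16 : ℝ) * (t : ℝ) ^ (9 / 16 : ℝ))) := by
          have h5 : (Y : ℝ) ^ 9 ≤ 512 * ((1 / δ) ^ (9 / 16 : ℝ) * (t : ℝ) ^ (9 / 16 : ℝ)) := by
            linarith
          have h6 : (0 : ℝ) ≤ (Y : ℝ) ^ 9 := by positivity
          have h7 : C₁ * (Y : ℝ) ^ 9 ≤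
              (C₁ + 1) * (512 * ((1 / δ) ^ (9 / 16 : ℝ) * (t : ℝ) ^ (9 / 16 : ℝ))) := by
            apply mul_le_mul (by linarith) h5 h6 (by positivity)
          linarith
      _ = _ := by ring
  have hcR : (T.card : ℝ) = ((T.filter (fun t : ℕ => (t : ℝ) < δ * X)).card : ℝ) +
      ((T.filter (fun t : ℕ => ¬ (t : ℝ) < δ * X)).card : ℝ) := by
    rw [← hsplit]
    push_cast
    ring
  have h10 : η / 2 ^ 18 * (Y : ℝ) ^ 16 ≤ η / 4 * X := by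
    calc η / 2 ^ 18 * (Y : ℝ) ^ 16 ≤ η / 2 ^ 18 * (2 ^ 16 * X) :=
          mul_le_mul_of_nonneg_left hY16 (by positivity)
      _ = η / 4 * X := by ring
  have h11 : 1 ≤ η / 4 * X := by
    rw [div_le_iff₀ hη] at hX₁
    have h12 : (X₁ : ℝ) ≤ X := by
      have : X₁ ≤ X := by omega
      exact_mod_cast this
    nlinarith
  rw [hcR]
  have h13 : 0 ≤ η * (X : ℝ) := by positivity
  rw [hδ] at hsmall
  linarith

end Pool.Agent.Run7.H246.CN
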