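import Mathlib
import Pool.Agent.Run7.h246.CN.PSMain

set_option autoImplicit false

/-! # Squarefree congruent numbers in almost all intervals `[t, t + t ^ θ]`, `θ > 9/16`, with a
power saving in the exceptional set (helper246) -/

namespace Pool.Agent.Run7.H246.CN

open Finset

/-- **Congruent numbers in almost all short intervals, power saving.** -/
theorem main_ps (β q : ℕ) (hβ : Squarefree β) (hq : 0 < q) (θ : ℝ) (hθ : 9 / 16 < θ) :
    ∃ δ : ℝ, 0 < δ ∧ ∃ X₀ : ℕ, ∀ X : ℕ, X₀ ≤ X → ∀ T : Finset ℕ,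
      (∀ t ∈ T, t ≤ X ∧ ¬ ∃ n : ℕ, t ≤ n ∧ (n : ℝ) ≤ t + (t : ℝ) ^ θ ∧
        Squarefree n ∧ n ≡ β [MOD q] ∧ Cong n) → (T.card : ℝ) ≤ (X : ℝ) ^ (1 - δ) := by
  classical
  have hθ0 : 0 < 16 * θ - 9 := by linarith
  obtain ⟨s0, hs0⟩ := exists_nat_ge ((25 + 3 * θ) / (16 * θ - 9))
  set s : ℕ := s0 + 8 with hs
  have hs8 : 8 ≤ s := by omega
  have hsR : (0 : ℝ) < s := by
    have : 0 < s := by omega
    exact_mod_cast this
  have hsθ : 25 + 3 * θ ≤ (16 * θ - 9) * s := by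
    have h1 : (25 + 3 * θ) / (16 * θ - 9) ≤ (s : ℝ) := by
      refine hs0.trans ?_
      have : s0 ≤ s := by omega
      exact_mod_cast this
    rw [div_le_iff₀ hθ0] at h1
    linarith
  clear_value s
  obtain ⟨N₀, hN₀2, hps⟩ := ps_scale β q s hβ hq hs8
  set K : ℕ := N₀ + 2 ^ (9 * s + 26) + (3 * 2 ^ (16 * s + 1)) ^ 2 with hK
  refine ⟨1 / (32 * s), by positivity, K ^ (16 * s), ?_⟩
  intro X hX T hT
  have hK1 : 1 ≤ K := by
    have : 0 < 2 ^ (9 * s + 26) := by positivity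
    omega
  have hX1 : 1 ≤ X := (Nat.one_le_pow _ _ hK1).trans hX
  have hXR : (1 : ℝ) ≤ X := by exact_mod_cast hX1
  have hX0 : (0 : ℝ) < X := by linarith
  set ρ : ℝ := (2 * (X : ℝ)) ^ (1 / (16 * s : ℝ)) with hρ
  have hρ0 : 0 < ρ := by rw [hρ]; positivity
  have hρpow : ρ ^ (16 * s) = 2 * X := by
    rw [hρ, ← Real.rpow_natCast, ← Real.rpow_mul (by positivity)]
    have e : 1 / (16 * (s : ℝ)) * ((16 * s : ℕ) : ℝ) = 1 := by
      push_cast
      field_simp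
    rw [e, Real.rpow_one]
  have h16 : 16 * s ≠ 0 := by omega
  have hρK : (K : ℝ) ≤ ρ := by
    have h1 : (K : ℝ) ^ (16 * s) ≤ ρ ^ (16 * s) := by
      rw [hρpow]
      have h2 : ((K ^ (16 * s) : ℕ) : ℝ) ≤ X := by exact_mod_cast hX
      push_cast at h2
      linarith
    exact le_of_pow_le_pow_left₀ h16 hρ0.le h1
  have hKR : (N₀ : ℝ) ≤ ρ ∧ (2 : ℝ) ^ (9 * s + 26) ≤ ρ ∧ ((3 : ℝ) * 2 ^ (16 * s + 1)) ^ 2 ≤ ρ := by
    have e : (K : ℝ) = N₀ + 2 ^ (9 * s + 26) + (3 * 2 ^ (16 * s + 1)) ^ 2 := by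
      rw [hK]
      push_cast
      ring
    rw [e] at hρK
    have p1 : (0 : ℝ) ≤ N₀ := by positivity
    have p2 : (0 : ℝ) < 2 ^ (9 * s + 26) := by positivity
    have p3 : (0 : ℝ) < (3 * 2 ^ (16 * s + 1)) ^ 2 := by positivity
    exact ⟨by linarith, by linarith, by linarith⟩
  obtain ⟨hρN, hρ2, hρ3⟩ := hKR
  have hρ1 : 1 ≤ ρ := by
    refine le_trans ?_ hρN
    have : 1 ≤ N₀ := by omega
    exact_mod_cast this
  set N : ℕ := ⌈ρ⌉₊ with hN
  have hNlow : ρ ≤ N := Nat.le_ceil ρ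
  have hNup : (N : ℝ) ≤ 2 * ρ := by
    have := (Nat.ceil_lt_add_one hρ0.le).le
    linarith
  have hNN : N₀ ≤ N := by
    have : (N₀ : ℝ) ≤ N := hρN.trans hNlow
    exact_mod_cast this
  have hN0 : 0 < N := by omega
  have hNR : (0 : ℝ) < N := by exact_mod_cast hN0
  have hN1R : (1 : ℝ) ≤ N := hρ1.trans hNlow
  clear_value N
  set Z : ℕ := (N ^ s) ^ 16 with hZ
  have hZR : (Z : ℝ) = (N : ℝ) ^ (16 * s) := by
    rw [hZ]
    push_cast
    rw [← pow_mul, Nat.mul_comm s 16]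
  have hZlow : 2 * (X : ℝ) ≤ Z := by
    rw [hZR, ← hρpow]
    exact pow_le_pow_left₀ hρ0.le hNlow _
  have hZup : (Z : ℝ) ≤ 2 ^ (16 * s + 1) * X := by
    rw [hZR]
    calc (N : ℝ) ^ (16 * s) ≤ (2 * ρ) ^ (16 * s) := pow_le_pow_left₀ hNR.le hNup _
      _ = 2 ^ (16 * s) * (2 * X) := by rw [mul_pow, hρpow]
      _ = 2 ^ (16 * s + 1) * X := by rw [pow_succ]; ring
  set H : ℕ := (N ^ s) ^ 9 * N ^ 25 with hH
  have hHR : (H : ℝ) = (N : ℝ) ^ (9 * s + 25) := by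
    rw [hH]
    push_cast
    rw [← pow_mul, Nat.mul_comm s 9, ← pow_add]
  have hHX : (H : ℝ) ≤ X := by
    have h1 : (2 : ℝ) * H ≤ ρ ^ (16 * s) := by
      rw [hHR]
      calc (2 : ℝ) * (N : ℝ) ^ (9 * s + 25) ≤ 2 * (2 * ρ) ^ (9 * s + 25) :=
            mul_le_mul_of_nonneg_left (pow_le_pow_left₀ hNR.le hNup _) (by norm_num)
        _ = 2 ^ (9 * s + 26) * ρ ^ (9 * s + 25) := by
            rw [mul_pow, show 9 * s + 26 = (9 * s + 25) + 1 from rfl, pow_succ 2 (9 * s + 25)]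
            ring
        _ ≤ ρ * ρ ^ (9 * s + 25) := mul_le_mul_of_nonneg_right hρ2 (by positivity)
        _ = ρ ^ (9 * s + 26) := by rw [pow_succ' ρ (9 * s + 25)]
        _ ≤ ρ ^ (16 * s) := pow_le_pow_right₀ hρ1 (by omega)
    rw [hρpow] at h1
    linarith
  have hHXn : H ≤ X := by exact_mod_cast hHX
  have hZn : 2 * X ≤ Z := by
    have : ((2 * X : ℕ) : ℝ) ≤ Z := by push_cast; exact hZlow
    exact_mod_cast this
  -- splitting
  have hsplit := card_filter_add_card_filter_not (s := T) (fun t : ℕ => t * N ^ 3 < Z)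
  have hsmall : ((T.filter (fun t : ℕ => t * N ^ 3 < Z)).card : ℝ) ≤ (Z : ℝ) / N + 1 := by
    have h1 : T.filter (fun t : ℕ => t * N ^ 3 < Z) ⊆ range (Z / N + 1) := by
      intro t ht
      rw [mem_filter] at ht
      rw [mem_range]
      apply Nat.lt_succ_of_le
      rw [Nat.le_div_iff_mul_le hN0]
      have h2 : t * N ≤ t * N ^ 3 := Nat.mul_le_mul_left _ (Nat.le_self_pow (by norm_num) N)
      omega
    have h2 := card_le_card h1
    rw [card_range] at h2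
    have h3 : ((T.filter (fun t : ℕ => t * N ^ 3 < Z)).card : ℝ) ≤ ((Z / N : ℕ) : ℝ) + 1 := by
      exact_mod_cast h2
    have h4 := @Nat.cast_div_le ℝ _ _ _ Z N
    linarith
  have hbig : ((T.filter (fun t : ℕ => ¬ t * N ^ 3 < Z)).card : ℝ) ≤ (Z : ℝ) / N := by
    rw [le_div_iff₀ hNR]
    have hc : (T.filter (fun t : ℕ => ¬ t * N ^ 3 < Z)).card =
        ((T.filter (fun t : ℕ => ¬ t * N ^ 3 < Z)).image (fun t => t + H)).card := by
      rw [card_image_of_injective]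
      exact add_left_injective H
    rw [hc]
    apply hps N hNN
    intro t' ht'
    rw [mem_image] at ht'
    obtain ⟨t, ht, rfl⟩ := ht'
    rw [mem_filter, not_lt] at ht
    obtain ⟨htT, htZ⟩ := ht
    obtain ⟨htX, hno⟩ := hT t htT
    refine ⟨by omega, htZ.trans (Nat.mul_le_mul_right _ (Nat.le_add_right _ _)), ?_⟩
    rintro ⟨n, hn1, hn2, hn3, hn4, hn5⟩
    apply hno
    refine ⟨n, by omega, ?_, hn3, hn4, hn5⟩
    have h1 : (n : ℝ) ≤ t + H := by exact_mod_cast hn1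
    have h2 : (H : ℝ) ≤ (t : ℝ) ^ θ := by
      have htR : (N : ℝ) ^ (16 * s - 3 : ℝ) ≤ t := by
        have h3 : (Z : ℝ) ≤ t * (N : ℝ) ^ 3 := by exact_mod_cast htZ
        rw [hZR] at h3
        rw [Real.rpow_sub hNR, div_le_iff₀ (by positivity)]
        have e1 : (N : ℝ) ^ (16 * s : ℝ) = (N : ℝ) ^ (16 * s) := by
          rw [← Real.rpow_natCast]
          push_cast
          rfl
        have e2 : (N : ℝ) ^ (3 : ℝ) = (N : ℝ) ^ 3 := by
          rw [← Real.rpow_natCast]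
          norm_num
        rw [e1, e2]
        exact h3
      calc (H : ℝ) = (N : ℝ) ^ ((9 * s + 25 : ℕ) : ℝ) := by rw [hHR, Real.rpow_natCast]
        _ ≤ (N : ℝ) ^ ((16 * s - 3 : ℝ) * θ) := by
          apply Real.rpow_le_rpow_of_exponent_le hN1R
          push_cast
          linarith
        _ = ((N : ℝ) ^ (16 * s - 3 : ℝ)) ^ θ := by rw [Real.rpow_mul hNR.le]
        _ ≤ (t : ℝ) ^ θ := Real.rpow_le_rpow (by positivity) htR (by linarith)
    linarith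
  have hcR : (T.card : ℝ) ≤ 3 * ((Z : ℝ) / N) := by
    have h1 : (T.card : ℝ) = ((T.filter (fun t : ℕ => t * N ^ 3 < Z)).card : ℝ) +
        ((T.filter (fun t : ℕ => ¬ t * N ^ 3 < Z)).card : ℝ) := by
      rw [← hsplit]
      push_cast
      ring
    have h2 : 1 ≤ (Z : ℝ) / N := by
      rw [le_div_iff₀ hNR, hZR, one_mul]
      exact le_self_pow₀ hN1R h16
    linarith
  refine hcR.trans ?_
  -- final comparison
  have hXδ0 : (0 : ℝ) < (X : ℝ) ^ (1 / (32 * s : ℝ)) := by positivity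
  have hXδ : ((X : ℝ) ^ (1 / (32 * s : ℝ))) ^ 2 ≤ ρ := by
    rw [← Real.rpow_natCast, ← Real.rpow_mul hX0.le]
    have e : 1 / (32 * (s : ℝ)) * ((2 : ℕ) : ℝ) = 1 / (16 * s) := by
      push_cast
      field_simp
      norm_num
    rw [e, hρ]
    exact Real.rpow_le_rpow hX0.le (by linarith) (by positivity)
  have hprod : (3 * 2 ^ (16 * s + 1)) * (X : ℝ) ^ (1 / (32 * s : ℝ)) ≤ ρ := by
    have h1 : ((3 * 2 ^ (16 * s + 1)) * (X : ℝ) ^ (1 / (32 * s : ℝ))) ^ 2 ≤ ρ ^ 2 := by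
      rw [mul_pow, pow_two ρ]
      exact mul_le_mul hρ3 hXδ (by positivity) hρ0.le
    exact le_of_pow_le_pow_left₀ (by norm_num) hρ0.le h1
  have h1 : 3 * ((Z : ℝ) / N) ≤ (3 * 2 ^ (16 * s + 1)) * X / ρ := by
    have h2 : (Z : ℝ) / N ≤ 2 ^ (16 * s + 1) * X / ρ := by
      apply div_le_div₀ (by positivity) hZup hρ0 hNlow
    calc 3 * ((Z : ℝ) / N) ≤ 3 * (2 ^ (16 * s + 1) * X / ρ) := by linarith
      _ = _ := by ring
  refine h1.trans ?_
  rw [div_le_iff₀ hρ0]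
  have e3 : (X : ℝ) = (X : ℝ) ^ (1 - 1 / (32 * s : ℝ)) * (X : ℝ) ^ (1 / (32 * s : ℝ)) := by
    rw [← Real.rpow_add hX0]
    have : 1 - 1 / (32 * (s : ℝ)) + 1 / (32 * s) = 1 := by ring
    rw [this, Real.rpow_one]
  calc (3 * 2 ^ (16 * s + 1)) * (X : ℝ)
      = (X : ℝ) ^ (1 - 1 / (32 * s : ℝ)) *
        ((3 * 2 ^ (16 * s + 1)) * (X : ℝ) ^ (1 / (32 * s : ℝ))) := by
        nth_rewrite 1 [e3]
        ring
    _ ≤ (X : ℝ) ^ (1 - 1 / (32 * s : ℝ)) * ρ :=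
        mul_le_mul_of_nonneg_left hprod (by positivity)

end Pool.Agent.Run7.H246.CN
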